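import Pool.Agent.TH481.AboveT3

set_option autoImplicit false

/-!
The numerical analysis, and the flat maximal antichains with sizes above `T(n,l)`.
-/

namespace Pool.Agent.TH481.AboveT

open Finset Pool.Agent.TH481

lemma ch2_two (a : ℕ) : 2 * a.choose 2 + a = a * a := by
  induction a with
  | zero => simp
  | succ a ih => rw [ch2]; nlinarith

/-- the pure star -/
lemma star_graph {N a : ℕ} (hN : 2 ≤ N) (ha : 1 ≤ a) (ha2 : a + 1 ≤ N ∨ a = N + 1) :
    ∃ R : Fin (N + 2) → Fin (N + 2) → Prop, (∀ x, ¬ R x x) ∧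
      (∀ x y, x ≠ y → ¬ R x y → ¬ R y x → ∃ z, z ≠ x ∧ z ≠ y ∧
        ¬ R x z ∧ ¬ R z x ∧ ¬ R y z ∧ ¬ R z y) ∧
      (tt 3 R).card + a.choose 2 = a * N ∧ (tt 2 R).card = a := by
  obtain ⟨h1, h2⟩ := stage1 (N := N) (s := 1) (p := 1) le_rfl a (by omega)
  exact ⟨RR (N + 2) 1 a 0 0 1 0, RR_irr le_rfl, max_star hN ha ha2, h1, h2⟩

/-- one star and a matching -/
lemma one_graph {N a k : ℕ} (hN : 5 ≤ N) (ha : 1 ≤ a) (ha2 : a + 2 ≤ N)
    (hk : a + 2 * k ≤ N + 1) :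
    ∃ R : Fin (N + 2) → Fin (N + 2) → Prop, (∀ x, ¬ R x x) ∧
      (∀ x y, x ≠ y → ¬ R x y → ¬ R y x → ∃ z, z ≠ x ∧ z ≠ y ∧
        ¬ R x z ∧ ¬ R z x ∧ ¬ R y z ∧ ¬ R z y) ∧
      (tt 3 R).card + a.choose 2 = (a + k) * N ∧ (tt 2 R).card = a + k := by
  have h1 := stage1 (N := N) (s := 1) (p := 1 + a) le_rfl a (by omega)
  obtain ⟨h2, h3⟩ := stage4 (N := N) (s := 1) (a := a) (c := 0) (b := 0) (p := 1 + a)
    le_rfl (by norm_num) (by omega) ha le_rfl (Or.inl ⟨rfl, rfl⟩) h1 k (by omega)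
  exact ⟨RR (N + 2) 1 a 0 0 (1 + a) k, RR_irr le_rfl,
    max_gen hN le_rfl (by norm_num) (by omega) ha ha2 (by omega) le_rfl (Or.inl ⟨rfl, rfl⟩)
      (by omega), h2, h3⟩

/-- two stars and a matching -/
lemma two_graph {N a b c k : ℕ} (hN : 5 ≤ N) (ha : 1 ≤ a) (ha2 : a + 2 ≤ N)
    (hcb : c ≤ b) (hba : b ≤ a) (hab : a + (b - c) + 1 ≤ N)
    (hk : a + (b - c) + 2 * k ≤ N) :
    ∃ R : Fin (N + 2) → Fin (N + 2) → Prop, (∀ x, ¬ R x x) ∧
      (∀ x y, x ≠ y → ¬ R x y → ¬ R y x → ∃ z, z ≠ x ∧ z ≠ y ∧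
        ¬ R x z ∧ ¬ R z x ∧ ¬ R y z ∧ ¬ R z y) ∧
      (tt 3 R).card + (a.choose 2 + b.choose 2 + c) = (a + b + k) * N ∧
      (tt 2 R).card = a + b + k := by
  obtain ⟨e, rfl⟩ := Nat.exists_eq_add_of_le hcb
  rw [Nat.add_sub_cancel_left] at hab hk
  obtain ⟨h1, h2⟩ := stage3 (N := N) (p := 2 + a + e) (a := a) (c := c) (by omega) e (by omega)
  obtain ⟨h3, h4⟩ := stage4 (N := N) (s := 2) (a := a) (c := c) (b := e) (p := 2 + a + e)
    (A := a.choose 2 + (c + e).choose 2 + c) (B := a + (c + e))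
    (by norm_num) le_rfl (by omega) ha (by omega) (Or.inr ⟨rfl, le_rfl⟩)
    ⟨by rw [← Nat.add_assoc a c e, ← h1]; ring, by rw [h2]; ring⟩ k (by omega)
  exact ⟨RR (N + 2) 2 a c e (2 + a + e) k, RR_irr (by norm_num),
    max_gen hN (by norm_num) le_rfl (by omega) ha ha2 (by omega) (by omega)
      (Or.inr ⟨rfl, le_rfl⟩) (by omega), h3, h4⟩

lemma num1 {M a b c t w : ℕ} (hM : 4 ≤ M) (hcb : c ≤ b) (hb : 1 ≤ b) (h2 : a + b ≤ t)
    (ht : t ≤ M + 2) (hU' : M * (2 * t) < 2 * w + M * (M + 2))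
    (h2w : 2 * w + a + b = a * a + b * b + 2 * c) : a + 1 ≤ M := by
  by_contra hcon
  have h10 : (a = M ∧ b = 1 ∧ t = M + 1) ∨ (a = M ∧ b = 1 ∧ t = M + 2) ∨
      (a = M ∧ b = 2 ∧ t = M + 2) ∨ (a = M + 1 ∧ b = 1 ∧ t = M + 2) := by omega
  rcases h10 with ⟨h10, h11, h12⟩ | ⟨h10, h11, h12⟩ | ⟨h10, h11, h12⟩ | ⟨h10, h11, h12⟩ <;>
  · subst h10 h11 h12
    linarith

lemma num2 {M a b c t w : ℕ} (hM : 4 ≤ M) (hcb : c ≤ b) (h2 : a + 1 + (b + 1) ≤ t)
    (ht : t ≤ M + 2) (hU' : M * (2 * t) < 2 * w + M * (M + 2))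
    (h2w : 2 * w + (a + 1) + (b + 1) = (a + 1) * (a + 1) + (b + 1) * (b + 1) + 2 * c) :
    a + 1 + (b + 1 - c) + 1 ≤ M + 1 := by
  by_contra hcon
  have h13 : 0 ≤ a * b := Nat.zero_le _
  have h10 : (c = 0 ∧ a + b + 1 = M ∧ t = M + 1) ∨ (c = 0 ∧ a + b + 1 = M ∧ t = M + 2) ∨
      (c = 0 ∧ a + b = M ∧ t = M + 2) ∨ (c = 1 ∧ a + b = M ∧ t = M + 2) := by omega
  rcases h10 with ⟨h10, h11, h12⟩ | ⟨h10, h11, h12⟩ | ⟨h10, h11, h12⟩ | ⟨h10, h11, h12⟩
  · subst h10 h11 h12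
    linarith
  · subst h10 h11 h12
    linarith
  · subst h10 h11 h12
    linarith
  · subst h10 h11 h12
    linarith

lemma num3 {M a b c t w : ℕ} (h2 : a + 1 + (b + 1) ≤ t)
    (ht : t ≤ M + 2) (hU' : M * (2 * t) < 2 * w + M * (M + 2)) (hcb : c ≤ b + 1)
    (h2w : 2 * w + (a + 1) + (b + 1) = (a + 1) * (a + 1) + (b + 1) * (b + 1) + 2 * c) :
    a + 1 + (b + 1 - c) + 2 * (t - (a + 1) - (b + 1)) ≤ M + 1 := by
  by_contra hcon
  have h10 : M + 4 + a + b + c ≤ 2 * t := by omega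
  have h11 : M * (M + 4 + a + b + c) ≤ M * (2 * t) := Nat.mul_le_mul_left _ h10
  have h12 : a + b + c ≤ M := by omega
  have h13 : 2 * w ≤ (a + b + c + 1) * (a + b + c) := by
    have h14 : 0 ≤ a * b := Nat.zero_le _
    have h15 : 0 ≤ c * a := Nat.zero_le _
    have h16 : 0 ≤ c * b := Nat.zero_le _
    rcases Nat.eq_zero_or_pos c with hc | hc
    · subst hc; linarith
    · have h17 : c * 1 ≤ c * c := Nat.mul_le_mul_left _ hc
      linarith
  have h19 : (a + b + c) * (a + b + c + 2) ≤ M * (a + b + c + 2) :=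
    Nat.mul_le_mul_right _ h12
  linarith

lemma num4 {M t a b c w : ℕ} (hM : M = 2 ∨ M = 3) (hcb : c ≤ b) (hba : b ≤ a)
    (h1 : 1 ≤ a + b) (h2 : a + b ≤ t) (ht : t ≤ M + 2)
    (hU : t * M < w + M * ((M + 1 + 1) / 2)) (hL : w < t * M)
    (h2w : 2 * w + a + b = a * a + b * b + 2 * c) :
    t * M = w + M ∨ t * M + 1 = w + 2 * M := by
  rcases hM with rfl | rfl
  · have h21 : t ≤ 4 := by omega
    have h22 : a ≤ 4 := by omega
    have h23 : b ≤ 4 := by omega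
    interval_cases t <;> interval_cases a <;> interval_cases b <;> omega
  · have h21 : t ≤ 5 := by omega
    have h22 : a ≤ 5 := by omega
    have h23 : b ≤ 5 := by omega
    interval_cases t <;> interval_cases a <;> interval_cases b <;> omega

lemma exists_graph {N t a b c : ℕ} (hcb : c ≤ b) (hba : b ≤ a) (h1 : 1 ≤ a + b)
    (h2 : a + b ≤ t) (ht : t ≤ N + 1)
    (hU : t * (N - 1) < (a.choose 2 + b.choose 2 + c) + (N - 1) * ((N + 1) / 2))
    (hL : a.choose 2 + b.choose 2 + c < t * (N - 1)) :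
    ∃ R : Fin (N + 2) → Fin (N + 2) → Prop, (∀ x, ¬ R x x) ∧
      (∀ x y, x ≠ y → ¬ R x y → ¬ R y x → ∃ z, z ≠ x ∧ z ≠ y ∧
        ¬ R x z ∧ ¬ R z x ∧ ¬ R y z ∧ ¬ R z y) ∧
      (tt 3 R).card + (a.choose 2 + b.choose 2 + c) + t = t * N + (tt 2 R).card := by
  have hN3 : 3 ≤ N := by
    by_contra hcon
    have : N = 0 ∨ N = 1 ∨ N = 2 := by omega
    rcases this with rfl | rfl | rfl
    · simp at hL
    · simp at hL
    · norm_num at hU hL
      omega
  obtain ⟨M, rfl⟩ : ∃ M, N = M + 1 := ⟨N - 1, by omega⟩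
  rw [Nat.add_sub_cancel] at hU hL
  set w := a.choose 2 + b.choose 2 + c with hw
  have hA := ch2_two a
  have hB := ch2_two b
  -- the doubled inequality
  have hU' : M * (2 * t) < 2 * w + M * (M + 2) := by
    have h3 : 2 * ((M + 1 + 1) / 2) ≤ M + 2 := by omega
    have h4 : M * (2 * ((M + 1 + 1) / 2)) ≤ M * (M + 2) := Nat.mul_le_mul_left _ h3
    have h5 : M * (2 * ((M + 1 + 1) / 2)) = 2 * (M * ((M + 1 + 1) / 2)) := by ring
    have h6 : M * (2 * t) = 2 * (t * M) := by ring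
    omega
  have h2w : 2 * w + a + b = a * a + b * b + 2 * c := by omega
  by_cases hN5 : 5 ≤ M + 1
  · by_cases hb : b = 0
    · subst hb
      have hc : c = 0 := by omega
      subst hc
      have hw' : w = a.choose 2 := by rw [hw]; simp
      by_cases ha2 : a + 2 ≤ M + 1
      · obtain ⟨R, hR1, hR2, hR3, hR4⟩ := one_graph (N := M + 1) (a := a) (k := t - a) hN5
          (by omega) ha2 (by
            by_contra hcon
            push Not at hcon
            have h7 : M + 3 + a ≤ 2 * t := by omega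
            have h8 : M * (M + 3 + a) ≤ M * (2 * t) := Nat.mul_le_mul_left _ h7
            nlinarith)
        refine ⟨R, hR1, hR2, ?_⟩
        have h9 : a + (t - a) = t := by omega
        rw [h9] at hR3 hR4
        rw [hR4, hw']
        omega
      · have h10 : (t = M ∧ a = M) ∨ (t = M + 1 ∧ a = M) ∨ (t = M + 1 ∧ a = M + 1) ∨
            (t = M + 2 ∧ a = M) ∨ (t = M + 2 ∧ a = M + 1) ∨ (t = M + 2 ∧ a = M + 2) := by omega
        rcases h10 with ⟨rfl, rfl⟩ | ⟨rfl, rfl⟩ | ⟨rfl, rfl⟩ | ⟨rfl, rfl⟩ | ⟨rfl, rfl⟩ | ⟨rfl, rfl⟩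
        · -- t = a = M
          obtain ⟨R, hR1, hR2, hR3, hR4⟩ := star_graph (N := a + 1) (a := a) (by omega)
            (by omega) (Or.inl le_rfl)
          refine ⟨R, hR1, hR2, ?_⟩
          rw [hR4, hw']
          omega
        · exfalso
          nlinarith
        · -- t = a = M + 1
          obtain ⟨R, hR1, hR2, hR3, hR4⟩ := star_graph (N := M + 1) (a := M) (by omega)
            (by omega) (Or.inl le_rfl)
          refine ⟨R, hR1, hR2, ?_⟩
          rw [hR4, hw', ch2 M]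
          nlinarith
        · exfalso
          nlinarith
        · exfalso
          nlinarith
        · obtain ⟨R, hR1, hR2, hR3, hR4⟩ := star_graph (N := M + 1) (a := M + 2) (by omega)
            (by omega) (Or.inr rfl)
          refine ⟨R, hR1, hR2, ?_⟩
          rw [hR4, hw']
          omega
    · -- `b ≥ 1`
      have hb1 : 1 ≤ b := by omega
      obtain ⟨a', rfl⟩ : ∃ a', a = a' + 1 := ⟨a - 1, by omega⟩
      obtain ⟨b', rfl⟩ : ∃ b', b = b' + 1 := ⟨b - 1, by omega⟩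
      have hac := num1 (by omega) hcb hb1 h2 ht hU' h2w
      have hab : a' + 1 + (b' + 1 - c) + 1 ≤ M + 1 := by
        by_cases hcb' : c ≤ b'
        · exact num2 (by omega) hcb' h2 ht hU' h2w
        · omega
      have hk := num3 h2 ht hU' hcb h2w
      obtain ⟨R, hR1, hR2, hR3, hR4⟩ := two_graph (N := M + 1) (a := a' + 1)
        (b := b' + 1) (c := c) (k := t - (a' + 1) - (b' + 1)) hN5 (by omega) (by omega) hcb hba hab hk
      refine ⟨R, hR1, hR2, ?_⟩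
      have h9 : a' + 1 + (b' + 1) + (t - (a' + 1) - (b' + 1)) = t := by omega
      rw [h9] at hR3 hR4
      rw [hR4, hw]
      omega
  · -- `N = 3, 4`
    have hM : M = 2 ∨ M = 3 := by omega
    have hD := num4 hM hcb hba h1 h2 ht hU hL h2w
    rcases hD with hD | hD
    · obtain ⟨R, hR1, hR2, hR3, hR4⟩ := star_graph (N := M + 1) (a := 1) (by omega)
        le_rfl (Or.inl (by omega))
      refine ⟨R, hR1, hR2, ?_⟩
      rw [hR4]
      have : Nat.choose 1 2 = 0 := rfl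
      rw [this] at hR3
      nlinarith
    · obtain ⟨R, hR1, hR2, hR3, hR4⟩ := star_graph (N := M + 1) (a := 2) (by omega)
        (by norm_num) (Or.inl (by omega))
      refine ⟨R, hR1, hR2, ?_⟩
      rw [hR4]
      have : Nat.choose 2 2 = 1 := rfl
      rw [this] at hR3
      nlinarith

end Pool.Agent.TH481.AboveT
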