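import Pool.Agent.TH481.Flat

set_option autoImplicit false

/-!
No gaps in the sizes of flat maximal antichains.
-/

namespace Pool.Agent.TH481.NoGap

open Finset Pool.Agent.TH481

section

variable {α : Type} [DecidableEq α] [Fintype α]

/-- the `(l+1)`-sets all of whose `l`-subsets are in the shadow -/
def cl (l : ℕ) (𝓓 : Finset (Finset α)) : Finset (Finset α) :=
  (powersetCard (l + 1) (univ : Finset α)).filter
    (fun Q => ∀ S ∈ powersetCard l Q, S ∈ shad l 𝓓)

lemma mem_cl {l : ℕ} {𝓓 : Finset (Finset α)} {Q : Finset α} :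
    Q ∈ cl l 𝓓 ↔ Q.card = l + 1 ∧ ∀ S : Finset α, S ⊆ Q → S.card = l → S ∈ shad l 𝓓 := by
  unfold cl
  rw [mem_filter, mem_powersetCard]
  simp only [subset_univ, true_and, mem_powersetCard, and_imp]

lemma shad_mono {l : ℕ} {𝓓 𝓔 : Finset (Finset α)} (h : 𝓓 ⊆ 𝓔) : shad l 𝓓 ⊆ shad l 𝓔 := by
  intro S hS
  rw [mem_shad] at hS ⊢
  obtain ⟨h1, Q, hQ, h2⟩ := hS
  exact ⟨h1, Q, h hQ, h2⟩

lemma cl_mono {l : ℕ} {𝓓 𝓔 : Finset (Finset α)} (h : 𝓓 ⊆ 𝓔) : cl l 𝓓 ⊆ cl l 𝓔 := by
  intro Q hQ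
  rw [mem_cl] at hQ ⊢
  exact ⟨hQ.1, fun S h1 h2 => shad_mono h (hQ.2 S h1 h2)⟩

lemma subset_cl {l : ℕ} {𝓓 : Finset (Finset α)} (hD : ∀ D ∈ 𝓓, D.card = l + 1) :
    𝓓 ⊆ cl l 𝓓 := by
  intro Q hQ
  rw [mem_cl]
  exact ⟨hD Q hQ, fun S h1 h2 => mem_shad.2 ⟨h2, Q, hQ, h1⟩⟩

lemma shad_cl {l : ℕ} {𝓓 : Finset (Finset α)} (hD : ∀ D ∈ 𝓓, D.card = l + 1) :
    shad l (cl l 𝓓) = shad l 𝓓 := by
  apply Subset.antisymm
  · intro S hS
    rw [mem_shad] at hS
    obtain ⟨h1, Q, hQ, h2⟩ := hS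
    exact (mem_cl.1 hQ).2 S h2 h1
  · exact shad_mono (subset_cl hD)

/-- `C(n,l)` minus the size of the antichain generated by `𝓓` -/
def gg (l : ℕ) (𝓓 : Finset (Finset α)) : ℤ := ((shad l 𝓓).card : ℤ) - ((cl l 𝓓).card : ℤ)

lemma realize {l : ℕ} (hl : l + 1 ≤ Fintype.card α) {𝓓 : Finset (Finset α)}
    (hD : ∀ D ∈ 𝓓, D.card = l + 1) :
    IsFlatMax l (anti l (cl l 𝓓)) ∧
      ((anti l (cl l 𝓓)).card : ℤ) = ((Fintype.card α).choose l : ℤ) - gg l 𝓓 := by
  have h0 : ∀ Q ∈ cl l 𝓓, Q.card = l + 1 := fun Q hQ => (mem_cl.1 hQ).1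
  refine ⟨isFlatMax_anti hl h0 ?_, ?_⟩
  · intro Q hQ h
    rw [shad_cl hD] at h
    exact mem_cl.2 ⟨hQ, h⟩
  · have := card_anti (l := l) h0
    rw [shad_cl hD] at this
    unfold gg
    omega

lemma shad_insert {l : ℕ} {𝓓 : Finset (Finset α)} (D : Finset α) :
    shad l (insert D 𝓓) = shad l 𝓓 ∪ powersetCard l D := by
  ext S
  rw [mem_union, mem_shad, mem_shad, mem_powersetCard]
  constructor
  · rintro ⟨h1, Q, hQ, h2⟩
    rw [mem_insert] at hQ
    rcases hQ with rfl | hQ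
    · right; exact ⟨h2, h1⟩
    · left; exact ⟨h1, Q, hQ, h2⟩
  · rintro (⟨h1, Q, hQ, h2⟩ | ⟨h1, h2⟩)
    · exact ⟨h1, Q, mem_insert_of_mem hQ, h2⟩
    · exact ⟨h2, D, mem_insert_self _ _, h1⟩

lemma step {l : ℕ} {𝓓 : Finset (Finset α)} {D : Finset α} (hDc : D.card = l + 1) :
    gg l (insert D 𝓓) ≤ gg l 𝓓 + l := by
  by_cases h : D ∈ cl l 𝓓
  · have h1 : shad l (insert D 𝓓) = shad l 𝓓 := by
      rw [shad_insert]
      apply union_eq_left.2
      intro S hS
      rw [mem_powersetCard] at hS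
      exact (mem_cl.1 h).2 S hS.1 hS.2
    have h2 : cl l (insert D 𝓓) = cl l 𝓓 := by
      unfold cl
      rw [h1]
    unfold gg
    rw [h1, h2]
    omega
  · have h1 : (shad l (insert D 𝓓)).card ≤ (shad l 𝓓).card + (l + 1) := by
      rw [shad_insert]
      refine (card_union_le _ _).trans ?_
      rw [card_powersetCard, hDc, Nat.choose_succ_self_right]
    have h2 : insert D (cl l 𝓓) ⊆ cl l (insert D 𝓓) := by
      apply insert_subset
      · rw [mem_cl]
        refine ⟨hDc, fun S hS hc => ?_⟩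
        rw [mem_shad]
        exact ⟨hc, D, mem_insert_self _ _, hS⟩
      · exact cl_mono (subset_insert _ _)
    have h3 := card_le_card h2
    rw [card_insert_of_notMem h] at h3
    unfold gg
    omega

lemma gg_empty (l : ℕ) : gg l (∅ : Finset (Finset α)) = 0 := by
  have h1 : shad l (∅ : Finset (Finset α)) = ∅ := by
    rw [eq_empty_iff_forall_notMem]
    intro S hS
    obtain ⟨_, Q, hQ, _⟩ := mem_shad.1 hS
    exact absurd hQ (notMem_empty _)
  have h2 : cl l (∅ : Finset (Finset α)) = ∅ := by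
    rw [eq_empty_iff_forall_notMem]
    intro Q hQ
    obtain ⟨h3, h4⟩ := mem_cl.1 hQ
    obtain ⟨S, hS, hc⟩ := exists_subset_card_eq (s := Q) (n := l) (by omega)
    have := h4 S hS hc
    rw [h1] at this
    exact absurd this (notMem_empty _)
  unfold gg
  rw [h1, h2]
  simp

lemma ivt {l : ℕ} (𝓑 : Finset (Finset α)) : (∀ D ∈ 𝓑, D.card = l + 1) →
    ∀ w : ℤ, 0 ≤ w → w ≤ gg l 𝓑 → ∃ 𝓓 ⊆ 𝓑, w - l ≤ gg l 𝓓 ∧ gg l 𝓓 ≤ w := by
  induction 𝓑 using Finset.induction_on with
  | empty =>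
    intro _ w h1 h2
    refine ⟨∅, Subset.refl _, ?_, ?_⟩ <;> rw [gg_empty] at * <;> omega
  | insert D 𝓑 hD ih =>
    intro hB w h1 h2
    by_cases h : w ≤ gg l 𝓑
    · obtain ⟨𝓓, h3, h4⟩ := ih (fun D' hD' => hB D' (mem_insert_of_mem hD')) w h1 h
      exact ⟨𝓓, h3.trans (subset_insert _ _), h4⟩
    · push Not at h
      have h3 := step (l := l) (𝓓 := 𝓑) (hB D (mem_insert_self _ _))
      exact ⟨𝓑, subset_insert _ _, by omega, by omega⟩

lemma shad_union {l : ℕ} (𝓓 𝓖 : Finset (Finset α)) :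
    shad l (𝓓 ∪ 𝓖) = shad l 𝓓 ∪ shad l 𝓖 := by
  ext S
  simp only [mem_union, mem_shad]
  constructor
  · rintro ⟨h1, Q, hQ | hQ, h2⟩
    · left; exact ⟨h1, Q, hQ, h2⟩
    · right; exact ⟨h1, Q, hQ, h2⟩
  · rintro (⟨h1, Q, hQ, h2⟩ | ⟨h1, Q, hQ, h2⟩)
    · exact ⟨h1, Q, Or.inl hQ, h2⟩
    · exact ⟨h1, Q, Or.inr hQ, h2⟩

/-- additivity of `gg`: blocks inside `C` and blocks meeting `C` in at most `l - 2` points -/
lemma gg_union' {l : ℕ} {C : Finset α}
    {𝓓 𝓖 : Finset (Finset α)} (hD : ∀ D ∈ 𝓓, (D ∩ C).card + 2 ≤ l) (hG : ∀ D ∈ 𝓖, D ⊆ C) :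
    gg l (𝓓 ∪ 𝓖) = gg l 𝓓 + gg l 𝓖 := by
  have sD : ∀ S ∈ shad l 𝓓, (S ∩ C).card + 2 ≤ l := by
    intro S hS
    obtain ⟨_, Q, hQ, h⟩ := mem_shad.1 hS
    have := card_le_card (inter_subset_inter_right (u := C) h)
    have := hD Q hQ
    omega
  have sG : ∀ S ∈ shad l 𝓖, (S ∩ C).card = l := by
    intro S hS
    obtain ⟨h1, Q, hQ, h⟩ := mem_shad.1 hS
    rw [inter_eq_left.2 (h.trans (hG Q hQ)), h1]
  have sdisj : ∀ S, S ∈ shad l 𝓓 → S ∈ shad l 𝓖 → False := by
    intro S h1 h2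
    have h3 := sD S h1
    have h4 := sG S h2
    omega
  have hclu : cl l (𝓓 ∪ 𝓖) = cl l 𝓓 ∪ cl l 𝓖 := by
    apply Subset.antisymm
    · intro Q hQ
      obtain ⟨h1, h2⟩ := mem_cl.1 hQ
      rw [shad_union] at h2
      rw [mem_union]
      by_cases h3 : ∃ F : Finset α, F ⊆ Q ∧ F.card = l ∧ F ∈ shad l 𝓖
      · right
        obtain ⟨F, hFQ, hFc, hF⟩ := h3
        have h4 : l ≤ (Q ∩ C).card := by
          have h5 := card_le_card (inter_subset_inter_right (u := C) hFQ)
          rw [sG F hF] at h5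
          exact h5
        rw [mem_cl]
        refine ⟨h1, fun S hS hc => ?_⟩
        have h5 := h2 S hS hc
        rw [mem_union] at h5
        rcases h5 with h5 | h5
        · exfalso
          have h6 := sD S h5
          have h7 : (Q ∩ C).card ≤ (S ∩ C).card + (Q \ S).card := by
            refine le_trans (card_le_card ?_) (card_union_le _ _)
            intro x hx
            rw [mem_inter] at hx
            rw [mem_union, mem_inter, mem_sdiff]
            by_cases hxS : x ∈ S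
            · left; exact ⟨hxS, hx.2⟩
            · right; exact ⟨hx.1, hxS⟩
          have h8 := card_sdiff_add_card_eq_card hS
          omega
        · exact h5
      · left
        push Not at h3
        rw [mem_cl]
        refine ⟨h1, fun S hS hc => ?_⟩
        have h5 := h2 S hS hc
        rw [mem_union] at h5
        rcases h5 with h5 | h5
        · exact h5
        · exact absurd h5 (h3 S hS hc)
    · exact union_subset (cl_mono subset_union_left) (cl_mono subset_union_right)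
  have hcd : Disjoint (cl l 𝓓) (cl l 𝓖) := by
    rw [disjoint_left]
    intro Q h1 h2
    obtain ⟨h3, h4⟩ := mem_cl.1 h1
    obtain ⟨_, h5⟩ := mem_cl.1 h2
    obtain ⟨S, hS, hc⟩ := exists_subset_card_eq (s := Q) (n := l) (by omega)
    exact sdisj S (h4 S hS hc) (h5 S hS hc)
  have hsd : Disjoint (shad l 𝓓) (shad l 𝓖) := by
    rw [disjoint_left]
    exact fun S h1 h2 => sdisj S h1 h2
  unfold gg
  rw [shad_union, hclu, card_union_of_disjoint hcd, card_union_of_disjoint hsd]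
  push_cast
  ring

lemma gg_union {l : ℕ} (hl : 2 ≤ l) {V C : Finset α} (hVC : Disjoint V C)
    {𝓓 𝓖 : Finset (Finset α)} (hD : ∀ D ∈ 𝓓, D ⊆ V) (hG : ∀ D ∈ 𝓖, D ⊆ C) :
    gg l (𝓓 ∪ 𝓖) = gg l 𝓓 + gg l 𝓖 := by
  apply gg_union' _ hG
  intro D h
  have : D ∩ C = ∅ := by
    rw [← disjoint_iff_inter_eq_empty]
    exact disjoint_of_subset_left (hD D h) hVC
  rw [this, card_empty]
  omega

lemma gg_complete {l : ℕ} (hl : 1 ≤ l) {C : Finset α} (hC : l + 1 ≤ C.card) :
    gg l (powersetCard (l + 1) C) = (C.card.choose l : ℤ) - (C.card.choose (l + 1) : ℤ) := by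
  have h1 : shad l (powersetCard (l + 1) C) = powersetCard l C := by
    ext S
    rw [mem_shad, mem_powersetCard]
    constructor
    · rintro ⟨h1, Q, hQ, h2⟩
      rw [mem_powersetCard] at hQ
      exact ⟨h2.trans hQ.1, h1⟩
    · rintro ⟨h1, h2⟩
      obtain ⟨Q, h3, h4, h5⟩ := exists_subsuperset_card_eq (s := S) (t := C) (n := l + 1) h1
        (by omega) hC
      exact ⟨h2, Q, mem_powersetCard.2 ⟨h4, h5⟩, h3⟩
  have h2 : cl l (powersetCard (l + 1) C) = powersetCard (l + 1) C := by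
    ext Q
    rw [mem_cl, mem_powersetCard, h1]
    constructor
    · rintro ⟨h2, h3⟩
      refine ⟨fun x hx => ?_, h2⟩
      obtain ⟨S, hS1, hS2, hS3⟩ := exists_subsuperset_card_eq (s := {x}) (t := Q) (n := l)
        (singleton_subset_iff.2 hx) (by rw [card_singleton]; exact hl) (by omega)
      have h4 := h3 S hS2 hS3
      rw [mem_powersetCard] at h4
      exact h4.1 (hS1 (mem_singleton_self _))
    · rintro ⟨h2, h3⟩
      refine ⟨h3, fun S hS hc => ?_⟩
      rw [mem_powersetCard]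
      exact ⟨hS.trans h2, hc⟩
  unfold gg
  rw [h1, h2, card_powersetCard, card_powersetCard]

end

/-! ### gadgets -/

/-- the value `r` is attained on every set of at least `N` points -/
def Ach (l : ℕ) (r : ℤ) : Prop :=
  ∃ N : ℕ, ∀ (α : Type) [DecidableEq α] [Fintype α] (C : Finset α), N ≤ C.card →
    ∃ 𝓖 : Finset (Finset α), (∀ D ∈ 𝓖, D.card = l + 1 ∧ D ⊆ C) ∧ gg l 𝓖 = r

lemma ach_zero (l : ℕ) : Ach l 0 :=
  ⟨0, fun _ _ _ _ _ => ⟨∅, by simp, gg_empty l⟩⟩

lemma ach_add {l : ℕ} (hl : 2 ≤ l) {r s : ℤ} (hr : Ach l r) (hs : Ach l s) : Ach l (r + s) := by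
  obtain ⟨N, hN⟩ := hr
  obtain ⟨M, hM⟩ := hs
  refine ⟨N + M, ?_⟩
  intro α _ _ C hC
  obtain ⟨C₁, h1, h2⟩ := exists_subset_card_eq (s := C) (n := N) (by omega)
  have h3 : (C \ C₁).card + C₁.card = C.card := card_sdiff_add_card_eq_card h1
  obtain ⟨𝓖₁, h4, h5⟩ := hN α C₁ h2.ge
  obtain ⟨𝓖₂, h6, h7⟩ := hM α (C \ C₁) (by omega)
  refine ⟨𝓖₁ ∪ 𝓖₂, ?_, ?_⟩
  · intro D hD
    rw [mem_union] at hD
    rcases hD with hD | hD
    · exact ⟨(h4 D hD).1, (h4 D hD).2.trans h1⟩
    · exact ⟨(h6 D hD).1, (h6 D hD).2.trans sdiff_subset⟩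
  · rw [gg_union hl (V := C₁) (C := C \ C₁) disjoint_sdiff (fun D hD => (h4 D hD).2)
      (fun D hD => (h6 D hD).2), h5, h7]

lemma ach_mul {l : ℕ} (hl : 2 ≤ l) {r : ℤ} (hr : Ach l r) (k : ℕ) : Ach l (k * r) := by
  induction k with
  | zero => simpa using ach_zero l
  | succ k ih =>
    have := ach_add hl ih hr
    push_cast
    rw [add_mul, one_mul]
    exact this

lemma ach_complete {l : ℕ} (hl : 1 ≤ l) {m : ℕ} (hm : l + 1 ≤ m) :
    Ach l ((m.choose l : ℤ) - (m.choose (l + 1) : ℤ)) := by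
  refine ⟨m, ?_⟩
  intro α _ _ C hC
  obtain ⟨C₁, h1, h2⟩ := exists_subset_card_eq (s := C) (n := m) hC
  refine ⟨powersetCard (l + 1) C₁, ?_, ?_⟩
  · intro D hD
    rw [mem_powersetCard] at hD
    exact ⟨hD.2, hD.1.trans h1⟩
  · rw [gg_complete hl (by omega), h2]

lemma ach_pos {l : ℕ} (hl : 1 ≤ l) : Ach l l := by
  have := ach_complete hl (le_refl (l + 1))
  rw [Nat.choose_succ_self_right, Nat.choose_self] at this
  have e : ((l + 1 : ℕ) : ℤ) - ((1 : ℕ) : ℤ) = l := by push_cast; ring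
  rwa [e] at this

lemma ach_negel {l : ℕ} (hl : 1 ≤ l) : ∃ q : ℕ, 0 < q ∧ Ach l (-(q : ℤ)) := by
  have h := ach_complete hl (m := 2 * l + 2) (by omega)
  have h1 : (2 * l + 2).choose l < (2 * l + 2).choose (l + 1) := by
    have h2 := Nat.choose_succ_right_eq (2 * l + 2) l
    have h3 : 0 < (2 * l + 2).choose l := Nat.choose_pos (by omega)
    have h4 : 2 * l + 2 - l = l + 2 := by omega
    rw [h4] at h2
    by_contra hcon
    push Not at hcon
    nlinarith
  refine ⟨(2 * l + 2).choose (l + 1) - (2 * l + 2).choose l, by omega, ?_⟩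
  have e : -(((2 * l + 2).choose (l + 1) - (2 * l + 2).choose l : ℕ) : ℤ) =
      ((2 * l + 2).choose l : ℤ) - ((2 * l + 2).choose (l + 1) : ℤ) := by
    rw [Nat.cast_sub h1.le]; ring
  rw [e]
  exact h

lemma ach_neg {l : ℕ} (hl : 2 ≤ l) {r : ℤ} (hr : Ach l r) : Ach l (-r) := by
  rcases lt_trichotomy r 0 with h | h | h
  · obtain ⟨s, hs⟩ : ∃ s : ℕ, r = -(s : ℤ) := ⟨r.natAbs, by omega⟩
    have h1 := ach_mul hl (ach_pos (l := l) (by omega)) s
    have h2 := ach_mul hl hr (l - 1)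
    have h3 := ach_add hl h1 h2
    have e : (s : ℤ) * l + ((l - 1 : ℕ) : ℤ) * r = -r := by
      rw [Nat.cast_sub (by omega), hs]; push_cast; ring
    rwa [e] at h3
  · rw [h, neg_zero]; exact ach_zero l
  · obtain ⟨s, hs⟩ : ∃ s : ℕ, r = (s : ℤ) := ⟨r.natAbs, by omega⟩
    obtain ⟨q, hq, hq2⟩ := ach_negel (l := l) (by omega)
    have h1 := ach_mul hl hq2 s
    have h2 := ach_mul hl hr (q - 1)
    have h3 := ach_add hl h1 h2
    have e : (s : ℤ) * (-(q : ℤ)) + ((q - 1 : ℕ) : ℤ) * r = -r := by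
      rw [Nat.cast_sub (by omega), hs]; push_cast; ring
    rwa [e] at h3

lemma ach_sub {l : ℕ} (hl : 2 ≤ l) {r s : ℤ} (hr : Ach l r) (hs : Ach l s) : Ach l (r - s) := by
  rw [sub_eq_add_neg]
  exact ach_add hl hr (ach_neg hl hs)

lemma ach_diff {l : ℕ} (hl : 2 ≤ l) (k : ℕ) (hk : k ≤ l) : ∀ m : ℕ, l + 1 ≤ m →
    Ach l ((m.choose (l - k) : ℤ) - (m.choose (l - k + 1) : ℤ)) := by
  induction k with
  | zero =>
    intro m hm
    simpa using ach_complete (by omega) hm
  | succ k ih =>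
    intro m hm
    have h1 := ih (by omega) (m + 1) (by omega)
    have h2 := ih (by omega) m hm
    have h3 := ach_sub hl h1 h2
    obtain ⟨j, hj⟩ : ∃ j, l - k = j + 1 := ⟨l - k - 1, by omega⟩
    have hj2 : l - (k + 1) = j := by omega
    rw [hj] at h3
    rw [hj2]
    have e : (((m + 1).choose (j + 1) : ℕ) : ℤ) - (((m + 1).choose (j + 1 + 1) : ℕ) : ℤ) -
        ((m.choose (j + 1) : ℤ) - (m.choose (j + 1 + 1) : ℤ)) =
        (m.choose j : ℤ) - (m.choose (j + 1) : ℤ) := by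
      rw [Nat.choose_succ_succ m j, Nat.choose_succ_succ m (j + 1)]
      push_cast
      simp only [Nat.succ_eq_add_one]
      ring
    rwa [e] at h3

lemma ach_one {l : ℕ} (hl : 2 ≤ l) : Ach l 1 := by
  have h1 := ach_diff hl l le_rfl (l + 1) le_rfl
  have h2 := ach_diff hl l le_rfl (l + 2) (by omega)
  have h3 := ach_sub hl h1 h2
  rw [Nat.sub_self] at h3
  simp only [zero_add, Nat.choose_zero_right, Nat.choose_one_right] at h3
  have e : ((1 : ℕ) : ℤ) - ((l + 1 : ℕ) : ℤ) - (((1 : ℕ) : ℤ) - ((l + 2 : ℕ) : ℤ)) = 1 := by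
    push_cast; ring
  rwa [e] at h3

lemma ach_nat {l : ℕ} (hl : 2 ≤ l) (r : ℕ) : Ach l r := by
  have := ach_mul hl (ach_one hl) r
  rwa [mul_one] at this

lemma gadgets {l : ℕ} (hl : 2 ≤ l) : ∃ N : ℕ, l + 1 ≤ N ∧
    ∀ (α : Type) [DecidableEq α] [Fintype α] (C : Finset α), N ≤ C.card → ∀ r : ℕ, r ≤ l →
    ∃ 𝓖 : Finset (Finset α), (∀ D ∈ 𝓖, D.card = l + 1 ∧ D ⊆ C) ∧ gg l 𝓖 = r := by
  choose N hN using fun r : ℕ => ach_nat hl r
  refine ⟨(range (l + 1)).sup N + (l + 1), by omega, ?_⟩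
  intro α _ _ C hC r hr
  apply hN r α C
  have : N r ≤ (range (l + 1)).sup N := le_sup (f := N) (mem_range.2 (by omega))
  omega

/-! ### removing points -/

section

variable {α : Type} [DecidableEq α] [Fintype α]

/-- the number of `N`-sets containing a given set -/
lemma card_super {N : ℕ} (R : Finset α) :
    ((powersetCard N (univ : Finset α)).filter (fun C => R ⊆ C)).card ≤
      (Fintype.card α - R.card).choose (N - R.card) := by
  have h : (powersetCard (N - R.card) (Rᶜ)).card =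
      (Fintype.card α - R.card).choose (N - R.card) := by
    rw [card_powersetCard, card_compl]
  rw [← h]
  apply card_le_card_of_injOn (fun C => C \ R)
  · intro C hC
    rw [mem_coe, mem_filter, mem_powersetCard] at hC
    rw [mem_coe, mem_powersetCard]
    refine ⟨?_, ?_⟩
    · intro x hx
      rw [mem_sdiff] at hx
      rw [mem_compl]
      exact hx.2
    · rw [card_sdiff_of_subset hC.2, hC.1.2]
  · intro C hC C' hC' h
    rw [mem_coe, mem_filter] at hC hC'
    simp only at h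
    rw [← sdiff_union_of_subset hC.2, h, sdiff_union_of_subset hC'.2]

/-- the number of `N`-sets meeting a given `(l+1)`-set in at least `l - 1` points -/
lemma card_meet {l N : ℕ} {D : Finset α} (hD : D.card = l + 1) :
    ((powersetCard N (univ : Finset α)).filter (fun C => l < (D ∩ C).card + 2)).card ≤
      (l + 1).choose (l - 1) * (Fintype.card α - (l - 1)).choose (N - (l - 1)) := by
  have h1 : (powersetCard N (univ : Finset α)).filter (fun C => l < (D ∩ C).card + 2) ⊆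
      (powersetCard (l - 1) D).biUnion
        (fun R => (powersetCard N (univ : Finset α)).filter (fun C => R ⊆ C)) := by
    intro C hC
    rw [mem_filter] at hC
    rw [mem_biUnion]
    obtain ⟨R, hR1, hR2⟩ := exists_subset_card_eq (s := D ∩ C) (n := l - 1) (by omega)
    exact ⟨R, mem_powersetCard.2 ⟨hR1.trans inter_subset_left, hR2⟩,
      mem_filter.2 ⟨hC.1, hR1.trans inter_subset_right⟩⟩
  refine (card_le_card h1).trans (card_biUnion_le.trans ?_)
  have h2 : ∀ R ∈ powersetCard (l - 1) D,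
      ((powersetCard N (univ : Finset α)).filter (fun C => R ⊆ C)).card ≤
      (Fintype.card α - (l - 1)).choose (N - (l - 1)) := by
    intro R hR
    rw [mem_powersetCard] at hR
    have := card_super (N := N) R
    rw [hR.2] at this
    exact this
  refine (sum_le_sum h2).trans ?_
  rw [sum_const, card_powersetCard, hD, smul_eq_mul]

/-- there is an `N`-set `C` such that deleting the blocks meeting `C` in at least `l - 1` points
costs only `O(n)` -/
lemma remove {l N : ℕ} (hl : 1 ≤ l) (hlN : l ≤ N) (hN : N ≤ Fintype.card α)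
    {𝓤 : Finset (Finset α)} (hU : ∀ D ∈ 𝓤, D.card = l + 1) :
    ∃ C : Finset α, C.card = N ∧
      gg l 𝓤 ≤ gg l (𝓤.filter (fun D => ¬ l < (D ∩ C).card + 2)) +
        (((l + 1).choose (l - 1) * N.choose (l - 1) * Fintype.card α : ℕ) : ℤ) := by
  classical
  set n := Fintype.card α with hn
  have hf : ∀ S : Finset α, ∃ D : Finset α, S ∈ shad l 𝓤 → D ∈ 𝓤 ∧ S ⊆ D := by
    intro S
    by_cases h : S ∈ shad l 𝓤
    · obtain ⟨_, D, hD, hSD⟩ := mem_shad.1 h
      exact ⟨D, fun _ => ⟨hD, hSD⟩⟩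
    · exact ⟨∅, fun h' => absurd h' h⟩
  choose f hf using hf
  have hcard : (shad l 𝓤).card ≤ n.choose l := by
    rw [hn, ← card_univ, ← card_powersetCard]
    exact card_le_card (filter_subset _ _)
  have hsum : ∑ C ∈ powersetCard N (univ : Finset α),
      ((shad l 𝓤).filter (fun S => l < (f S ∩ C).card + 2)).card ≤
      n.choose l * ((l + 1).choose (l - 1) * (n - (l - 1)).choose (N - (l - 1))) := by
    have h1 := sum_card_bipartiteAbove_eq_sum_card_bipartiteBelow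
      (s := powersetCard N (univ : Finset α)) (t := shad l 𝓤)
      (fun (C : Finset α) (S : Finset α) => l < (f S ∩ C).card + 2)
    unfold bipartiteAbove bipartiteBelow at h1
    rw [h1]
    have h2 : ∀ S ∈ shad l 𝓤,
        ((powersetCard N (univ : Finset α)).filter (fun C => l < (f S ∩ C).card + 2)).card ≤
        (l + 1).choose (l - 1) * (n - (l - 1)).choose (N - (l - 1)) := by
      intro S hS
      obtain ⟨h3, h4⟩ := hf S hS
      exact card_meet (hU _ h3)
    refine (sum_le_sum h2).trans ?_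
    rw [sum_const, smul_eq_mul]
    exact Nat.mul_le_mul_right _ hcard
  obtain ⟨C, hC, hCc⟩ : ∃ C ∈ powersetCard N (univ : Finset α),
      ((shad l 𝓤).filter (fun S => l < (f S ∩ C).card + 2)).card ≤
      (l + 1).choose (l - 1) * N.choose (l - 1) * n := by
    by_contra hcon
    push Not at hcon
    have hne : (powersetCard N (univ : Finset α)).Nonempty := by
      rw [powersetCard_nonempty, card_univ]; exact hN
    have h1 : ∑ C ∈ powersetCard N (univ : Finset α), (l + 1).choose (l - 1) *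
        N.choose (l - 1) * n < ∑ C ∈ powersetCard N (univ : Finset α),
        ((shad l 𝓤).filter (fun S => l < (f S ∩ C).card + 2)).card :=
      sum_lt_sum_of_nonempty hne hcon
    rw [sum_const, smul_eq_mul, card_powersetCard, card_univ, ← hn] at h1
    have h2 := Nat.choose_mul (n := n) (show l - 1 ≤ N by omega)
    have h3 : n.choose l ≤ n.choose (l - 1) * n := by
      have h4 := Nat.choose_succ_right_eq n (l - 1)
      have h5 : l - 1 + 1 = l := by omega
      rw [h5] at h4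
      calc n.choose l = n.choose l * 1 := (mul_one _).symm
        _ ≤ n.choose l * l := Nat.mul_le_mul_left _ hl
        _ = n.choose (l - 1) * (n - (l - 1)) := h4
        _ ≤ n.choose (l - 1) * n := Nat.mul_le_mul_left _ (Nat.sub_le _ _)
    have h6 : n.choose N * ((l + 1).choose (l - 1) * N.choose (l - 1) * n) =
        n.choose (l - 1) * n * ((l + 1).choose (l - 1) *
          (n - (l - 1)).choose (N - (l - 1))) := by
      calc n.choose N * ((l + 1).choose (l - 1) * N.choose (l - 1) * n) =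
          (n.choose N * N.choose (l - 1)) * ((l + 1).choose (l - 1) * n) := by ring
        _ = _ := by rw [h2]; ring
    rw [h6] at h1
    have h7 := Nat.mul_le_mul_right
      ((l + 1).choose (l - 1) * (n - (l - 1)).choose (N - (l - 1))) h3
    omega
  refine ⟨C, (mem_powersetCard.1 hC).2, ?_⟩
  have h1 : shad l 𝓤 ⊆ shad l (𝓤.filter (fun D => ¬ l < (D ∩ C).card + 2)) ∪
      (shad l 𝓤).filter (fun S => l < (f S ∩ C).card + 2) := by
    intro S hS
    rw [mem_union]
    by_cases h : l < (f S ∩ C).card + 2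
    · right; exact mem_filter.2 ⟨hS, h⟩
    · left
      rw [mem_shad]
      exact ⟨(mem_shad.1 hS).1, f S, mem_filter.2 ⟨(hf S hS).1, h⟩, (hf S hS).2⟩
  have h2 := (card_le_card h1).trans (card_union_le _ _)
  have h3 := card_le_card (cl_mono (l := l)
    (filter_subset (fun D => ¬ l < (D ∩ C).card + 2) 𝓤))
  unfold gg
  have h4 : (((shad l 𝓤).filter (fun S => l < (f S ∩ C).card + 2)).card : ℤ) ≤
      (((l + 1).choose (l - 1) * N.choose (l - 1) * n : ℕ) : ℤ) := by exact_mod_cast hCc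
  omega

lemma gg_of_flat {l : ℕ} {𝒜 : Finset (Finset α)} (h : IsFlatMax l 𝒜) :
    ((Fintype.card α).choose l : ℤ) - 𝒜.card ≤ gg l (𝒜.filter (fun A => A.card = l + 1)) := by
  obtain ⟨h1, h2, h3⟩ := h
  set 𝓤 := 𝒜.filter (fun A => A.card = l + 1) with hU
  have hsub : (powersetCard l (univ : Finset α) \ shad l 𝓤) ⊆ 𝒜.filter (fun A => A.card = l) := by
    intro S hS
    rw [mem_sdiff, mem_powersetCard] at hS
    obtain ⟨⟨_, hc⟩, hn⟩ := hS
    rw [mem_filter]
    refine ⟨?_, hc⟩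
    obtain ⟨A, hA, hAS | hAS⟩ := h3 S
    · have := card_le_card hAS
      have h4 : A = S := eq_of_subset_of_card_le hAS (by rcases h1 A hA with h | h <;> omega)
      rw [← h4]; exact hA
    · rcases h1 A hA with h | h
      · have h4 : S = A := eq_of_subset_of_card_le hAS (by omega)
        rw [h4]; exact hA
      · exact absurd (mem_shad.2 ⟨hc, A, mem_filter.2 ⟨hA, h⟩, hAS⟩) hn
  have hcl : cl l 𝓤 ⊆ 𝓤 := by
    intro Q hQ
    obtain ⟨hQc, hQ2⟩ := mem_cl.1 hQ
    obtain ⟨A, hA, hAS | hAS⟩ := h3 Q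
    · rcases h1 A hA with h | h
      · exfalso
        obtain ⟨_, D, hD, hAD⟩ := mem_shad.1 (hQ2 A hAS h)
        rw [hU, mem_filter] at hD
        have := h2 A hA D hD.1 hAD
        rw [this] at h
        omega
      · have h4 : A = Q := eq_of_subset_of_card_le hAS (by omega)
        rw [hU, mem_filter, ← h4]
        exact ⟨hA, h⟩
    · have h5 := card_le_card hAS
      have h4 : Q = A := eq_of_subset_of_card_le hAS (by rcases h1 A hA with h | h <;> omega)
      rw [hU, mem_filter, h4]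
      exact ⟨hA, by rw [← h4]; exact hQc⟩
  have hs : shad l 𝓤 ⊆ powersetCard l (univ : Finset α) := filter_subset _ _
  have h5 := card_sdiff_add_card_eq_card hs
  rw [card_powersetCard, card_univ] at h5
  have h6 := card_le_card hsub
  have h7 := card_le_card hcl
  have h8 : (𝒜.filter (fun A => A.card = l)).card + 𝓤.card ≤ 𝒜.card := by
    rw [← card_union_of_disjoint]
    · exact card_le_card (union_subset (filter_subset _ _) (filter_subset _ _))
    · rw [disjoint_left]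
      intro A hA hA'
      rw [mem_filter] at hA hA'
      omega
  unfold gg
  omega

end

theorem noGap {l : ℕ} (hl : 2 ≤ l) : ∃ c : ℕ, ∀ (α : Type) [DecidableEq α] [Fintype α]
    (𝒜 : Finset (Finset α)), IsFlatMax l 𝒜 → ∀ m : ℕ,
    𝒜.card + c * Fintype.card α ≤ m → m ≤ (Fintype.card α).choose l →
    ∃ ℬ : Finset (Finset α), IsFlatMax l ℬ ∧ ℬ.card = m := by
  obtain ⟨N, hN1, hN⟩ := gadgets hl
  refine ⟨(l + 1).choose (l - 1) * N.choose (l - 1) + N ^ l, ?_⟩
  intro α _ _ 𝒜 h𝒜 m hm1 hm2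
  set n := Fintype.card α with hn
  have hne : 1 ≤ 𝒜.card := by
    obtain ⟨A, hA, _⟩ := h𝒜.2.2 ∅
    exact card_pos.2 ⟨A, hA⟩
  have hn0 : 1 ≤ n := by
    by_contra hcon
    have h0 : n = 0 := by omega
    rw [h0, Nat.choose_eq_zero_of_lt (by omega)] at hm2
    omega
  have hnN : N ≤ n := by
    by_contra hcon
    push Not at hcon
    have h1 : n.choose l ≤ n ^ l := Nat.choose_le_pow _ _
    have h2 : n ^ l ≤ N ^ l := Nat.pow_le_pow_left hcon.le _
    have h3 : N ^ l * 1 ≤ N ^ l * n := Nat.mul_le_mul_left _ hn0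
    rw [add_mul] at hm1
    omega
  have hg := gg_of_flat h𝒜
  obtain ⟨C, hC, hU3⟩ := remove (l := l) (N := N) (by omega) (by omega) hnN
    (𝓤 := 𝒜.filter (fun A => A.card = l + 1))
    (fun D hD => (mem_filter.1 hD).2)
  set 𝓤' := (𝒜.filter (fun A => A.card = l + 1)).filter (fun D => ¬ l < (D ∩ C).card + 2)
    with hU'
  have hU1c : ∀ D ∈ 𝓤', D.card = l + 1 := fun D hD => (mem_filter.1 (mem_filter.1 hD).1).2
  have hU2 : ∀ D ∈ 𝓤', (D ∩ C).card + 2 ≤ l := fun D hD => not_lt.1 (mem_filter.1 hD).2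
  rw [← hn] at hg hU3
  rw [add_mul] at hm1
  obtain ⟨𝓓, hD1, hD2, hD3⟩ := ivt 𝓤' hU1c ((n.choose l : ℤ) - m) (by omega) (by omega)
  obtain ⟨r, hr⟩ : ∃ r : ℕ, (n.choose l : ℤ) - m - gg l 𝓓 = r :=
    ⟨((n.choose l : ℤ) - m - gg l 𝓓).toNat, by omega⟩
  obtain ⟨𝓖, hG1, hG2⟩ := hN α C hC.ge r (by omega)
  have hun : gg l (𝓓 ∪ 𝓖) = gg l 𝓓 + gg l 𝓖 :=
    gg_union' (C := C) (fun D hD => hU2 D (hD1 hD)) (fun D hD => (hG1 D hD).2)
  have hDc : ∀ D ∈ 𝓓 ∪ 𝓖, D.card = l + 1 := by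
    intro D hD
    rw [mem_union] at hD
    rcases hD with hD | hD
    · exact hU1c D (hD1 hD)
    · exact (hG1 D hD).1
  obtain ⟨h1, h2⟩ := realize (l := l) (by rw [← hn]; omega) hDc
  refine ⟨_, h1, ?_⟩
  rw [hun, hG2, ← hn] at h2
  omega

end Pool.Agent.TH481.NoGap
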