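import Mathlib

set_option autoImplicit false

/-!
Flat maximal antichains from families of `(l+1)`-sets.
-/

namespace Pool.Agent.TH481

open Finset

variable {α : Type} [DecidableEq α] [Fintype α]

/-- `𝒜` lives on the levels `l` and `l+1` and is a maximal antichain of the power set of `α`. -/
def IsFlatMax (l : ℕ) (𝒜 : Finset (Finset α)) : Prop :=
  (∀ A ∈ 𝒜, A.card = l ∨ A.card = l + 1) ∧
  (∀ A ∈ 𝒜, ∀ B ∈ 𝒜, A ⊆ B → A = B) ∧
  (∀ S : Finset α, ∃ A ∈ 𝒜, A ⊆ S ∨ S ⊆ A)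

/-- the `l`-sets contained in a member of `𝓑` -/
def shad (l : ℕ) (𝓑 : Finset (Finset α)) : Finset (Finset α) :=
  (powersetCard l (univ : Finset α)).filter (fun S => ∃ Q ∈ 𝓑, S ⊆ Q)

lemma mem_shad {l : ℕ} {𝓑 : Finset (Finset α)} {S : Finset α} :
    S ∈ shad l 𝓑 ↔ S.card = l ∧ ∃ Q ∈ 𝓑, S ⊆ Q := by
  unfold shad
  rw [mem_filter, mem_powersetCard]
  constructor
  · rintro ⟨⟨_, h⟩, h2⟩; exact ⟨h, h2⟩
  · rintro ⟨h, h2⟩; exact ⟨⟨subset_univ _, h⟩, h2⟩

/-- the antichain built from `𝓑` -/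
def anti (l : ℕ) (𝓑 : Finset (Finset α)) : Finset (Finset α) :=
  𝓑 ∪ (powersetCard l (univ : Finset α) \ shad l 𝓑)

lemma isFlatMax_anti {l : ℕ} (hl : l + 1 ≤ Fintype.card α) {𝓑 : Finset (Finset α)}
    (hB : ∀ Q ∈ 𝓑, Q.card = l + 1)
    (hcl : ∀ Q : Finset α, Q.card = l + 1 →
      (∀ S : Finset α, S ⊆ Q → S.card = l → S ∈ shad l 𝓑) → Q ∈ 𝓑) :
    IsFlatMax l (anti l 𝓑) := by
  have hmem : ∀ A, A ∈ anti l 𝓑 ↔ A ∈ 𝓑 ∨ (A.card = l ∧ A ∉ shad l 𝓑) := by
    intro A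
    unfold anti
    rw [mem_union, mem_sdiff, mem_powersetCard]
    simp
  refine ⟨?_, ?_, ?_⟩
  · intro A hA
    rw [hmem] at hA
    rcases hA with h | h
    · right; exact hB A h
    · left; exact h.1
  · intro A hA B hBB hAB
    rw [hmem] at hA hBB
    rcases hA with hA | hA
    · rcases hBB with hb | hb
      · exact eq_of_subset_of_card_le hAB (by rw [hB A hA, hB B hb])
      · have := card_le_card hAB
        rw [hB A hA, hb.1] at this
        omega
    · rcases hBB with hb | hb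
      · exact absurd (mem_shad.2 ⟨hA.1, B, hb, hAB⟩) hA.2
      · exact eq_of_subset_of_card_le hAB (by rw [hA.1, hb.1])
  · intro S
    by_cases hS : l + 1 ≤ S.card
    · obtain ⟨Q, hQS, hQ⟩ := exists_subset_card_eq hS
      by_cases hQB : Q ∈ 𝓑
      · exact ⟨Q, (hmem Q).2 (Or.inl hQB), Or.inl hQS⟩
      · have : ¬ ∀ T : Finset α, T ⊆ Q → T.card = l → T ∈ shad l 𝓑 := fun h => hQB (hcl Q hQ h)
        push Not at this
        obtain ⟨T, hTQ, hT, hTs⟩ := this
        exact ⟨T, (hmem T).2 (Or.inr ⟨hT, hTs⟩), Or.inl (hTQ.trans hQS)⟩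
    · obtain ⟨T, hST, hT⟩ := exists_superset_card_eq (s := S) (n := l) (by omega) (by omega)
      by_cases hTs : T ∈ shad l 𝓑
      · obtain ⟨_, Q, hQ, hTQ⟩ := mem_shad.1 hTs
        exact ⟨Q, (hmem Q).2 (Or.inl hQ), Or.inr (hST.trans hTQ)⟩
      · exact ⟨T, (hmem T).2 (Or.inr ⟨hT, hTs⟩), Or.inr hST⟩

lemma card_anti {l : ℕ} {𝓑 : Finset (Finset α)} (hB : ∀ Q ∈ 𝓑, Q.card = l + 1) :
    (anti l 𝓑).card + (shad l 𝓑).card = 𝓑.card + (Fintype.card α).choose l := by
  unfold anti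
  have hsub : shad l 𝓑 ⊆ powersetCard l (univ : Finset α) := filter_subset _ _
  have hdisj : Disjoint 𝓑 (powersetCard l (univ : Finset α) \ shad l 𝓑) := by
    rw [disjoint_left]
    intro A hA hA'
    rw [mem_sdiff, mem_powersetCard] at hA'
    have := hB A hA
    omega
  rw [card_union_of_disjoint hdisj]
  have h2 := card_sdiff_add_card_eq_card hsub
  rw [card_powersetCard, card_univ] at h2
  omega

/-- If every member of `𝓑` contains at least `e` members of `H0` and every member of `H0` lies in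
at most one member of `𝓑`, then `e * |anti|` is at most `e * C(n,l) - (e-1) * |H0 ∩ shadow|`. -/
lemma card_anti_le {l e : ℕ} (he : 1 ≤ e) {𝓑 H0 : Finset (Finset α)}
    (hB : ∀ Q ∈ 𝓑, Q.card = l + 1)
    (hH : ∀ S ∈ H0, S.card = l)
    (h1 : ∀ Q ∈ 𝓑, e ≤ (H0.filter (fun S => S ⊆ Q)).card)
    (h2 : ∀ S ∈ H0, (𝓑.filter (fun Q => S ⊆ Q)).card ≤ 1)
    {D : ℕ} (hD : D ≤ (H0.filter (fun S => ∃ Q ∈ 𝓑, S ⊆ Q)).card) :
    e * (anti l 𝓑).card + (e - 1) * D ≤ e * (Fintype.card α).choose l := by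
  classical
  set D0 := (H0.filter (fun S => ∃ Q ∈ 𝓑, S ⊆ Q)) with hD0
  have hsub : D0 ⊆ shad l 𝓑 := by
    intro S hS
    rw [hD0, mem_filter] at hS
    exact mem_shad.2 ⟨hH S hS.1, hS.2⟩
  have h3 : D0.card ≤ (shad l 𝓑).card := card_le_card hsub
  have h4 : 𝓑.card * e ≤ D0.card * 1 := by
    apply card_mul_le_card_mul (fun (Q S : Finset α) => S ⊆ Q)
    · intro Q hQ
      refine (h1 Q hQ).trans (card_le_card ?_)
      intro S hS
      rw [mem_filter] at hS
      rw [mem_bipartiteAbove, hD0, mem_filter]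
      exact ⟨⟨hS.1, Q, hQ, hS.2⟩, hS.2⟩
    · intro S hS
      rw [hD0, mem_filter] at hS
      refine le_trans (card_le_card ?_) (h2 S hS.1)
      intro Q hQ
      rw [mem_bipartiteBelow] at hQ
      rw [mem_filter]
      exact hQ
  have h5 := card_anti (l := l) hB
  obtain ⟨f, rfl⟩ : ∃ f, e = f + 1 := ⟨e - 1, by omega⟩
  rw [Nat.add_sub_cancel]
  have h6 : (anti l 𝓑).card ≤ 𝓑.card + (Fintype.card α).choose l := by omega
  have h7 : f * D ≤ f * (shad l 𝓑).card := Nat.mul_le_mul_left _ (hD.trans h3)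
  have h8 : (f + 1) * ((anti l 𝓑).card + (shad l 𝓑).card) =
      (f + 1) * (𝓑.card + (Fintype.card α).choose l) := by rw [h5]
  have h9 : (f + 1) * 𝓑.card ≤ (shad l 𝓑).card := by
    have := h4.trans (by omega : D0.card * 1 ≤ (shad l 𝓑).card)
    rw [Nat.mul_comm]; exact this
  nlinarith

/-- Transfer of flat maximal antichains along a bijection. -/
lemma IsFlatMax.map {β : Type} [DecidableEq β] [Fintype β] (φ : α ≃ β) {l : ℕ}
    {𝒜 : Finset (Finset α)} (h : IsFlatMax l 𝒜) :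
    IsFlatMax l (𝒜.image (fun A => A.map φ.toEmbedding)) ∧
      (𝒜.image (fun A => A.map φ.toEmbedding)).card = 𝒜.card := by
  obtain ⟨h1, h2, h3⟩ := h
  refine ⟨⟨?_, ?_, ?_⟩, ?_⟩
  · intro A hA
    rw [mem_image] at hA
    obtain ⟨A', hA', rfl⟩ := hA
    rw [card_map]
    exact h1 A' hA'
  · intro A hA B hB hAB
    rw [mem_image] at hA hB
    obtain ⟨A', hA', rfl⟩ := hA
    obtain ⟨B', hB', rfl⟩ := hB
    rw [map_subset_map] at hAB
    rw [h2 A' hA' B' hB' hAB]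
  · intro S
    obtain ⟨A, hA, hAS⟩ := h3 (S.map φ.symm.toEmbedding)
    refine ⟨A.map φ.toEmbedding, mem_image_of_mem _ hA, ?_⟩
    have hS : (S.map φ.symm.toEmbedding).map φ.toEmbedding = S := by
      rw [map_map]
      convert map_refl
      ext x
      simp
    rcases hAS with h | h
    · left
      rw [← hS]
      exact map_subset_map.2 h
    · right
      rw [← hS]
      exact map_subset_map.2 h
  · apply card_image_of_injective
    exact map_injective _

end Pool.Agent.TH481
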