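import Mathlib
import Pool.Agent.TH481.Flat

set_option autoImplicit false
set_option linter.unusedSectionVars false

/-!
Flat maximal antichains from a Turán system on a finite set of types.
-/

namespace Pool.Agent.TH481.Gen

open Finset

variable {K : Type} [DecidableEq K] [Fintype K] {q s : ℕ} [NeZero q]

/-- vertices: `q` labelled copies of each type, and `s` leftover vertices -/
abbrev Vx (K : Type) (q s : ℕ) := (K × ZMod q) ⊕ Fin s

/-- the graph of `f` over `C` -/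
def gr (s : ℕ) (C : Finset K) (f : K → ZMod q) : Finset (Vx K q s) :=
  C.map ⟨fun i => Sum.inl (i, f i), fun i j h => by simpa using (Prod.ext_iff.1 (Sum.inl.inj h)).1⟩

lemma mem_gr {C : Finset K} {f : K → ZMod q} {v : Vx K q s} :
    v ∈ gr s C f ↔ ∃ i ∈ C, v = Sum.inl (i, f i) := by
  unfold gr
  rw [mem_map]
  constructor
  · rintro ⟨i, hi, rfl⟩; exact ⟨i, hi, rfl⟩
  · rintro ⟨i, hi, rfl⟩; exact ⟨i, hi, rfl⟩

lemma card_gr (C : Finset K) (f : K → ZMod q) : (gr s C f).card = C.card := card_map _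

lemma inl_mem_gr {C : Finset K} {f : K → ZMod q} {i : K} {a : ZMod q} :
    (Sum.inl (i, a) : Vx K q s) ∈ gr s C f ↔ i ∈ C ∧ f i = a := by
  rw [mem_gr]
  constructor
  · rintro ⟨j, hj, h⟩
    have h1 := Prod.ext_iff.1 (Sum.inl.inj h)
    simp only at h1
    obtain ⟨rfl, rfl⟩ := h1
    exact ⟨hj, rfl⟩
  · rintro ⟨hi, rfl⟩; exact ⟨i, hi, rfl⟩

lemma gr_subset_gr {C C' : Finset K} {f f' : K → ZMod q} :
    gr s C f ⊆ gr s C' f' ↔ C ⊆ C' ∧ ∀ i ∈ C, f i = f' i := by
  constructor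
  · intro h
    have h1 : ∀ i ∈ C, i ∈ C' ∧ f' i = f i := by
      intro i hi
      have := h (mem_gr.2 ⟨i, hi, rfl⟩)
      exact inl_mem_gr.1 this
    exact ⟨fun i hi => (h1 i hi).1, fun i hi => (h1 i hi).2.symm⟩
  · rintro ⟨h1, h2⟩ v hv
    obtain ⟨i, hi, rfl⟩ := mem_gr.1 hv
    exact inl_mem_gr.2 ⟨h1 hi, (h2 i hi).symm⟩

lemma gr_congr {C : Finset K} {f f' : K → ZMod q} (h : ∀ i ∈ C, f i = f' i) :
    gr s C f = gr s C f' :=
  Subset.antisymm (gr_subset_gr.2 ⟨Subset.refl _, h⟩)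
    (gr_subset_gr.2 ⟨Subset.refl _, fun i hi => (h i hi).symm⟩)

lemma gr_inj {C C' : Finset K} {f f' : K → ZMod q} (h : gr s C f = gr s C' f') :
    C = C' ∧ ∀ i ∈ C, f i = f' i := by
  have h1 := gr_subset_gr.1 h.le
  have h2 := gr_subset_gr.1 h.ge
  exact ⟨Subset.antisymm h1.1 h2.1, h1.2⟩

/-- a subset of a graph is a graph -/
lemma exists_gr_of_subset {C : Finset K} {f : K → ZMod q} {S : Finset (Vx K q s)}
    (h : S ⊆ gr s C f) : ∃ D ⊆ C, S = gr s D f := by
  refine ⟨C.filter (fun i => (Sum.inl (i, f i) : Vx K q s) ∈ S), filter_subset _ _, ?_⟩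
  ext v
  rw [mem_gr]
  constructor
  · intro hv
    obtain ⟨i, hi, rfl⟩ := mem_gr.1 (h hv)
    exact ⟨i, mem_filter.2 ⟨hi, hv⟩, rfl⟩
  · rintro ⟨i, hi, rfl⟩
    exact (mem_filter.1 hi).2

/-- functions supported on `C` -/
def Fs (q : ℕ) [NeZero q] (C : Finset K) : Finset (K → ZMod q) :=
  Fintype.piFinset (fun i => if i ∈ C then univ else {0})

lemma mem_Fs {C : Finset K} {f : K → ZMod q} : f ∈ Fs q C ↔ ∀ i, i ∉ C → f i = 0 := by
  unfold Fs
  rw [Fintype.mem_piFinset]
  constructor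
  · intro h i hi
    have := h i
    rw [if_neg hi, mem_singleton] at this
    exact this
  · intro h i
    by_cases hi : i ∈ C
    · rw [if_pos hi]; exact mem_univ _
    · rw [if_neg hi, mem_singleton]; exact h i hi

lemma card_Fs (C : Finset K) : (Fs q C).card = q ^ C.card := by
  unfold Fs
  rw [Fintype.card_piFinset]
  have : ∀ i : K, (if i ∈ C then (univ : Finset (ZMod q)) else {0}).card =
      if i ∈ C then q else 1 := by
    intro i
    split_ifs
    · rw [card_univ, ZMod.card]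
    · rw [card_singleton]
  rw [prod_congr rfl (fun i _ => this i), prod_ite, prod_const, prod_const_one, mul_one]
  congr 2
  ext i
  simp

/-- restriction of a function to `C` -/
def rs (C : Finset K) (f : K → ZMod q) : K → ZMod q := fun i => if i ∈ C then f i else 0

lemma rs_mem (C : Finset K) (f : K → ZMod q) : rs C f ∈ Fs q C := by
  rw [mem_Fs]
  intro i hi
  unfold rs
  rw [if_neg hi]

lemma rs_eq {C : Finset K} (f : K → ZMod q) {i : K} (hi : i ∈ C) : rs C f i = f i := by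
  unfold rs; rw [if_pos hi]

/-- counting the solutions of one equation -/
lemma count_one {C Z : Finset K} (hZ : Z ⊆ C) (hne : Z.Nonempty) (w : ZMod q) :
    ((Fs q C).filter (fun f => ∑ i ∈ Z, f i = w)).card ≤ q ^ (C.card - 1) := by
  obtain ⟨j, hj⟩ := hne
  rw [← card_erase_of_mem (hZ hj), ← card_Fs]
  apply card_le_card_of_injOn (fun f => Function.update f j 0)
  · intro f hf
    rw [mem_coe, mem_filter, mem_Fs] at hf
    rw [mem_coe, mem_Fs]
    intro i hi
    simp only [Function.update_apply]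
    split_ifs with h
    · rfl
    · apply hf.1
      intro h'
      exact hi (mem_erase.2 ⟨h, h'⟩)
  · intro f hf g hg hfg
    rw [mem_coe, mem_filter] at hf hg
    have h1 : ∀ i, i ≠ j → f i = g i := by
      intro i hi
      have := congrFun hfg i
      simpa [Function.update_apply, hi] using this
    have h2 : ∑ i ∈ Z.erase j, f i = ∑ i ∈ Z.erase j, g i :=
      sum_congr rfl (fun i hi => h1 i (ne_of_mem_erase hi))
    have h3 := hf.2.trans hg.2.symm
    rw [← add_sum_erase Z f hj, ← add_sum_erase Z g hj, h2] at h3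
    funext i
    by_cases hi : i = j
    · rw [hi]; exact add_right_cancel h3
    · exact h1 i hi

/-- counting the solutions of two equations -/
lemma count_two {C Z Z' : Finset K} (hZ : Z ⊆ C) (hZ' : Z' ⊆ C) (hne' : Z'.Nonempty)
    (w w' : ZMod q) {i0 : K} (h0 : i0 ∈ Z) (h0' : i0 ∉ Z') :
    ((Fs q C).filter (fun f => ∑ i ∈ Z, f i = w ∧ ∑ i ∈ Z', f i = w')).card ≤
      q ^ (C.card - 2) := by
  obtain ⟨j, hj⟩ := hne'
  have hij : i0 ≠ j := fun h => h0' (h ▸ hj)
  have hc : ((C.erase i0).erase j).card = C.card - 2 := by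
    rw [card_erase_of_mem (mem_erase.2 ⟨hij.symm, hZ' hj⟩), card_erase_of_mem (hZ h0)]
    omega
  rw [← hc, ← card_Fs]
  apply card_le_card_of_injOn (fun f => Function.update (Function.update f i0 0) j 0)
  · intro f hf
    rw [mem_coe, mem_filter, mem_Fs] at hf
    rw [mem_coe, mem_Fs]
    intro i hi
    simp only [Function.update_apply]
    split_ifs with h h2
    · rfl
    · rfl
    · apply hf.1
      intro h'
      exact hi (mem_erase.2 ⟨h, mem_erase.2 ⟨h2, h'⟩⟩)
  · intro f hf g hg hfg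
    rw [mem_coe, mem_filter] at hf hg
    have h1 : ∀ i, i ≠ i0 → i ≠ j → f i = g i := by
      intro i hi hi'
      have := congrFun hfg i
      simpa [Function.update_apply, hi, hi'] using this
    have h2 : ∑ i ∈ Z'.erase j, f i = ∑ i ∈ Z'.erase j, g i :=
      sum_congr rfl (fun i hi => h1 i (fun h => h0' (h ▸ mem_of_mem_erase hi))
        (ne_of_mem_erase hi))
    have h3 := hf.2.2.trans hg.2.2.symm
    rw [← add_sum_erase Z' f hj, ← add_sum_erase Z' g hj, h2] at h3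
    have h4 : f j = g j := add_right_cancel h3
    have h5 : ∑ i ∈ Z.erase i0, f i = ∑ i ∈ Z.erase i0, g i := by
      apply sum_congr rfl
      intro i hi
      by_cases hij' : i = j
      · rw [hij']; exact h4
      · exact h1 i (ne_of_mem_erase hi) hij'
    have h6 := hf.2.1.trans hg.2.1.symm
    rw [← add_sum_erase Z f h0, ← add_sum_erase Z g h0, h5] at h6
    have h7 : f i0 = g i0 := add_right_cancel h6
    funext i
    by_cases hi : i = i0
    · rw [hi]; exact h7
    · by_cases hi' : i = j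
      · rw [hi']; exact h4
      · exact h1 i hi hi'

lemma count_two' {C Z Z' : Finset K} (hZ : Z ⊆ C) (hZ' : Z' ⊆ C) (hne : Z.Nonempty)
    (hne' : Z'.Nonempty) (w w' : ZMod q) (hd : Z = Z' → w ≠ w') :
    ((Fs q C).filter (fun f => ∑ i ∈ Z, f i = w ∧ ∑ i ∈ Z', f i = w')).card ≤
      q ^ (C.card - 2) := by
  by_cases h : Z = Z'
  · subst h
    have : ((Fs q C).filter (fun f => ∑ i ∈ Z, f i = w ∧ ∑ i ∈ Z, f i = w')) = ∅ := by
      apply filter_false_of_mem
      rintro f _ ⟨h1, h2⟩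
      exact hd rfl (h1.symm.trans h2)
    rw [this, card_empty]
    exact Nat.zero_le _
  · by_cases h1 : Z ⊆ Z'
    · have : ¬ Z' ⊆ Z := fun h2 => h (Subset.antisymm h1 h2)
      obtain ⟨i0, hi, hi'⟩ := not_subset.1 this
      have := count_two hZ' hZ hne w' w hi hi'
      refine le_trans (card_le_card ?_) this
      intro f hf
      rw [mem_filter] at hf ⊢
      exact ⟨hf.1, hf.2.2, hf.2.1⟩
    · obtain ⟨i0, hi, hi'⟩ := not_subset.1 h1
      exact count_two hZ hZ' hne' w w' hi hi'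

/-- The data on the level of types. -/
structure Data (K : Type) [DecidableEq K] [Fintype K] (l : ℕ) where
  /-- the Turán system -/
  G : Finset (Finset K)
  /-- the blocks -/
  𝒞 : Finset (Finset K)
  /-- the free elements of a block -/
  Fr : Finset K → Finset K
  hl : 2 ≤ l
  h1 : ∀ C ∈ 𝒞, C.card = l + 1
  h2 : ∀ C ∈ 𝒞, 2 ≤ (Fr C).card
  h2' : ∀ C ∈ 𝒞, Fr C ⊆ C
  h3 : ∀ C ∈ 𝒞, (C \ Fr C).Nonempty
  h4 : ∀ C : Finset K, C.card = l + 1 → ∃ i ∈ C, C.erase i ∈ G
  h5 : ∀ C ∈ 𝒞, ∀ i ∈ C, C.erase i ∈ G → i ∈ Fr C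

variable {l : ℕ}

/-- types of covered sets -/
def Data.good (d : Data K l) : Finset (Finset K) :=
  (powersetCard l univ).filter (fun D => ∃ C ∈ d.𝒞, ∃ j ∈ C \ d.Fr C, D = C.erase j)

/-- the blocks of `B` -/
def Data.Bl (d : Data K l) (ω : Finset K → ZMod q) (C : Finset K) (f : K → ZMod q) : Prop :=
  C ∈ d.𝒞 ∧ ∑ i ∈ C \ d.Fr C, f i = ω C

/-- unexceptional blocks -/
def Data.Un (d : Data K l) (ω : Finset K → ZMod q) (C : Finset K) (f : K → ZMod q) : Prop :=
  ∀ C' ∈ d.𝒞, C' ≠ C → C' \ d.Fr C' ⊆ C → ∑ i ∈ C' \ d.Fr C', f i ≠ ω C'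

open Classical in
/-- the family `B` -/
noncomputable def Data.B (d : Data K l) (ω : Finset K → ZMod q) (s : ℕ) :
    Finset (Finset (Vx K q s)) :=
  univ.filter (fun Q => ∃ C f, d.Bl ω C f ∧ Q = gr s C f)

open Classical in
/-- the family `B` without the exceptional sets -/
noncomputable def Data.B1 (d : Data K l) (ω : Finset K → ZMod q) (s : ℕ) :
    Finset (Finset (Vx K q s)) :=
  univ.filter (fun Q => ∃ C f, d.Bl ω C f ∧ d.Un ω C f ∧ Q = gr s C f)

open Classical in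
/-- its completion -/
noncomputable def Data.Bs (d : Data K l) (ω : Finset K → ZMod q) (s : ℕ) :
    Finset (Finset (Vx K q s)) :=
  (powersetCard (l + 1) univ).filter (fun Q => ∀ S ⊆ Q, S.card = l → S ∈ shad l (d.B1 ω s))

lemma mem_B1_shad {d : Data K l} {ω : Finset K → ZMod q} {S : Finset (Vx K q s)}
    (h : S ∈ shad l (d.B1 ω s)) : ∃ C f, d.Bl ω C f ∧ d.Un ω C f ∧ S ⊆ gr s C f := by
  classical
  obtain ⟨_, Q, hQ, hSQ⟩ := mem_shad.1 h
  unfold Data.B1 at hQ
  rw [mem_filter] at hQ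
  obtain ⟨_, C, f, h1, h2, rfl⟩ := hQ
  exact ⟨C, f, h1, h2, hSQ⟩

/-- Sets all of whose `l`-subsets are covered are graphs. -/
lemma exists_gr {d : Data K l} {ω : Finset K → ZMod q} {Q : Finset (Vx K q s)}
    (hc : Q.card = l + 1) (h : ∀ S ⊆ Q, S.card = l → S ∈ shad l (d.B1 ω s)) :
    ∃ C f, Q = gr s C f := by
  have hl := d.hl
  -- pairs of distinct elements have distinct types
  have hpair : ∀ v ∈ Q, ∀ w ∈ Q, ∃ C f, v ∈ gr s C f ∧ w ∈ (gr s C f : Finset (Vx K q s)) := by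
    intro v hv w hw
    obtain ⟨u, hu, huv, huw⟩ : ∃ u ∈ Q, u ≠ v ∧ u ≠ w := by
      by_contra hcon
      push Not at hcon
      have : Q ⊆ {v, w} := by
        intro u hu
        rw [mem_insert, mem_singleton]
        by_cases h1 : u = v
        · left; exact h1
        · right; exact hcon u hu h1
      have := card_le_card this
      have h2 : ({v, w} : Finset (Vx K q s)).card ≤ 2 := card_le_two
      omega
    obtain ⟨C, f, _, _, hS⟩ := mem_B1_shad (h (Q.erase u) (erase_subset _ _)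
      (by rw [card_erase_of_mem hu, hc]; rfl))
    exact ⟨C, f, hS (mem_erase.2 ⟨huv.symm, hv⟩), hS (mem_erase.2 ⟨huw.symm, hw⟩)⟩
  obtain ⟨x, hx⟩ : Q.Nonempty := card_pos.1 (by omega)
  obtain ⟨C, f, _, _, hS⟩ := mem_B1_shad (h (Q.erase x) (erase_subset _ _)
      (by rw [card_erase_of_mem hx, hc]; rfl))
  obtain ⟨D, _, hD⟩ := exists_gr_of_subset hS
  obtain ⟨C', f', hx', _⟩ := hpair x hx x hx
  obtain ⟨i, _, rfl⟩ := mem_gr.1 hx'
  have hiD : i ∉ D := by
    intro hi
    have h1 : (Sum.inl (i, f i) : Vx K q s) ∈ gr s D f := inl_mem_gr.2 ⟨hi, rfl⟩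
    rw [← hD, mem_erase] at h1
    obtain ⟨C'', f'', h2, h3⟩ := hpair _ hx _ h1.2
    rw [inl_mem_gr] at h2 h3
    apply h1.1
    rw [← h2.2, ← h3.2]
  refine ⟨insert i D, Function.update f i (f' i), ?_⟩
  rw [← insert_erase hx, hD]
  ext v
  rw [mem_insert, mem_gr, mem_gr]
  constructor
  · rintro (rfl | ⟨j, hj, rfl⟩)
    · exact ⟨i, mem_insert_self _ _, by rw [Function.update_self]⟩
    · refine ⟨j, mem_insert_of_mem hj, ?_⟩
      rw [Function.update_of_ne]
      rintro rfl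
      exact hiD hj
  · rintro ⟨j, hj, rfl⟩
    rw [mem_insert] at hj
    rcases hj with rfl | hj
    · left; rw [Function.update_self]
    · right
      refine ⟨j, hj, ?_⟩
      rw [Function.update_of_ne]
      rintro rfl
      exact hiD hj

/-- covering sets of `gr (C.erase i) f` -/
lemma cover {d : Data K l} {ω : Finset K → ZMod q} {C : Finset K} {f : K → ZMod q}
    (hc : C.card = l + 1) (h : ∀ S ⊆ gr s C f, S.card = l → S ∈ shad l (d.B1 ω s))
    {i : K} (hi : i ∈ C) :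
    ∃ C' f', d.Bl ω C' f' ∧ d.Un ω C' f' ∧ C.erase i ⊆ C' ∧ (∀ j ∈ C.erase i, f j = f' j) ∧
      ∃ i' ∉ C.erase i, C' = insert i' (C.erase i) := by
  have h1 := mem_B1_shad (h (gr s (C.erase i) f)
    (gr_subset_gr.2 ⟨erase_subset _ _, fun _ _ => rfl⟩)
    (by rw [card_gr, card_erase_of_mem hi, hc]; rfl))
  obtain ⟨C', f', hb, hu, hs⟩ := h1
  obtain ⟨h2, h3⟩ := gr_subset_gr.1 hs
  refine ⟨C', f', hb, hu, h2, h3, ?_⟩
  have h4 : (C' \ C.erase i).card = 1 := by
    rw [card_sdiff_of_subset h2, d.h1 C' hb.1, card_erase_of_mem hi, hc]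
    omega
  obtain ⟨i', hi'⟩ := card_eq_one.1 h4
  have h5 : i' ∈ C' \ C.erase i := by rw [hi']; exact mem_singleton_self _
  rw [mem_sdiff] at h5
  refine ⟨i', h5.2, ?_⟩
  rw [← sdiff_union_of_subset h2, hi']
  rfl

/-- The completion is contained in `B`. -/
lemma Bs_subset (d : Data K l) (ω : Finset K → ZMod q) : d.Bs ω s ⊆ d.B ω s := by
  classical
  intro Q hQ
  unfold Data.Bs at hQ
  rw [mem_filter, mem_powersetCard] at hQ
  obtain ⟨⟨_, hc⟩, h⟩ := hQ
  obtain ⟨C, f, rfl⟩ := exists_gr hc h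
  rw [card_gr] at hc
  obtain ⟨i1, hi1, hG⟩ := d.h4 C hc
  obtain ⟨C', f', hb', hu', hsub', hf', i, hi, hC'⟩ := cover hc h hi1
  have hiC' : i ∈ C' := by rw [hC']; exact mem_insert_self _ _
  have hie : C'.erase i = C.erase i1 := by rw [hC', erase_insert hi]
  have hiF : i ∈ d.Fr C' := d.h5 C' hb'.1 i hiC' (by rw [hie]; exact hG)
  obtain ⟨i2, hi2, hne2⟩ : ∃ i2 ∈ d.Fr C', i2 ≠ i := by
    have := d.h2 C' hb'.1
    obtain ⟨a, ha, b, hb, hab⟩ := one_lt_card.1 (by omega : 1 < (d.Fr C').card)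
    by_cases h' : a = i
    · exact ⟨b, hb, fun h'' => hab (h'.trans h''.symm)⟩
    · exact ⟨a, ha, h'⟩
  have hi2C' : i2 ∈ C' := d.h2' C' hb'.1 hi2
  have hi2C1 : i2 ∈ C.erase i1 := by rw [← hie]; exact mem_erase.2 ⟨hne2, hi2C'⟩
  have hi2C : i2 ∈ C := mem_of_mem_erase hi2C1
  obtain ⟨C'', f'', hb'', hu'', hsub'', hf'', i'', hi'', hC''⟩ := cover hc h hi2C
  have hZ : ∀ k ∈ C' \ d.Fr C', k ∈ C.erase i1 ∧ k ∈ C.erase i2 := by
    intro k hk
    rw [mem_sdiff] at hk
    have hki : k ≠ i := fun h' => hk.2 (h' ▸ hiF)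
    have hki2 : k ≠ i2 := fun h' => hk.2 (h' ▸ hi2)
    have h1 : k ∈ C.erase i1 := by rw [← hie]; exact mem_erase.2 ⟨hki, hk.1⟩
    exact ⟨h1, mem_erase.2 ⟨hki2, mem_of_mem_erase h1⟩⟩
  have hsum : ∑ k ∈ C' \ d.Fr C', f k = ω C' := by
    rw [← hb'.2]
    exact sum_congr rfl (fun k hk => hf' k (hZ k hk).1)
  by_cases heq : C' = C''
  · -- same type
    have h1 : i2 ∈ C'' := heq ▸ hi2C'
    have h2 : i'' = i2 := by
      rw [hC'', mem_insert] at h1
      rcases h1 with h1 | h1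
      · exact h1.symm
      · exact absurd h1 (notMem_erase _ _)
    have h3 : C'' = C := by rw [hC'', h2, insert_erase hi2C]
    have h4 : C' = C := heq.trans h3
    unfold Data.B
    rw [mem_filter]
    refine ⟨mem_univ _, C, f, ⟨h4 ▸ hb'.1, ?_⟩, rfl⟩
    rw [h4] at hsum
    exact hsum
  · exfalso
    apply hu'' C' hb'.1 heq
    · intro k hk
      exact hsub'' (hZ k hk).2
    · rw [← hsum]
      exact sum_congr rfl (fun k hk => (hf'' k (hZ k hk).2).symm)

lemma B1_subset (d : Data K l) (ω : Finset K → ZMod q) : d.B1 ω s ⊆ d.Bs ω s := by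
  classical
  intro Q hQ
  have hQ' := hQ
  unfold Data.B1 at hQ
  rw [mem_filter] at hQ
  obtain ⟨_, C, f, h1, h2, rfl⟩ := hQ
  unfold Data.Bs
  rw [mem_filter, mem_powersetCard]
  refine ⟨⟨subset_univ _, by rw [card_gr, d.h1 C h1.1]⟩, ?_⟩
  intro S hS hc
  exact mem_shad.2 ⟨hc, _, hQ', hS⟩

lemma card_B (d : Data K l) (ω : Finset K → ZMod q) :
    (d.B ω s).card ≤ d.𝒞.card * q ^ l := by
  classical
  have hsub : d.B ω s ⊆ d.𝒞.biUnion (fun C =>
      ((Fs q C).filter (fun f => ∑ i ∈ C \ d.Fr C, f i = ω C)).image (gr s C)) := by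
    intro Q hQ
    unfold Data.B at hQ
    rw [mem_filter] at hQ
    obtain ⟨_, C, f, hb, rfl⟩ := hQ
    rw [mem_biUnion]
    refine ⟨C, hb.1, ?_⟩
    rw [mem_image]
    refine ⟨rs C f, ?_, gr_congr (fun i hi => rs_eq f hi)⟩
    rw [mem_filter]
    refine ⟨rs_mem C f, ?_⟩
    rw [← hb.2]
    exact sum_congr rfl (fun i hi => rs_eq f (mem_sdiff.1 hi).1)
  refine (card_le_card hsub).trans (card_biUnion_le.trans ?_)
  refine (sum_le_card_nsmul _ _ (q ^ l) ?_).trans (by rw [smul_eq_mul])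
  intro C hC
  refine card_image_le.trans ?_
  have := count_one (q := q) (C := C) (Z := C \ d.Fr C) sdiff_subset (d.h3 C hC) (ω C)
  rw [d.h1 C hC] at this
  exact this

/-- the covered sets -/
lemma card_shad (d : Data K l) (ω : Finset K → ZMod q) (hω : ∀ C ∈ d.𝒞, ∀ C' ∈ d.𝒞, C ≠ C' →
    ω C ≠ ω C') :
    d.good.card * q ^ l ≤ (shad l (d.B1 ω s)).card + d.𝒞.card * d.𝒞.card * ((l + 1) * q ^ (l - 1)) := by
  classical
  set E : Finset (Finset (Vx K q s)) := (d.𝒞 ×ˢ d.𝒞).biUnion (fun p =>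
    if p.2 ≠ p.1 ∧ p.2 \ d.Fr p.2 ⊆ p.1 then
      (p.1 ×ˢ ((Fs q p.1).filter (fun f => ∑ i ∈ p.1 \ d.Fr p.1, f i = ω p.1 ∧
        ∑ i ∈ p.2 \ d.Fr p.2, f i = ω p.2))).image (fun r => gr s (p.1.erase r.1) r.2) else ∅)
    with hE
  have hEc : E.card ≤ d.𝒞.card * d.𝒞.card * ((l + 1) * q ^ (l - 1)) := by
    refine card_biUnion_le.trans ?_
    refine (sum_le_card_nsmul _ _ ((l + 1) * q ^ (l - 1)) ?_).trans
      (by rw [smul_eq_mul, card_product])
    intro p hp
    rw [mem_product] at hp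
    split_ifs with h
    · refine card_image_le.trans ?_
      rw [card_product, d.h1 _ hp.1]
      refine Nat.mul_le_mul_left _ ?_
      have := count_two' (q := q) (C := p.1) (Z := p.1 \ d.Fr p.1) (Z' := p.2 \ d.Fr p.2)
        sdiff_subset h.2 (d.h3 _ hp.1) (d.h3 _ hp.2) (ω p.1) (ω p.2)
        (fun _ => hω _ hp.1 _ hp.2 h.1.symm)
      rw [d.h1 _ hp.1] at this
      exact this
    · rw [card_empty]; exact Nat.zero_le _
  have hcount : d.good.card * q ^ l ≤
      (d.good.biUnion (fun D => (Fs q D).image (gr s D))).card := by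
    rw [card_biUnion]
    · have : ∀ D ∈ d.good, q ^ l ≤ ((Fs q D).image (gr s D)).card := by
        intro D hD
        unfold Data.good at hD
        rw [mem_filter, mem_powersetCard] at hD
        rw [card_image_of_injOn, card_Fs, hD.1.2]
        intro f hf g hg hfg
        rw [mem_coe, mem_Fs] at hf hg
        funext i
        by_cases hi : i ∈ D
        · exact (gr_inj hfg).2 i hi
        · rw [hf i hi, hg i hi]
      have h2 := card_nsmul_le_sum d.good _ _ this
      rw [smul_eq_mul] at h2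
      exact h2
    · intro D _ D' _ hne
      rw [Function.onFun, disjoint_left]
      intro S hS hS'
      rw [mem_image] at hS hS'
      obtain ⟨f, _, rfl⟩ := hS
      obtain ⟨g, _, hg⟩ := hS'
      exact hne (gr_inj hg).1.symm
  refine hcount.trans ((card_le_card ?_).trans ((card_union_le _ E).trans
    (Nat.add_le_add_left hEc _)))
  intro S hS
  rw [mem_biUnion] at hS
  obtain ⟨D, hD, hS⟩ := hS
  unfold Data.good at hD
  rw [mem_filter, mem_powersetCard] at hD
  obtain ⟨⟨_, hDc⟩, C, hC, j, hj, rfl⟩ := hD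
  rw [mem_image] at hS
  obtain ⟨f, _, rfl⟩ := hS
  rw [mem_sdiff] at hj
  set f' : K → ZMod q := Function.update f j (ω C - ∑ i ∈ (C \ d.Fr C).erase j, f i) with hf'
  have hjZ : j ∈ C \ d.Fr C := mem_sdiff.2 hj
  have hsum : ∑ i ∈ C \ d.Fr C, f' i = ω C := by
    rw [← add_sum_erase _ _ hjZ]
    have : ∑ i ∈ (C \ d.Fr C).erase j, f' i = ∑ i ∈ (C \ d.Fr C).erase j, f i := by
      apply sum_congr rfl
      intro i hi
      rw [hf', Function.update_of_ne (ne_of_mem_erase hi)]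
    rw [this, hf', Function.update_self]
    ring
  have hgr : gr s (C.erase j) f = gr s (C.erase j) f' := by
    apply gr_congr
    intro i hi
    rw [hf', Function.update_of_ne (ne_of_mem_erase hi)]
  rw [mem_union]
  by_cases hU : d.Un ω C f'
  · left
    rw [mem_shad]
    refine ⟨by rw [card_gr, hDc], gr s C f', ?_, ?_⟩
    · unfold Data.B1
      rw [mem_filter]
      exact ⟨mem_univ _, C, f', ⟨hC, hsum⟩, hU, rfl⟩
    · rw [hgr]
      exact gr_subset_gr.2 ⟨erase_subset _ _, fun _ _ => rfl⟩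
  · right
    unfold Data.Un at hU
    push Not at hU
    obtain ⟨C', hC', hne, hsub, hs'⟩ := hU
    rw [hE, mem_biUnion]
    refine ⟨(C, C'), mem_product.2 ⟨hC, hC'⟩, ?_⟩
    rw [if_pos ⟨hne, hsub⟩, mem_image]
    refine ⟨(j, rs C f'), ?_, ?_⟩
    · rw [mem_product, mem_filter]
      refine ⟨hj.1, rs_mem _ _, ?_, ?_⟩
      · rw [← hsum]
        exact sum_congr rfl (fun i hi => rs_eq f' (mem_sdiff.1 hi).1)
      · rw [← hs']
        exact sum_congr rfl (fun i hi => rs_eq f' (hsub hi))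
    · rw [hgr]
      apply gr_congr
      intro i hi
      exact rs_eq f' (mem_of_mem_erase hi)

lemma card_Vx : Fintype.card (Vx K q s) = Fintype.card K * q + s := by
  rw [Fintype.card_sum, Fintype.card_prod, ZMod.card, Fintype.card_fin]

/-- The construction. -/
theorem main (d : Data K l) (hq : d.𝒞.card ≤ q) (hn : l + 1 ≤ Fintype.card K * q + s) :
    ∃ 𝒜 : Finset (Finset (Vx K q s)), IsFlatMax l 𝒜 ∧
      𝒜.card + d.good.card * q ^ l ≤ d.𝒞.card * q ^ l + (Fintype.card K * q + s).choose l +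
        d.𝒞.card * d.𝒞.card * ((l + 1) * q ^ (l - 1)) := by
  classical
  obtain ⟨ω, hω⟩ : ∃ ω : Finset K → ZMod q, ∀ C ∈ d.𝒞, ∀ C' ∈ d.𝒞, C ≠ C' → ω C ≠ ω C' := by
    have h1 : Fintype.card d.𝒞 ≤ Fintype.card (ZMod q) := by
      rw [Fintype.card_coe, ZMod.card]; exact hq
    obtain ⟨e⟩ := Function.Embedding.nonempty_of_card_le h1
    refine ⟨fun C => if h : C ∈ d.𝒞 then e ⟨C, h⟩ else 0, ?_⟩
    intro C hC C' hC' hne
    simp only [dif_pos hC, dif_pos hC']
    intro h
    exact hne (Subtype.ext_iff.1 (e.injective h))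
  have hmem : ∀ Q ∈ d.Bs ω s, Q.card = l + 1 := by
    intro Q hQ
    unfold Data.Bs at hQ
    exact (mem_powersetCard.1 (mem_filter.1 hQ).1).2
  have hsh : ∀ S, S ∈ shad l (d.Bs ω s) → S ∈ shad l (d.B1 ω s) := by
    intro S hS
    obtain ⟨hc, Q, hQ, hSQ⟩ := mem_shad.1 hS
    unfold Data.Bs at hQ
    exact (mem_filter.1 hQ).2 S hSQ hc
  refine ⟨anti l (d.Bs ω s), isFlatMax_anti (by rw [card_Vx]; exact hn) hmem ?_, ?_⟩
  · intro Q hQ h
    unfold Data.Bs
    rw [mem_filter, mem_powersetCard]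
    exact ⟨⟨subset_univ _, hQ⟩, fun S hS hc => hsh S (h S hS hc)⟩
  · have h1 := card_anti (l := l) hmem
    rw [card_Vx] at h1
    have h2 : (d.Bs ω s).card ≤ d.𝒞.card * q ^ l :=
      (card_le_card (Bs_subset d ω)).trans (card_B d ω)
    have h3 := card_shad (s := s) d ω hω
    have h4 : (shad l (d.B1 ω s)).card ≤ (shad l (d.Bs ω s)).card := by
      apply card_le_card
      intro S hS
      obtain ⟨hc, Q, hQ, hSQ⟩ := mem_shad.1 hS
      exact mem_shad.2 ⟨hc, Q, B1_subset d ω hQ, hSQ⟩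
    omega

end Pool.Agent.TH481.Gen
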