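import Mathlib
import Pool.Agent.TH481.Flat

set_option autoImplicit false

/-!
A construction of flat maximal antichains on the levels `l` and `l+1` for large `l`.
-/

namespace Pool.Agent.TH481.Log

open Finset

/-- vertex set: `m` classes of size `M` and `s` leftover vertices -/
abbrev Vt (m M s : ℕ) : Type := (ZMod m × ZMod M) ⊕ Fin s

variable {m M s : ℕ}

/-- class of a vertex -/
def col : Vt m M s → ZMod m
  | Sum.inl p => p.1
  | Sum.inr _ => 0

/-- label of a vertex -/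
def lab : Vt m M s → ZMod M
  | Sum.inl p => p.2
  | Sum.inr _ => 0

/-- label, forgotten on the class `0` -/
def lab' (v : Vt m M s) : ZMod M := if col v = 0 then 0 else lab v

def reg (v : Vt m M s) : Prop := v.isLeft = true

instance : DecidablePred (@reg m M s) := fun v => by unfold reg; infer_instance

lemma ext_reg {x y : Vt m M s} (hx : reg x) (hy : reg y) (h : col x = col y)
    (h' : lab x = lab y) : x = y := by
  rcases x with ⟨i, a⟩ | u
  · rcases y with ⟨j, b⟩ | v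
    · simp only [col] at h
      simp only [lab] at h'
      rw [h, h']
    · simp [reg] at hy
  · simp [reg] at hx

lemma ext_reg' {x y : Vt m M s} (hx : reg x) (hy : reg y) (h : col x = col y) (h0 : col x ≠ 0)
    (h' : lab' x = lab' y) : x = y := by
  unfold lab' at h'
  rw [if_neg h0, if_neg (h ▸ h0)] at h'
  exact ext_reg hx hy h h'

/-- weight of a set -/
def wt (S : Finset (Vt m M s)) : ZMod m := ∑ v ∈ S, col v

/-- label sum of a set, without the class `0` -/
def sg (S : Finset (Vt m M s)) : ZMod M := ∑ v ∈ S, lab' v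

/-- number of elements in the class `j` -/
def cnt (j : ZMod m) (S : Finset (Vt m M s)) : ℕ := (S.filter (fun v => col v = j)).card

lemma wt_insert {S : Finset (Vt m M s)} {x : Vt m M s} (hx : x ∉ S) :
    wt (insert x S) = col x + wt S := by
  unfold wt; rw [sum_insert hx]

lemma sg_insert {S : Finset (Vt m M s)} {x : Vt m M s} (hx : x ∉ S) :
    sg (insert x S) = lab' x + sg S := by
  unfold sg; rw [sum_insert hx]

lemma cnt_insert {S : Finset (Vt m M s)} {x : Vt m M s} (hx : x ∉ S) (j : ZMod m) :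
    cnt j (insert x S) = cnt j S + if col x = j then 1 else 0 := by
  unfold cnt
  rw [filter_insert]
  split_ifs with h
  · rw [card_insert_of_notMem]
    intro h'
    exact hx (mem_filter.1 h').1
  · rfl

variable [NeZero m] [NeZero M]

/-- the chosen `(l+1)`-sets -/
def BB (m M s l h : ℕ) [NeZero m] [NeZero M] : Finset (Finset (Vt m M s)) :=
  (powersetCard (l + 1) univ).filter (fun Q => (∀ v ∈ Q, reg v) ∧ wt Q = 0 ∧ sg Q = 0 ∧
    (∀ j : ZMod m, j ≠ 0 → 2 ≤ cnt j Q) ∧ 1 ≤ cnt 0 Q ∧ cnt 0 Q ≤ h)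

lemma mem_BB {l h : ℕ} {Q : Finset (Vt m M s)} : Q ∈ BB m M s l h ↔ Q.card = l + 1 ∧
    (∀ v ∈ Q, reg v) ∧ wt Q = 0 ∧ sg Q = 0 ∧
    (∀ j : ZMod m, j ≠ 0 → 2 ≤ cnt j Q) ∧ 1 ≤ cnt 0 Q ∧ cnt 0 Q ≤ h := by
  unfold BB
  rw [mem_filter, mem_powersetCard]
  simp

/-- A set of size `l` below a member of `BB` is obtained by removing one vertex. -/
lemma shad_insert {l h : ℕ} {S : Finset (Vt m M s)} (hS : S ∈ shad l (BB m M s l h)) :
    ∃ y, y ∉ S ∧ insert y S ∈ BB m M s l h := by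
  obtain ⟨hc, Q, hQ, hSQ⟩ := mem_shad.1 hS
  have hQc := (mem_BB.1 hQ).1
  have hd : (Q \ S).card = 1 := by
    rw [card_sdiff_of_subset hSQ, hQc, hc]; omega
  obtain ⟨y, hy⟩ := card_eq_one.1 hd
  have hy' : y ∈ Q \ S := by rw [hy]; simp
  rw [mem_sdiff] at hy'
  refine ⟨y, hy'.2, ?_⟩
  have : insert y S = Q := by
    rw [← sdiff_union_of_subset hSQ, hy]
    rfl
  rw [this]
  exact hQ

/-- The closure property. -/
lemma closure {l h : ℕ} (hm : 2 ≤ m) (hl : 1 ≤ l) (Q : Finset (Vt m M s)) (hQ : Q.card = l + 1)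
    (hall : ∀ S : Finset (Vt m M s), S ⊆ Q → S.card = l → S ∈ shad l (BB m M s l h)) :
    Q ∈ BB m M s l h := by
  have key : ∀ x ∈ Q, ∃ y, y ∉ Q.erase x ∧ insert y (Q.erase x) ∈ BB m M s l h := by
    intro x hx
    apply shad_insert
    apply hall _ (erase_subset _ _)
    rw [card_erase_of_mem hx, hQ]; omega
  have hwt : ∀ x ∈ Q, wt Q = col x + wt (Q.erase x) := by
    intro x hx
    rw [← wt_insert (notMem_erase x Q), insert_erase hx]
  have hsg : ∀ x ∈ Q, sg Q = lab' x + sg (Q.erase x) := by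
    intro x hx
    rw [← sg_insert (notMem_erase x Q), insert_erase hx]
  have hcnt : ∀ x ∈ Q, ∀ j, cnt j Q = cnt j (Q.erase x) + if col x = j then 1 else 0 := by
    intro x hx j
    rw [← cnt_insert (notMem_erase x Q), insert_erase hx]
  have hreg : ∀ v ∈ Q, reg v := by
    intro v hv
    obtain ⟨x, hx, hxv⟩ : ∃ x ∈ Q, x ≠ v := by
      apply exists_mem_ne
      omega
    obtain ⟨y, _, hy⟩ := key x hx
    exact (mem_BB.1 hy).2.1 v (mem_insert_of_mem (mem_erase.2 ⟨hxv.symm, hv⟩))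
  have hone : (1 : ZMod m) ≠ 0 := by
    have : Fact (1 < m) := ⟨hm⟩
    exact one_ne_zero
  have hne : Q.Nonempty := card_pos.1 (by omega)
  have hge1 : ∀ x ∈ Q, ∀ j : ZMod m, j ≠ 0 → 1 ≤ cnt j (Q.erase x) := by
    intro x hx j hj
    obtain ⟨y, hy1, hy⟩ := key x hx
    have h1 := (mem_BB.1 hy).2.2.2.2.1 j hj
    rw [cnt_insert hy1] at h1
    split_ifs at h1 <;> omega
  have hge2 : ∀ j : ZMod m, j ≠ 0 → 2 ≤ cnt j Q := by
    intro j hj
    obtain ⟨x0, hx0⟩ := hne
    have h1 := hge1 x0 hx0 j hj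
    unfold cnt at h1
    obtain ⟨x, hx⟩ := card_pos.1 h1
    rw [mem_filter, mem_erase] at hx
    have h2 := hge1 x hx.1.2 j hj
    have h3 := hcnt x hx.1.2 j
    rw [if_pos hx.2] at h3
    omega
  -- removing a vertex `x`
  have hrem : ∀ x ∈ Q, ∃ y, y ∉ Q.erase x ∧ col y + (wt Q - col x) = 0 ∧
      lab' y + (sg Q - lab' x) = 0 ∧ 1 ≤ cnt 0 (Q.erase x) + (if col y = 0 then 1 else 0) ∧
      cnt 0 (Q.erase x) + (if col y = 0 then 1 else 0) ≤ h := by
    intro x hx
    obtain ⟨y, hy1, hy⟩ := key x hx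
    obtain ⟨_, _, h3, h4, _, h6, h7⟩ := mem_BB.1 hy
    rw [wt_insert hy1] at h3
    rw [sg_insert hy1] at h4
    rw [cnt_insert hy1] at h6 h7
    refine ⟨y, hy1, ?_, ?_, h6, h7⟩
    · rw [hwt x hx]; rw [← h3]; ring
    · rw [hsg x hx]; rw [← h4]; ring
  have hw0 : wt Q = 0 := by
    by_contra ha
    have h2 := hge2 _ ha
    unfold cnt at h2
    obtain ⟨x, hx, x', hx', hxx'⟩ := one_lt_card.1 (lt_of_lt_of_le one_lt_two h2)
    rw [mem_filter] at hx hx'
    have aux : ∀ x ∈ Q, col x = wt Q → lab' x = sg Q := by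
      intro x hx hc
      obtain ⟨y, _, h3, h4, _⟩ := hrem x hx
      rw [hc, sub_self, add_zero] at h3
      have : lab' y = 0 := by unfold lab'; rw [if_pos h3]
      rw [this, zero_add] at h4
      exact (sub_eq_zero.1 h4).symm
    apply hxx'
    apply ext_reg' (hreg x hx.1) (hreg x' hx'.1) (by rw [hx.2, hx'.2]) (by rw [hx.2]; exact ha)
    rw [aux x hx.1 hx.2, aux x' hx'.1 hx'.2]
  have hc0 : 1 ≤ cnt 0 Q := by
    by_contra h0
    have h00 : cnt 0 Q = 0 := by omega
    obtain ⟨x, hx⟩ := hne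
    obtain ⟨y, _, h3, _, h5, _⟩ := hrem x hx
    have hxc : col x ≠ 0 := by
      intro h
      have := hcnt x hx 0
      rw [if_pos h] at this
      omega
    have h6 := hcnt x hx 0
    rw [if_neg hxc] at h6
    have hyc : col y ≠ 0 := by
      intro h
      rw [h, hw0] at h3
      apply hxc
      linear_combination -h3
    rw [if_neg hyc] at h5
    omega
  have hs0 : sg Q = 0 := by
    unfold cnt at hc0
    obtain ⟨x, hx⟩ := card_pos.1 hc0
    rw [mem_filter] at hx
    obtain ⟨y, _, h3, h4, _⟩ := hrem x hx.1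
    rw [hx.2, hw0] at h3
    have hy0 : col y = 0 := by linear_combination h3
    have h5 : lab' y = 0 := by unfold lab'; rw [if_pos hy0]
    have h6 : lab' x = 0 := by unfold lab'; rw [if_pos hx.2]
    rw [h5, h6] at h4
    linear_combination h4
  have hch : cnt 0 Q ≤ h := by
    have h1 := hge2 1 hone
    unfold cnt at h1
    obtain ⟨x, hx⟩ := card_pos.1 (lt_of_lt_of_le zero_lt_two h1)
    rw [mem_filter] at hx
    obtain ⟨y, _, _, _, _, h7⟩ := hrem x hx.1
    have h3 := hcnt x hx.1 0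
    rw [if_neg (by rw [hx.2]; exact hone)] at h3
    omega
  exact mem_BB.2 ⟨hQ, hreg, hw0, hs0, hge2, hc0, hch⟩

/-- the sets of nonzero weight -/
def H0 (m M s l : ℕ) [NeZero m] [NeZero M] : Finset (Finset (Vt m M s)) :=
  (powersetCard l univ).filter (fun S => wt S ≠ 0)

lemma mem_H0 {l : ℕ} {S : Finset (Vt m M s)} : S ∈ H0 m M s l ↔ S.card = l ∧ wt S ≠ 0 := by
  unfold H0
  rw [mem_filter, mem_powersetCard]
  simp

lemma h1 {l h : ℕ} (Q : Finset (Vt m M s)) (hQ : Q ∈ BB m M s l h) :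
    l + 1 - h ≤ ((H0 m M s l).filter (fun S => S ⊆ Q)).card := by
  obtain ⟨hc, _, hw, _, _, _, hh⟩ := mem_BB.1 hQ
  have h1 : (Q.filter (fun v => ¬ col v = 0)).card + cnt 0 Q = l + 1 := by
    unfold cnt
    rw [add_comm, card_filter_add_card_filter_not, hc]
  have h2 : (Q.filter (fun v => ¬ col v = 0)).card ≤
      ((H0 m M s l).filter (fun S => S ⊆ Q)).card := by
    apply card_le_card_of_injOn (fun x => Q.erase x)
    · intro x hx
      rw [mem_coe, mem_filter] at hx
      rw [mem_coe, mem_filter, mem_H0]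
      refine ⟨⟨by rw [card_erase_of_mem hx.1, hc]; rfl, ?_⟩, erase_subset _ _⟩
      intro h0
      apply hx.2
      have : wt Q = col x + wt (Q.erase x) := by
        rw [← wt_insert (notMem_erase x Q), insert_erase hx.1]
      rw [hw, h0, add_zero] at this
      exact this.symm
    · intro x hx y hy hxy
      rw [mem_coe, mem_filter] at hx hy
      by_contra hne
      have : x ∈ Q.erase y := mem_erase.2 ⟨hne, hx.1⟩
      simp only at hxy
      rw [← hxy] at this
      exact notMem_erase x Q this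
  omega

lemma h2 {l h : ℕ} (S : Finset (Vt m M s)) (hS : S ∈ H0 m M s l) :
    ((BB m M s l h).filter (fun Q => S ⊆ Q)).card ≤ 1 := by
  rw [card_le_one]
  intro Q hQ Q' hQ'
  rw [mem_filter] at hQ hQ'
  obtain ⟨hc, hw⟩ := mem_H0.1 hS
  have key : ∀ Q ∈ BB m M s l h, S ⊆ Q → ∃ y, y ∉ S ∧ Q = insert y S := by
    intro Q hQ hSQ
    have hQc := (mem_BB.1 hQ).1
    have hd : (Q \ S).card = 1 := by
      rw [card_sdiff_of_subset hSQ, hQc, hc]; omega
    obtain ⟨y, hy⟩ := card_eq_one.1 hd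
    have hy' : y ∈ Q \ S := by rw [hy]; simp
    rw [mem_sdiff] at hy'
    refine ⟨y, hy'.2, ?_⟩
    rw [← sdiff_union_of_subset hSQ, hy]
    rfl
  obtain ⟨y, hy, rfl⟩ := key Q hQ.1 hQ.2
  obtain ⟨y', hy', rfl⟩ := key Q' hQ'.1 hQ'.2
  obtain ⟨_, r1, w1, s1, _⟩ := mem_BB.1 hQ.1
  obtain ⟨_, r2, w2, s2, _⟩ := mem_BB.1 hQ'.1
  rw [wt_insert hy] at w1
  rw [wt_insert hy'] at w2
  rw [sg_insert hy] at s1
  rw [sg_insert hy'] at s2
  have : y = y' := by
    apply ext_reg' (r1 y (mem_insert_self _ _)) (r2 y' (mem_insert_self _ _))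
    · exact add_right_cancel (w1.trans w2.symm)
    · intro h0
      rw [h0, zero_add] at w1
      exact hw w1
    · exact add_right_cancel (s1.trans s2.symm)
  rw [this]

end Pool.Agent.TH481.Log
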