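import Mathlib
import Pool.Agent.TH481.Log

set_option autoImplicit false

/-!
Counting for the construction for large `l`.
-/

namespace Pool.Agent.TH481.Log

open Finset

section general

variable {α : Type} [DecidableEq α] [Fintype α]

/-- double counting of pairs (set, element) -/
lemma dc {k c d : ℕ} (𝓕 : Finset (Finset α)) (P : Finset α → α → Prop)
    [∀ T x, Decidable (P T x)]
    (hF : ∀ S ∈ 𝓕, S.card = k + 1)
    (hc : ∀ S ∈ 𝓕, c ≤ (S.filter (fun x => P (S.erase x) x)).card)
    (hd : ∀ T : Finset α, T.card = k → (univ.filter (fun x => P T x)).card ≤ d) :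
    𝓕.card * c ≤ (Fintype.card α).choose k * d := by
  classical
  have h : (Fintype.card α).choose k = (powersetCard k (univ : Finset α)).card := by
    rw [card_powersetCard, card_univ]
  rw [h]
  apply card_mul_le_card_mul (fun (S T : Finset α) => ∃ x ∈ S, T = S.erase x ∧ P T x)
  · intro S hS
    refine (hc S hS).trans ?_
    apply card_le_card_of_injOn (fun x => S.erase x)
    · intro x hx
      rw [mem_coe, mem_filter] at hx
      rw [mem_coe, mem_bipartiteAbove, mem_powersetCard]
      refine ⟨⟨subset_univ _, by rw [card_erase_of_mem hx.1, hF S hS]; rfl⟩, x, hx.1, rfl, hx.2⟩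
    · intro x hx y hy hxy
      rw [mem_coe, mem_filter] at hx hy
      by_contra hne
      have : x ∈ S.erase y := mem_erase.2 ⟨hne, hx.1⟩
      simp only at hxy
      rw [← hxy] at this
      exact notMem_erase x S this
  · intro T hT
    rw [mem_powersetCard] at hT
    have : (𝓕.bipartiteBelow (fun (S T : Finset α) => ∃ x ∈ S, T = S.erase x ∧ P T x) T) ⊆
        (univ.filter (fun x => P T x)).image (fun x => insert x T) := by
      intro S hS
      rw [mem_bipartiteBelow] at hS
      obtain ⟨_, x, hx, rfl, hP⟩ := hS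
      rw [mem_image]
      exact ⟨x, mem_filter.2 ⟨mem_univ _, hP⟩, insert_erase hx⟩
    exact (card_le_card this).trans (card_image_le.trans (hd T hT.2))

/-- sets with at most one element in `V` -/
lemma few {l : ℕ} (V : Finset α) :
    ((powersetCard (l + 1) (univ : Finset α)).filter (fun S => (S ∩ V).card ≤ 1)).card ≤
      (Fintype.card α - V.card).choose (l + 1) + V.card * (Fintype.card α - V.card).choose l := by
  classical
  have hW : (univ \ V).card = Fintype.card α - V.card := by
    rw [card_sdiff_of_subset (subset_univ _), card_univ]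
  have hsub : (powersetCard (l + 1) (univ : Finset α)).filter (fun S => (S ∩ V).card ≤ 1) ⊆
      powersetCard (l + 1) (univ \ V) ∪
        (V ×ˢ powersetCard l (univ \ V)).image (fun p => insert p.1 p.2) := by
    intro S hS
    rw [mem_filter, mem_powersetCard] at hS
    rw [mem_union]
    rcases Nat.eq_zero_or_pos (S ∩ V).card with h0 | h0
    · left
      rw [mem_powersetCard]
      refine ⟨?_, hS.1.2⟩
      intro x hx
      rw [mem_sdiff]
      refine ⟨mem_univ _, fun hxV => ?_⟩
      have : x ∈ S ∩ V := mem_inter.2 ⟨hx, hxV⟩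
      rw [card_eq_zero.1 h0] at this
      exact notMem_empty x this
    · right
      obtain ⟨x, hx⟩ := card_eq_one.1 (le_antisymm hS.2 h0)
      have hxm : x ∈ S ∩ V := by rw [hx]; simp
      rw [mem_inter] at hxm
      rw [mem_image]
      refine ⟨(x, S.erase x), ?_, insert_erase hxm.1⟩
      rw [mem_product, mem_powersetCard]
      refine ⟨hxm.2, ?_, by rw [card_erase_of_mem hxm.1, hS.1.2]; rfl⟩
      intro y hy
      rw [mem_erase] at hy
      rw [mem_sdiff]
      refine ⟨mem_univ _, fun hyV => ?_⟩
      have : y ∈ S ∩ V := mem_inter.2 ⟨hy.2, hyV⟩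
      rw [hx, mem_singleton] at this
      exact hy.1 this
  refine (card_le_card hsub).trans ((card_union_le _ _).trans ?_)
  rw [card_powersetCard, hW]
  refine Nat.add_le_add_left ?_ _
  refine card_image_le.trans ?_
  rw [card_product, card_powersetCard, hW]

/-- sets with at least `k` elements in `V` -/
lemma many {l k : ℕ} (hk : k ≤ l) (V : Finset α) :
    ((powersetCard l (univ : Finset α)).filter (fun S => k ≤ (S ∩ V).card)).card ≤
      V.card.choose k * (Fintype.card α - k).choose (l - k) := by
  classical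
  have h := card_mul_le_card_mul (s := (powersetCard l (univ : Finset α)).filter
    (fun S => k ≤ (S ∩ V).card)) (t := powersetCard k V) (fun (S A : Finset α) => A ⊆ S)
    (m := 1) (n := (Fintype.card α - k).choose (l - k)) ?_ ?_
  · rw [mul_one, card_powersetCard] at h
    exact h
  · intro S hS
    rw [mem_filter, mem_powersetCard] at hS
    obtain ⟨A, hA, hAc⟩ := exists_subset_card_eq hS.2
    apply card_pos.2
    refine ⟨A, ?_⟩
    rw [mem_bipartiteAbove, mem_powersetCard]
    exact ⟨⟨hA.trans inter_subset_right, hAc⟩, hA.trans inter_subset_left⟩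
  · intro A hA
    rw [mem_powersetCard] at hA
    have hW : (univ \ A).card = Fintype.card α - k := by
      rw [card_sdiff_of_subset (subset_univ _), card_univ, hA.2]
    rw [← hW, ← card_powersetCard]
    apply card_le_card_of_injOn (fun S => S \ A)
    · intro S hS
      rw [mem_coe, mem_bipartiteBelow, mem_filter, mem_powersetCard] at hS
      rw [mem_coe, mem_powersetCard]
      refine ⟨sdiff_subset_sdiff (subset_univ _) (Subset.refl _), ?_⟩
      rw [card_sdiff_of_subset hS.2, hS.1.1.2, hA.2]
    · intro S hS S' hS' he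
      rw [mem_coe, mem_bipartiteBelow] at hS hS'
      simp only at he
      rw [← sdiff_union_of_subset hS.2, ← sdiff_union_of_subset hS'.2, he]

end general

variable {m M s : ℕ} [NeZero m] [NeZero M]

/-- covered sets -/
def cov (m M s l h : ℕ) [NeZero m] [NeZero M] : Finset (Finset (Vt m M s)) :=
  (H0 m M s l).filter (fun S => ∃ Q ∈ BB m M s l h, S ⊆ Q)

lemma mem_cov_of {l h : ℕ} {S : Finset (Vt m M s)} (hc : S.card = l) (hr : ∀ v ∈ S, reg v)
    (hw : wt S ≠ 0) (hz : ∀ z ∈ S, ¬ (col z = -wt S ∧ lab z = -sg S))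
    (h2 : ∀ j : ZMod m, 2 ≤ cnt j S) (hh : cnt 0 S ≤ h) : S ∈ cov m M s l h := by
  unfold cov
  rw [mem_filter, mem_H0]
  refine ⟨⟨hc, hw⟩, insert (Sum.inl (-wt S, -sg S)) S, ?_, subset_insert _ _⟩
  have hy : (Sum.inl (-wt S, -sg S) : Vt m M s) ∉ S := fun h => hz _ h ⟨rfl, rfl⟩
  have hc0 : col (Sum.inl (-wt S, -sg S) : Vt m M s) = -wt S := rfl
  have hl0 : lab (Sum.inl (-wt S, -sg S) : Vt m M s) = -sg S := rfl
  have hne : col (Sum.inl (-wt S, -sg S) : Vt m M s) ≠ 0 := by
    rw [hc0]; exact neg_ne_zero.2 hw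
  have hl' : lab' (Sum.inl (-wt S, -sg S) : Vt m M s) = -sg S := by
    unfold lab'; rw [if_neg hne, hl0]
  rw [mem_BB]
  refine ⟨by rw [card_insert_of_notMem hy, hc], ?_, ?_, ?_, ?_, ?_, ?_⟩
  · intro v hv
    rw [mem_insert] at hv
    rcases hv with rfl | hv
    · rfl
    · exact hr v hv
  · rw [wt_insert hy, hc0]; ring
  · rw [sg_insert hy, hl']; ring
  · intro j hj
    rw [cnt_insert hy]
    have := h2 j
    omega
  · rw [cnt_insert hy, if_neg hne]
    have := h2 0
    omega
  · rw [cnt_insert hy, if_neg hne]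
    exact hh

/-- the class `j` -/
def cls (m M s : ℕ) [NeZero m] [NeZero M] (j : ZMod m) : Finset (Vt m M s) :=
  (univ : Finset (ZMod M)).image (fun x => Sum.inl (j, x))

lemma card_cls (j : ZMod m) : (cls m M s j).card = M := by
  unfold cls
  rw [card_image_of_injective, card_univ, ZMod.card]
  intro x y h
  simpa using h

lemma mem_cls {j : ZMod m} {v : Vt m M s} (hr : reg v) (hv : col v = j) : v ∈ cls m M s j := by
  rcases v with ⟨i, a⟩ | u
  · simp only [col] at hv
    subst hv
    unfold cls
    rw [mem_image]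
    exact ⟨a, mem_univ _, rfl⟩
  · simp [reg] at hr

lemma reg_of_mem_cls {j : ZMod m} {v : Vt m M s} (h : v ∈ cls m M s j) : reg v ∧ col v = j := by
  unfold cls at h
  rw [mem_image] at h
  obtain ⟨a, _, rfl⟩ := h
  exact ⟨rfl, rfl⟩

lemma cnt_eq {S : Finset (Vt m M s)} (hr : ∀ v ∈ S, reg v) (j : ZMod m) :
    cnt j S = (S ∩ cls m M s j).card := by
  unfold cnt
  congr 1
  ext v
  rw [mem_filter, mem_inter]
  constructor
  · rintro ⟨h1, h2⟩; exact ⟨h1, mem_cls (hr v h1) h2⟩
  · rintro ⟨h1, h2⟩; exact ⟨h1, (reg_of_mem_cls h2).2⟩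

lemma card_Vt : Fintype.card (Vt m M s) = m * M + s := by
  rw [Fintype.card_sum, Fintype.card_prod, ZMod.card, ZMod.card, Fintype.card_fin]

/-- the counting inequality -/
lemma count {k h : ℕ} (hh : h + 1 ≤ k + 1) (hM : Odd M) :
    ∃ b1 b2 b3 b4 b5 : ℕ,
      (m * M + s).choose (k + 1) ≤ (cov m M s (k + 1) h).card + b1 + b2 + b3 + b4 + b5 ∧
      b1 ≤ (m * M + s).choose k * s ∧
      b2 * (k + 1) ≤ (m * M + s).choose k * M ∧
      b3 ≤ (m * M + s).choose k * m ∧
      b4 ≤ m * ((m * M + s - M).choose (k + 1) + M * (m * M + s - M).choose k) ∧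
      b5 ≤ M.choose (h + 1) * (m * M + s - (h + 1)).choose (k + 1 - (h + 1)) := by
  classical
  set U := powersetCard (k + 1) (univ : Finset (Vt m M s)) with hU
  set B1 := U.filter (fun S => ∃ v ∈ S, ¬ reg v) with hB1
  set B2 := U.filter (fun S => (∀ v ∈ S, reg v) ∧ wt S = 0) with hB2
  set B3 := U.filter (fun S => (∀ v ∈ S, reg v) ∧ wt S ≠ 0 ∧
    ∃ z ∈ S, col z = -wt S ∧ lab z = -sg S) with hB3
  set B4 := (univ : Finset (ZMod m)).biUnion (fun j => U.filter
    (fun S => (S ∩ cls m M s j).card ≤ 1)) with hB4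
  set B5 := U.filter (fun S => h + 1 ≤ (S ∩ cls m M s 0).card) with hB5
  have hUc : ∀ S ∈ U, S.card = k + 1 := fun S hS => (mem_powersetCard.1 hS).2
  refine ⟨B1.card, B2.card, B3.card, B4.card, B5.card, ?_, ?_, ?_, ?_, ?_, ?_⟩
  · have hsub : U ⊆ cov m M s (k + 1) h ∪ B1 ∪ B2 ∪ B3 ∪ B4 ∪ B5 := by
      intro S hS
      simp only [mem_union]
      by_contra hcon
      simp only [not_or] at hcon
      obtain ⟨⟨⟨⟨⟨c0, c1⟩, c2⟩, c3⟩, c4⟩, c5⟩ := hcon
      apply c0
      have hr : ∀ v ∈ S, reg v := by
        by_contra h'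
        push Not at h'
        exact c1 (mem_filter.2 ⟨hS, h'⟩)
      have hw : wt S ≠ 0 := fun h' => c2 (mem_filter.2 ⟨hS, hr, h'⟩)
      refine mem_cov_of (hUc S hS) hr hw ?_ ?_ ?_
      · intro z hz hzz
        exact c3 (mem_filter.2 ⟨hS, hr, hw, z, hz, hzz⟩)
      · intro j
        by_contra h'
        apply c4
        rw [hB4, mem_biUnion]
        refine ⟨j, mem_univ _, mem_filter.2 ⟨hS, ?_⟩⟩
        rw [← cnt_eq hr j]
        omega
      · by_contra h'
        apply c5
        refine mem_filter.2 ⟨hS, ?_⟩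
        rw [← cnt_eq hr 0]
        omega
    have h1 := card_le_card hsub
    rw [hU, card_powersetCard, card_univ, card_Vt] at h1
    refine h1.trans ?_
    refine (card_union_le _ _).trans (Nat.add_le_add_right ?_ _)
    refine (card_union_le _ _).trans (Nat.add_le_add_right ?_ _)
    refine (card_union_le _ _).trans (Nat.add_le_add_right ?_ _)
    refine (card_union_le _ _).trans (Nat.add_le_add_right ?_ _)
    exact card_union_le _ _
  · have h1 := dc (k := k) (c := 1) (d := s) B1 (fun _ x => ¬ reg x)
      (fun S hS => hUc S (mem_filter.1 hS).1) ?_ ?_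
    · rw [mul_one, card_Vt] at h1
      exact h1
    · intro S hS
      obtain ⟨_, v, hv, hvr⟩ := mem_filter.1 hS
      exact card_pos.2 ⟨v, mem_filter.2 ⟨hv, hvr⟩⟩
    · intro T _
      have : (univ.filter (fun x : Vt m M s => ¬ reg x)) ⊆
          (univ : Finset (Fin s)).image Sum.inr := by
        intro x hx
        rw [mem_filter] at hx
        rcases x with p | u
        · exact absurd rfl hx.2
        · exact mem_image_of_mem _ (mem_univ _)
      refine (card_le_card this).trans (card_image_le.trans ?_)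
      rw [card_univ, Fintype.card_fin]
  · have h1 := dc (k := k) (c := k + 1) (d := M) B2 (fun T x => reg x ∧ col x = -wt T)
      (fun S hS => hUc S (mem_filter.1 hS).1) ?_ ?_
    · rw [card_Vt] at h1
      exact h1
    · intro S hS
      obtain ⟨hS1, hr, hw⟩ := mem_filter.1 hS
      have : S.filter (fun x => reg x ∧ col x = -wt (S.erase x)) = S := by
        apply filter_true_of_mem
        intro x hx
        refine ⟨hr x hx, ?_⟩
        have h3 : wt S = col x + wt (S.erase x) := by
          rw [← wt_insert (notMem_erase x S), insert_erase hx]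
        rw [hw] at h3
        linear_combination -h3
      rw [this, hUc S hS1]
    · intro T _
      refine le_trans (card_le_card ?_) (card_cls (m := m) (M := M) (s := s) (-wt T)).le
      intro x hx
      rw [mem_filter] at hx
      exact mem_cls hx.2.1 hx.2.2
  · have h1 := dc (k := k) (c := 1) (d := m) B3
      (fun T z => reg z ∧ lab z + lab z = -sg T)
      (fun S hS => hUc S (mem_filter.1 hS).1) ?_ ?_
    · rw [mul_one, card_Vt] at h1
      exact h1
    · intro S hS
      obtain ⟨_, hr, hw, z, hz, hz1, hz2⟩ := mem_filter.1 hS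
      refine card_pos.2 ⟨z, mem_filter.2 ⟨hz, hr z hz, ?_⟩⟩
      have h3 : sg S = lab' z + sg (S.erase z) := by
        rw [← sg_insert (notMem_erase z S), insert_erase hz]
      have h4 : lab' z = lab z := by
        unfold lab'
        rw [if_neg]
        rw [hz1]
        exact neg_ne_zero.2 hw
      rw [h4] at h3
      rw [h3] at hz2
      linear_combination hz2
    · intro T _
      have hm : m = (univ : Finset (ZMod m)).card := by rw [card_univ, ZMod.card]
      conv_rhs => rw [hm]
      apply card_le_card_of_injOn (fun z => col z) (fun _ _ => mem_coe.2 (mem_univ _))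
      intro x hx y hy hxy
      rw [mem_coe, mem_filter] at hx hy
      apply ext_reg hx.2.1 hy.2.1 hxy
      have h2 : (2 : ZMod M) * (lab x - lab y) = 0 := by
        linear_combination hx.2.2 - hy.2.2
      have hunit : IsUnit (2 : ZMod M) := by
        have := (ZMod.isUnit_iff_coprime 2 M).2 (Nat.coprime_two_left.2 hM)
        exact_mod_cast this
      have h3 := hunit.mul_right_eq_zero.1 h2
      exact sub_eq_zero.1 h3
  · refine card_biUnion_le.trans ?_
    have hb : ∀ j ∈ (univ : Finset (ZMod m)), (U.filter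
        (fun S => (S ∩ cls m M s j).card ≤ 1)).card ≤
        (m * M + s - M).choose (k + 1) + M * (m * M + s - M).choose k := by
      intro j _
      have := few (l := k) (cls m M s j)
      rw [card_Vt, card_cls] at this
      exact this
    refine (sum_le_card_nsmul _ _ _ hb).trans ?_
    rw [card_univ, ZMod.card, smul_eq_mul]
  · have := many (l := k + 1) (k := h + 1) hh (cls m M s 0)
    rw [card_Vt, card_cls] at this
    exact this

/-- the main inequality in natural numbers -/
lemma main_nat {k h : ℕ} (hm : 2 ≤ m) (hh : h + 1 ≤ k + 1) (hn : k + 2 ≤ m * M + s) :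
    IsFlatMax (k + 1) (anti (k + 1) (BB m M s (k + 1) h)) ∧
    (k + 2 - h) * (anti (k + 1) (BB m M s (k + 1) h)).card +
      (k + 1 - h) * (cov m M s (k + 1) h).card ≤ (k + 2 - h) * (m * M + s).choose (k + 1) := by
  refine ⟨isFlatMax_anti (by rw [card_Vt]; exact hn) (fun Q hQ => (mem_BB.1 hQ).1)
    (fun Q hQ hall => closure hm (by omega) Q hQ hall), ?_⟩
  have := card_anti_le (l := k + 1) (e := k + 2 - h) (by omega) (𝓑 := BB m M s (k + 1) h)
    (H0 := H0 m M s (k + 1)) (fun Q hQ => (mem_BB.1 hQ).1) (fun S hS => (mem_H0.1 hS).1) h1 h2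
    (D := (cov m M s (k + 1) h).card) (by unfold cov; exact le_rfl)
  rw [card_Vt] at this
  have e : k + 2 - h - 1 = k + 1 - h := by omega
  rw [e] at this
  exact this

end Pool.Agent.TH481.Log
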