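import Mathlib
import Pool.Agent.TH481.Gen
import Pool.Agent.TH481.LogCount

set_option autoImplicit false
set_option linter.unusedSectionVars false

/-!
The blocks on the level of types.
-/

namespace Pool.Agent.TH481.Typ

open Finset

variable {T R l : ℕ} [NeZero T]

/-- types -/
abbrev Ty (T R : ℕ) := ZMod T ⊕ Fin R

/-- weight of a set of types -/
def wt (C : Finset (Ty T R)) : ZMod T := ∑ x ∈ C, Sum.elim id (fun _ => 0) x

/-- number of special types -/
def sp (C : Finset (Ty T R)) : ℕ := (C.filter (fun i => i.isRight = true)).card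

/-- forced free elements -/
def Fr0 (G : Finset (Finset (Ty T R))) (C : Finset (Ty T R)) : Finset (Ty T R) :=
  C.filter (fun i => C.erase i ∈ G ∨ i.isRight = true)

open Classical in
/-- one more element -/
noncomputable def ex1 (G : Finset (Finset (Ty T R))) (C : Finset (Ty T R)) : Finset (Ty T R) :=
  if h : (C \ Fr0 G C).Nonempty then {h.choose} else ∅

/-- free elements -/
noncomputable def Fr (G : Finset (Finset (Ty T R))) (C : Finset (Ty T R)) : Finset (Ty T R) :=
  if 2 ≤ (Fr0 G C).card then Fr0 G C else Fr0 G C ∪ ex1 G C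

lemma Fr0_subset (G : Finset (Finset (Ty T R))) (C : Finset (Ty T R)) : Fr0 G C ⊆ C :=
  filter_subset _ _

lemma ex1_subset (G : Finset (Finset (Ty T R))) (C : Finset (Ty T R)) :
    ex1 G C ⊆ C \ Fr0 G C := by
  classical
  unfold ex1
  split_ifs with h
  · rw [singleton_subset_iff]; exact h.choose_spec
  · exact empty_subset _

lemma card_ex1 (G : Finset (Finset (Ty T R))) (C : Finset (Ty T R))
    (h : (C \ Fr0 G C).Nonempty) : (ex1 G C).card = 1 := by
  classical
  unfold ex1
  rw [dif_pos h, card_singleton]

lemma Fr_subset (G : Finset (Finset (Ty T R))) (C : Finset (Ty T R)) : Fr G C ⊆ C := by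
  unfold Fr
  split_ifs
  · exact Fr0_subset G C
  · exact union_subset (Fr0_subset G C) ((ex1_subset G C).trans sdiff_subset)

/-- blocks -/
noncomputable def Bk (l : ℕ) (G : Finset (Finset (Ty T R))) (a : ZMod T) :
    Finset (Finset (Ty T R)) :=
  (powersetCard (l + 1) univ).filter (fun C => wt C = a ∧ (C \ Fr G C).Nonempty)

/-- the data -/
noncomputable def dat (hl : 2 ≤ l) (G : Finset (Finset (Ty T R)))
    (hG : ∀ C : Finset (Ty T R), C.card = l + 1 → ∃ i ∈ C, C.erase i ∈ G) (a : ZMod T) :
    Gen.Data (Ty T R) l where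
  G := G
  𝒞 := Bk l G a
  Fr := Fr G
  hl := hl
  h1 := by
    intro C hC
    unfold Bk at hC
    exact (mem_powersetCard.1 (mem_filter.1 hC).1).2
  h2 := by
    intro C hC
    unfold Bk at hC
    rw [mem_filter, mem_powersetCard] at hC
    obtain ⟨⟨_, hc⟩, _, _⟩ := hC
    unfold Fr
    split_ifs with h
    · exact h
    · have h0 : (Fr0 G C).Nonempty := by
        obtain ⟨i, hi, hi'⟩ := hG C hc
        exact ⟨i, mem_filter.2 ⟨hi, Or.inl hi'⟩⟩
      have h1 := card_pos.2 h0
      have hne : (C \ Fr0 G C).Nonempty := by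
        rw [← card_pos, card_sdiff_of_subset (Fr0_subset G C)]
        omega
      rw [card_union_of_disjoint, card_ex1 G C hne]
      · omega
      · rw [disjoint_left]
        intro x hx hx'
        exact (mem_sdiff.1 (ex1_subset G C hx')).2 hx
  h2' := fun C _ => Fr_subset G C
  h3 := by
    intro C hC
    unfold Bk at hC
    exact (mem_filter.1 hC).2.2
  h4 := hG
  h5 := by
    intro C _ i hi h
    have : i ∈ Fr0 G C := mem_filter.2 ⟨hi, Or.inl h⟩
    unfold Fr
    split_ifs
    · exact this
    · exact mem_union_left _ this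

/-- bad sets 1 -/
def U4 (l : ℕ) (a : ZMod T) : Finset (Finset (Ty T R)) :=
  (powersetCard l univ).filter (fun D => Sum.inl (a - wt D) ∈ D)

/-- bad blocks -/
def U6 (l : ℕ) (a : ZMod T) : Finset (Finset (Ty T R)) :=
  (powersetCard (l + 1) univ).filter (fun C => wt C = a ∧ sp C ≤ 1)

lemma card_good (hl : 2 ≤ l) (G : Finset (Finset (Ty T R)))
    (hG : ∀ C : Finset (Ty T R), C.card = l + 1 → ∃ i ∈ C, C.erase i ∈ G) (a : ZMod T) :
    (T + R).choose l ≤ (dat hl G hG a).good.card + G.card + (U4 (T := T) (R := R) l a).card +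
      (U6 (T := T) (R := R) l a).card := by
  classical
  have hU : (T + R).choose l = (powersetCard l (univ : Finset (Ty T R))).card := by
    rw [card_powersetCard, card_univ, Fintype.card_sum, ZMod.card, Fintype.card_fin]
  rw [hU]
  have hsub : powersetCard l (univ : Finset (Ty T R)) ⊆
      (dat hl G hG a).good ∪ G ∪ U4 l a ∪ (U6 l a).image (fun C => C \ ex1 G C) := by
    intro D hD
    have hDc := (mem_powersetCard.1 hD).2
    simp only [mem_union]
    by_contra hcon
    simp only [not_or] at hcon
    obtain ⟨⟨⟨c1, c2⟩, c3⟩, c4⟩ := hcon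
    set j : Ty T R := Sum.inl (a - wt D) with hj
    have hjD : j ∉ D := fun h => c3 (mem_filter.2 ⟨hD, h⟩)
    have hCc : (insert j D).card = l + 1 := by rw [card_insert_of_notMem hjD, hDc]
    have hwt : wt (insert j D) = a := by
      unfold wt
      rw [sum_insert hjD]
      have : Sum.elim id (fun _ => 0) j = a - wt D := rfl
      rw [this]
      unfold wt
      ring
    have hjC : j ∈ insert j D := mem_insert_self _ _
    have her : (insert j D).erase j = D := erase_insert hjD
    have hjF0 : j ∉ Fr0 G (insert j D) := by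
      intro h
      unfold Fr0 at h
      rw [mem_filter, her] at h
      rcases h.2 with h | h
      · exact c2 h
      · simp [hj] at h
    by_cases hjF : j ∈ Fr G (insert j D)
    · unfold Fr at hjF
      split_ifs at hjF with h2
      · exact hjF0 hjF
      · rw [mem_union] at hjF
        rcases hjF with hjF | hjF
        · exact hjF0 hjF
        · apply c4
          rw [mem_image]
          refine ⟨insert j D, ?_, ?_⟩
          · unfold U6
            rw [mem_filter, mem_powersetCard]
            refine ⟨⟨subset_univ _, hCc⟩, hwt, ?_⟩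
            have : (insert j D).filter (fun i => i.isRight = true) ⊆ Fr0 G (insert j D) := by
              intro x hx
              rw [mem_filter] at hx
              exact mem_filter.2 ⟨hx.1, Or.inr hx.2⟩
            have := card_le_card this
            unfold sp
            omega
          · have h1 := card_ex1 G (insert j D) ⟨j, ex1_subset G _ hjF⟩
            obtain ⟨x, hx⟩ := card_eq_one.1 h1
            rw [hx, mem_singleton] at hjF
            rw [hx, ← hjF, sdiff_singleton_eq_erase, her]
    · apply c1
      unfold Gen.Data.good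
      rw [mem_filter]
      refine ⟨hD, insert j D, ?_, j, mem_sdiff.2 ⟨hjC, hjF⟩, her.symm⟩
      change insert j D ∈ Bk l G a
      unfold Bk
      rw [mem_filter, mem_powersetCard]
      exact ⟨⟨subset_univ _, hCc⟩, hwt, j, mem_sdiff.2 ⟨hjC, hjF⟩⟩
  refine (card_le_card hsub).trans ?_
  refine (card_union_le _ _).trans (Nat.add_le_add ?_ card_image_le)
  refine (card_union_le _ _).trans (Nat.add_le_add_right ?_ _)
  exact card_union_le _ _

lemma sum_Bk (G : Finset (Finset (Ty T R))) :
    ∑ a : ZMod T, (Bk l G a).card ≤ (T + R).choose (l + 1) := by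
  classical
  have hU : (T + R).choose (l + 1) = (powersetCard (l + 1) (univ : Finset (Ty T R))).card := by
    rw [card_powersetCard, card_univ, Fintype.card_sum, ZMod.card, Fintype.card_fin]
  rw [hU, card_eq_sum_card_fiberwise (f := wt) (t := univ) (fun _ _ => mem_coe.2 (mem_univ _))]
  apply sum_le_sum
  intro a _
  apply card_le_card
  intro C hC
  unfold Bk at hC
  rw [mem_filter] at hC ⊢
  exact ⟨hC.1, hC.2.1⟩

lemma sum_U6 : ∑ a : ZMod T, (U6 (T := T) (R := R) l a).card ≤
    T.choose (l + 1) + R * T.choose l := by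
  classical
  have hV : ((univ : Finset (Ty T R)).filter (fun i => i.isRight = true)).card = R := by
    have : (univ : Finset (Ty T R)).filter (fun i => i.isRight = true) =
        (univ : Finset (Fin R)).map ⟨Sum.inr, Sum.inr_injective⟩ := by
      ext x
      rcases x with x | x <;> simp
    rw [this, card_map, card_univ, Fintype.card_fin]
  have h := Log.few (l := l) ((univ : Finset (Ty T R)).filter (fun i => i.isRight = true))
  rw [hV, Fintype.card_sum, ZMod.card, Fintype.card_fin, Nat.add_sub_cancel] at h
  refine le_trans ?_ h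
  rw [card_eq_sum_card_fiberwise (f := wt) (t := univ) (fun _ _ => mem_coe.2 (mem_univ _))]
  apply sum_le_sum
  intro a _
  apply card_le_card
  intro C hC
  unfold U6 at hC
  rw [mem_filter] at hC ⊢
  refine ⟨mem_filter.2 ⟨hC.1, ?_⟩, hC.2.1⟩
  have : C ∩ (univ : Finset (Ty T R)).filter (fun i => i.isRight = true) =
      C.filter (fun i => i.isRight = true) := by
    ext x; simp
  rw [this]
  exact hC.2.2

lemma sum_U4 : ∑ a : ZMod T, (U4 (T := T) (R := R) l a).card ≤ l * (T + R).choose l := by
  classical
  have h1 : ∑ a : ZMod T, (U4 (T := T) (R := R) l a).card =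
      ∑ D ∈ powersetCard l (univ : Finset (Ty T R)),
        ((univ : Finset (ZMod T)).filter (fun a => Sum.inl (a - wt D) ∈ D)).card := by
    unfold U4
    exact sum_card_bipartiteAbove_eq_sum_card_bipartiteBelow
      (fun (a : ZMod T) (D : Finset (Ty T R)) => Sum.inl (a - wt D) ∈ D)
  rw [h1]
  have h2 : ∀ D ∈ powersetCard l (univ : Finset (Ty T R)),
      ((univ : Finset (ZMod T)).filter (fun a => Sum.inl (a - wt D) ∈ D)).card ≤ l := by
    intro D hD
    rw [← (mem_powersetCard.1 hD).2]
    apply card_le_card_of_injOn (fun a => (Sum.inl (a - wt D) : Ty T R))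
    · intro a ha
      exact (mem_filter.1 ha).2
    · intro a _ b _ hab
      have := Sum.inl.inj hab
      exact sub_left_injective this
  refine (sum_le_card_nsmul _ _ _ h2).trans ?_
  rw [card_powersetCard, card_univ, Fintype.card_sum, ZMod.card, Fintype.card_fin, smul_eq_mul,
    mul_comm]

/-- there is a good shift -/
lemma exists_shift (hl : 2 ≤ l) (G : Finset (Finset (Ty T R)))
    (hG : ∀ C : Finset (Ty T R), C.card = l + 1 → ∃ i ∈ C, C.erase i ∈ G) :
    ∃ d : Gen.Data (Ty T R) l, T * (T + R).choose l + T * d.𝒞.card ≤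
      T * d.good.card + T * G.card +
      ((T + R).choose (l + 1) + (T.choose (l + 1) + R * T.choose l) + l * (T + R).choose l) := by
  classical
  have hsum : ∑ a : ZMod T, (T * ((Bk l G a).card + (U6 (T := T) (R := R) l a).card +
      (U4 (T := T) (R := R) l a).card)) ≤ ∑ _a : ZMod T, ((T + R).choose (l + 1) +
        (T.choose (l + 1) + R * T.choose l) + l * (T + R).choose l) := by
    rw [← mul_sum, sum_const, card_univ, ZMod.card, smul_eq_mul, sum_add_distrib, sum_add_distrib]
    exact Nat.mul_le_mul_left _ (Nat.add_le_add (Nat.add_le_add (sum_Bk G) sum_U6) sum_U4)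
  obtain ⟨a, _, ha⟩ := exists_le_of_sum_le (univ_nonempty (α := ZMod T)) hsum
  refine ⟨dat hl G hG a, ?_⟩
  have h1 := card_good hl G hG a
  have h2 : (dat hl G hG a).𝒞 = Bk l G a := rfl
  rw [h2]
  have h3 := Nat.mul_le_mul_left T h1
  nlinarith

end Pool.Agent.TH481.Typ
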