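import Mathlib
import Pool.Agent.TH481.Typ

set_option autoImplicit false

/-!
Limits.
-/

namespace Pool.Agent.TH481.Lim

open Finset Filter Topology

/-- `C(n,r) / n^r → 1 / r!` -/
lemma tendsto_choose (r : ℕ) : Tendsto (fun n : ℕ => ((n.choose r : ℕ) : ℝ) / (n : ℝ) ^ r) atTop
    (𝓝 (1 / (r.factorial : ℝ))) := by
  have h := isEquivalent_choose r
  have hr : (0 : ℝ) < r.factorial := by exact_mod_cast Nat.factorial_pos r
  have hz : ∀ᶠ n : ℕ in atTop, (fun n : ℕ => (n : ℝ) ^ r / (r.factorial : ℝ)) n ≠ 0 := by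
    filter_upwards [eventually_gt_atTop 0] with n hn
    have : (0 : ℝ) < n := by exact_mod_cast hn
    positivity
  have h1 := ((Asymptotics.isEquivalent_iff_tendsto_one hz).1 h).mul_const (1 / (r.factorial : ℝ))
  rw [one_mul] at h1
  refine h1.congr' ?_
  filter_upwards [eventually_gt_atTop 0] with n hn
  have h2 : (0 : ℝ) < n := by exact_mod_cast hn
  simp only [Pi.div_apply]
  field_simp

/-- `n^r / C(n,r) → r!` -/
lemma tendsto_choose' (r : ℕ) : Tendsto (fun n : ℕ => (n : ℝ) ^ r / ((n.choose r : ℕ) : ℝ)) atTop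
    (𝓝 (r.factorial : ℝ)) := by
  have hr : (0 : ℝ) < r.factorial := by exact_mod_cast Nat.factorial_pos r
  have h := (tendsto_choose r).inv₀ (by positivity)
  have e : (1 / (r.factorial : ℝ))⁻¹ = (r.factorial : ℝ) := by field_simp
  rw [e] at h
  refine h.congr ?_
  intro n
  rw [inv_div]

/-- `⌊n/κ⌋ / n → 1/κ` -/
lemma tendsto_div {κ : ℕ} (hκ : 0 < κ) : Tendsto (fun n : ℕ => ((n / κ : ℕ) : ℝ) / (n : ℝ)) atTop
    (𝓝 (1 / (κ : ℝ))) := by
  have h0 : (0 : ℝ) ≤ 1 / (κ : ℝ) := by positivity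
  have h := (tendsto_nat_floor_mul_div_atTop h0).comp (tendsto_natCast_atTop_atTop (R := ℝ))
  refine h.congr ?_
  intro n
  simp only [Function.comp_apply]
  rw [← Nat.floor_div_eq_div (K := ℝ) n κ, one_div_mul_eq_div]

lemma tendsto_r {κ : ℕ} (hκ : 0 < κ) (l : ℕ) : Tendsto (fun n : ℕ =>
    ((n / κ : ℕ) : ℝ) ^ l / ((n.choose l : ℕ) : ℝ)) atTop
    (𝓝 ((l.factorial : ℝ) / (κ : ℝ) ^ l)) := by
  have h := ((tendsto_div hκ).pow l).mul (tendsto_choose' l)
  have e : (1 / (κ : ℝ)) ^ l * (l.factorial : ℝ) = (l.factorial : ℝ) / (κ : ℝ) ^ l := by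
    rw [div_pow, one_pow]; ring
  rw [e] at h
  refine h.congr' ?_
  filter_upwards [eventually_gt_atTop 0] with n hn
  have h2 : (0 : ℝ) < n := by exact_mod_cast hn
  rw [div_pow]
  field_simp

lemma tendsto_r' {κ : ℕ} (hκ : 0 < κ) {l : ℕ} (hl : 1 ≤ l) : Tendsto (fun n : ℕ =>
    ((n / κ : ℕ) : ℝ) ^ (l - 1) / ((n.choose l : ℕ) : ℝ)) atTop (𝓝 0) := by
  have h1 := ((tendsto_div hκ).pow (l - 1)).mul (tendsto_choose' l)
  have h2 : Tendsto (fun n : ℕ => 1 / (n : ℝ)) atTop (𝓝 0) := tendsto_one_div_atTop_nhds_zero_nat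
  have h := h1.mul h2
  rw [mul_zero] at h
  refine h.congr' ?_
  filter_upwards [eventually_gt_atTop 0] with n hn
  have h3 : (0 : ℝ) < n := by exact_mod_cast hn
  rw [div_pow]
  obtain ⟨k, rfl⟩ : ∃ k, l = k + 1 := ⟨l - 1, by omega⟩
  rw [Nat.add_sub_cancel, pow_succ]
  field_simp

/-- The limit `n → ∞` for fixed data on the level of types. -/
lemma limB {K : Type} [DecidableEq K] [Fintype K] {l : ℕ} (d : Gen.Data K l)
    (hK : 0 < Fintype.card K) {ε : ℝ} (hε : 0 < ε) :
    ∀ᶠ n : ℕ in atTop, ∃ 𝒜 : Finset (Finset (Fin n)), IsFlatMax l 𝒜 ∧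
      (𝒜.card : ℝ) ≤ (1 - ((d.good.card : ℝ) - (d.𝒞.card : ℝ)) * ((l.factorial : ℝ) /
        (Fintype.card K : ℝ) ^ l) + ε) * ((n.choose l : ℕ) : ℝ) := by
  set κ := Fintype.card K with hκ
  set g : ℝ := (d.good.card : ℝ) with hg
  set c : ℝ := (d.𝒞.card : ℝ) with hc
  set E : ℝ := c * c * ((l : ℝ) + 1) with hE
  have hl := d.hl
  have t1 := ((tendsto_r hK l).const_mul (c - g)).add ((tendsto_r' hK (by omega : 1 ≤ l)).const_mul E)
  rw [mul_zero, add_zero] at t1
  have t2 : ∀ᶠ n : ℕ in atTop, (c - g) * (((n / κ : ℕ) : ℝ) ^ l / ((n.choose l : ℕ) : ℝ)) +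
      E * (((n / κ : ℕ) : ℝ) ^ (l - 1) / ((n.choose l : ℕ) : ℝ)) <
      (c - g) * ((l.factorial : ℝ) / (κ : ℝ) ^ l) + ε :=
    t1.eventually (gt_mem_nhds (by linarith))
  filter_upwards [t2, eventually_ge_atTop (κ * (d.𝒞.card + 1)), eventually_ge_atTop (l + 1)]
    with n hn1 hn2 hn3
  set q := n / κ with hq
  have hqc : d.𝒞.card + 1 ≤ q := by
    rw [hq, Nat.le_div_iff_mul_le hK, mul_comm]
    exact hn2
  have : NeZero q := ⟨by omega⟩
  have hn : κ * q + n % κ = n := Nat.div_add_mod n κ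
  obtain ⟨𝒜, h1, h2⟩ := Gen.main (q := q) (s := n % κ) d (by omega) (by rw [hn]; exact hn3)
  rw [hn] at h2
  have hcard : Fintype.card (Gen.Vx K q (n % κ)) = n := by rw [Gen.card_Vx]; exact hn
  obtain ⟨h3, h4⟩ := h1.map (Fintype.equivFinOfCardEq hcard)
  refine ⟨_, h3, ?_⟩
  rw [h4]
  have hNpos : (0 : ℝ) < ((n.choose l : ℕ) : ℝ) := by
    exact_mod_cast Nat.choose_pos (by omega)
  set N : ℝ := ((n.choose l : ℕ) : ℝ) with hN
  have h5 : (𝒜.card : ℝ) + g * (q : ℝ) ^ l ≤ c * (q : ℝ) ^ l + N +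
      c * c * (((l : ℝ) + 1) * (q : ℝ) ^ (l - 1)) := by
    rw [hg, hc, hN]
    exact_mod_cast h2
  have h6 : ((c - g) * ((q : ℝ) ^ l / N) + E * ((q : ℝ) ^ (l - 1) / N)) * N =
      (c - g) * (q : ℝ) ^ l + E * (q : ℝ) ^ (l - 1) := by
    field_simp
  have h7 := mul_le_mul_of_nonneg_right hn1.le hNpos.le
  rw [h6] at h7
  have h8 : E * (q : ℝ) ^ (l - 1) = c * c * (((l : ℝ) + 1) * (q : ℝ) ^ (l - 1)) := by
    rw [hE]; ring
  have h9 : (1 - (g - c) * ((l.factorial : ℝ) / (κ : ℝ) ^ l) + ε) * N =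
      N + ((c - g) * ((l.factorial : ℝ) / (κ : ℝ) ^ l) + ε) * N := by ring
  rw [h9]
  linarith

/-- `K_{l+1}^l`-free `l`-uniform hypergraphs -/
def Free {α : Type} (l : ℕ) (H : Finset (Finset α)) : Prop :=
  (∀ A ∈ H, A.card = l) ∧ ∀ C : Finset α, C.card = l + 1 →
    ∃ A : Finset α, A ⊆ C ∧ A.card = l ∧ A ∉ H

/-- the Turán number -/
noncomputable def ex (n l : ℕ) : ℕ :=
  sSup {m | ∃ H : Finset (Finset (Fin n)), Free l H ∧ H.card = m}

lemma free_empty {n l : ℕ} : Free l (∅ : Finset (Finset (Fin n))) := by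
  refine ⟨by simp, ?_⟩
  intro C hC
  obtain ⟨A, hA, hAc⟩ := exists_subset_card_eq (s := C) (n := l) (by omega)
  exact ⟨A, hA, hAc, by simp⟩

lemma card_le_choose {n l : ℕ} {H : Finset (Finset (Fin n))} (h : Free l H) :
    H.card ≤ n.choose l := by
  have : H ⊆ powersetCard l univ := by
    intro A hA
    rw [mem_powersetCard]
    exact ⟨subset_univ _, h.1 A hA⟩
  have := card_le_card this
  rw [card_powersetCard, card_univ, Fintype.card_fin] at this
  exact this

lemma bdd (n l : ℕ) : BddAbove {m | ∃ H : Finset (Finset (Fin n)), Free l H ∧ H.card = m} := by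
  refine ⟨n.choose l, ?_⟩
  rintro m ⟨H, hH, rfl⟩
  exact card_le_choose hH

lemma exists_ex (n l : ℕ) : ∃ H : Finset (Finset (Fin n)), Free l H ∧ H.card = ex n l := by
  have h : ex n l ∈ {m | ∃ H : Finset (Finset (Fin n)), Free l H ∧ H.card = m} :=
    Nat.sSup_mem ⟨0, ∅, free_empty, card_empty⟩ (bdd n l)
  exact h

lemma le_ex {n l : ℕ} {H : Finset (Finset (Fin n))} (h : Free l H) : H.card ≤ ex n l :=
  le_csSup (bdd n l) ⟨H, h, rfl⟩

lemma ex_le (n l : ℕ) : ex n l ≤ n.choose l := by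
  obtain ⟨H, h, he⟩ := exists_ex n l
  rw [← he]
  exact card_le_choose h

lemma Free.map {α β : Type} [DecidableEq α] [DecidableEq β] {l : ℕ} (φ : α ≃ β)
    {H : Finset (Finset α)} (h : Free l H) :
    Free l (H.image (fun A => A.map φ.toEmbedding)) ∧
      (H.image (fun A => A.map φ.toEmbedding)).card = H.card := by
  refine ⟨⟨?_, ?_⟩, card_image_of_injective _ (map_injective _)⟩
  · intro A hA
    rw [mem_image] at hA
    obtain ⟨B, hB, rfl⟩ := hA
    rw [card_map]
    exact h.1 B hB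
  · intro C hC
    obtain ⟨A, hA, hAc, hAH⟩ := h.2 (C.map φ.symm.toEmbedding) (by rw [card_map, hC])
    have hCC : (C.map φ.symm.toEmbedding).map φ.toEmbedding = C := by
      rw [Finset.map_map]
      convert Finset.map_refl
      ext x
      simp
    refine ⟨A.map φ.toEmbedding, ?_, by rw [card_map, hAc], ?_⟩
    · rw [← hCC]
      exact map_subset_map.2 hA
    · rw [mem_image]
      rintro ⟨B, hB, hBA⟩
      have := map_injective _ hBA
      exact hAH (this ▸ hB)

lemma exists_ex' {α : Type} [DecidableEq α] [Fintype α] {n : ℕ} (l : ℕ)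
    (hn : Fintype.card α = n) :
    ∃ H : Finset (Finset α), Free l H ∧ H.card = ex n l := by
  obtain ⟨H, h, he⟩ := exists_ex n l
  obtain ⟨h1, h2⟩ := h.map (Fintype.equivFinOfCardEq hn).symm
  exact ⟨_, h1, h2.trans he⟩

/-- averaging -/
lemma ex_succ (n l : ℕ) : ex (n + 1) l * (n + 1 - l) ≤ (n + 1) * ex n l := by
  classical
  obtain ⟨H, h, he⟩ := exists_ex (n + 1) l
  rw [← he]
  have h1 : ∀ v : Fin (n + 1), (H.filter (fun A => v ∉ A)).card ≤ ex n l := by
    intro v
    set H' : Finset (Finset (Fin n)) := univ.filter (fun B => B.map v.succAboveEmb ∈ H) with hH'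
    have hfree : Free l H' := by
      constructor
      · intro B hB
        rw [hH', mem_filter] at hB
        rw [← card_map v.succAboveEmb]
        exact h.1 _ hB.2
      · intro C hC
        obtain ⟨A, hA, hAc, hAH⟩ := h.2 (C.map v.succAboveEmb) (by rw [card_map, hC])
        obtain ⟨B, hB, rfl⟩ : ∃ B ⊆ C, A = B.map v.succAboveEmb := by
          refine ⟨C.filter (fun x => v.succAboveEmb x ∈ A), filter_subset _ _, ?_⟩
          ext y
          rw [Finset.mem_map]
          constructor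
          · intro hy
            obtain ⟨x, hx, rfl⟩ := Finset.mem_map.1 (hA hy)
            exact ⟨x, mem_filter.2 ⟨hx, hy⟩, rfl⟩
          · rintro ⟨x, hx, rfl⟩
            exact (mem_filter.1 hx).2
        refine ⟨B, hB, by rw [card_map] at hAc; exact hAc, ?_⟩
        intro hB'
        rw [hH', mem_filter] at hB'
        exact hAH hB'.2
    refine le_trans ?_ (le_ex hfree)
    have : H.filter (fun A => v ∉ A) ⊆ H'.image (fun B => B.map v.succAboveEmb) := by
      intro A hA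
      rw [mem_filter] at hA
      rw [mem_image]
      have hAA : (univ.filter (fun x => v.succAboveEmb x ∈ A)).map v.succAboveEmb = A := by
        ext y
        rw [Finset.mem_map]
        constructor
        · rintro ⟨x, hx, rfl⟩
          exact (mem_filter.1 hx).2
        · intro hy
          have hyv : y ≠ v := fun h' => hA.2 (h' ▸ hy)
          obtain ⟨x, hx⟩ := Fin.exists_succAbove_eq hyv
          refine ⟨x, mem_filter.2 ⟨mem_univ _, ?_⟩, hx⟩
          change v.succAbove x ∈ A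
          rw [hx]; exact hy
      refine ⟨_, ?_, hAA⟩
      rw [hH', mem_filter]
      exact ⟨mem_univ _, by rw [hAA]; exact hA.1⟩
    exact (card_le_card this).trans card_image_le
  have h2 : ∑ v : Fin (n + 1), (H.filter (fun A => v ∉ A)).card = H.card * (n + 1 - l) := by
    have e := sum_card_bipartiteAbove_eq_sum_card_bipartiteBelow (s := (univ : Finset (Fin (n + 1))))
      (t := H) (fun (v : Fin (n + 1)) (A : Finset (Fin (n + 1))) => v ∉ A)
    unfold bipartiteAbove bipartiteBelow at e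
    rw [e, sum_const_nat]
    intro A hA
    have : (univ.filter (fun v => v ∉ A)) = univ \ A := by
      ext x; simp
    rw [this, card_sdiff_of_subset (subset_univ _), card_univ, Fintype.card_fin, h.1 A hA]
  rw [← h2]
  refine (sum_le_card_nsmul _ _ _ (fun v _ => h1 v)).trans ?_
  rw [card_univ, Fintype.card_fin, smul_eq_mul]

/-- the Turán density exists -/
lemma exists_lim (l : ℕ) : ∃ t : ℝ, Tendsto (fun n : ℕ => (ex n l : ℝ) / ((n.choose l : ℕ) : ℝ))
    atTop (𝓝 t) := by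
  have hanti : Antitone (fun n : ℕ => (ex (n + l) l : ℝ) / (((n + l).choose l : ℕ) : ℝ)) := by
    apply antitone_nat_of_succ_le
    intro n
    have h1 := ex_succ (n + l) l
    have e1 : n + l + 1 - l = n + 1 := by omega
    rw [e1] at h1
    have e2 : n + 1 + l = n + l + 1 := by ring
    rw [e2]
    have h2 : (n + l + 1).choose l * (n + 1) = (n + l + 1) * (n + l).choose l := by
      have := Nat.add_one_mul_choose_eq (n + l) (n)
      have e3 : (n + l).choose n = (n + l).choose l := by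
        rw [Nat.choose_symm_add]
      have e4 : (n + l + 1).choose (n + 1) = (n + l + 1).choose l := by
        have : n + l + 1 = (n + 1) + l := by ring
        rw [this, Nat.choose_symm_add]
      rw [e3, e4] at this
      exact this.symm
    have p1 : (0 : ℝ) < (((n + l).choose l : ℕ) : ℝ) := by
      exact_mod_cast Nat.choose_pos (by omega)
    have p2 : (0 : ℝ) < (((n + l + 1).choose l : ℕ) : ℝ) := by
      exact_mod_cast Nat.choose_pos (by omega)
    rw [div_le_div_iff₀ p2 p1]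
    have h3 : (ex (n + l + 1) l : ℝ) * ((n : ℝ) + 1) ≤ ((n : ℝ) + l + 1) * (ex (n + l) l : ℝ) := by
      exact_mod_cast h1
    have h4 : (((n + l + 1).choose l : ℕ) : ℝ) * ((n : ℝ) + 1) =
        ((n : ℝ) + l + 1) * (((n + l).choose l : ℕ) : ℝ) := by
      exact_mod_cast h2
    have p3 : (0 : ℝ) < (n : ℝ) + 1 := by positivity
    have p4 : (0 : ℝ) < (n : ℝ) + l + 1 := by positivity
    have h5 : (ex (n + l + 1) l : ℝ) * (((n + l).choose l : ℕ) : ℝ) * ((n : ℝ) + 1) ≤
        (ex (n + l) l : ℝ) * (((n + l + 1).choose l : ℕ) : ℝ) * ((n : ℝ) + 1) := by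
      calc (ex (n + l + 1) l : ℝ) * (((n + l).choose l : ℕ) : ℝ) * ((n : ℝ) + 1)
          = ((ex (n + l + 1) l : ℝ) * ((n : ℝ) + 1)) * (((n + l).choose l : ℕ) : ℝ) := by ring
        _ ≤ (((n : ℝ) + l + 1) * (ex (n + l) l : ℝ)) * (((n + l).choose l : ℕ) : ℝ) :=
            mul_le_mul_of_nonneg_right h3 p1.le
        _ = (ex (n + l) l : ℝ) * (((n : ℝ) + l + 1) * (((n + l).choose l : ℕ) : ℝ)) := by ring
        _ = (ex (n + l) l : ℝ) * ((((n + l + 1).choose l : ℕ) : ℝ) * ((n : ℝ) + 1)) := by rw [h4]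
        _ = _ := by ring
    exact le_of_mul_le_mul_right h5 p3
  have hb : BddBelow (Set.range (fun n : ℕ => (ex (n + l) l : ℝ) /
      (((n + l).choose l : ℕ) : ℝ))) := by
    refine ⟨0, ?_⟩
    rintro x ⟨n, rfl⟩
    positivity
  have hlim := tendsto_atTop_ciInf hanti hb
  exact ⟨_, (tendsto_add_atTop_iff_nat (f := fun n : ℕ => (ex n l : ℝ) /
    ((n.choose l : ℕ) : ℝ)) l).1 hlim⟩

end Pool.Agent.TH481.Lim
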