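import Mathlib
import Pool.Agent.TH481.Lim

set_option autoImplicit false

/-!
The upper bound in terms of the Turán density.
-/

namespace Pool.Agent.TH481.Upper

open Finset Filter Topology
open Pool.Agent.TH481.Lim

/-- number of ordinary types -/
noncomputable def Tn (σ : ℝ) (N : ℕ) : ℕ := N - ⌊σ * N⌋₊

lemma floor_le {σ : ℝ} (_hσ : 0 ≤ σ) (hσ1 : σ < 1) (N : ℕ) : ⌊σ * N⌋₊ ≤ N := by
  have h : (0 : ℝ) ≤ N := Nat.cast_nonneg N
  have h1 : σ * N ≤ N := by nlinarith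
  calc ⌊σ * N⌋₊ ≤ ⌊(N : ℝ)⌋₊ := Nat.floor_mono h1
    _ = N := Nat.floor_natCast N

lemma cast_Tn {σ : ℝ} (hσ : 0 ≤ σ) (hσ1 : σ < 1) (N : ℕ) :
    (Tn σ N : ℝ) = N - (⌊σ * N⌋₊ : ℝ) := by
  unfold Tn
  rw [Nat.cast_sub (floor_le hσ hσ1 N)]

lemma tendsto_R {σ : ℝ} (hσ : 0 ≤ σ) :
    Tendsto (fun N : ℕ => ((⌊σ * N⌋₊ : ℕ) : ℝ) / (N : ℝ)) atTop (𝓝 σ) :=
  (tendsto_nat_floor_mul_div_atTop hσ).comp (tendsto_natCast_atTop_atTop (R := ℝ))

lemma tendsto_T {σ : ℝ} (hσ : 0 ≤ σ) (hσ1 : σ < 1) :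
    Tendsto (fun N : ℕ => ((Tn σ N : ℕ) : ℝ) / (N : ℝ)) atTop (𝓝 (1 - σ)) := by
  have h := (tendsto_const_nhds (x := (1 : ℝ))).sub (tendsto_R hσ)
  refine h.congr' ?_
  filter_upwards [eventually_gt_atTop 0] with N hN
  have : (0 : ℝ) < N := by exact_mod_cast hN
  rw [cast_Tn hσ hσ1, sub_div, div_self this.ne']

lemma tendsto_T_atTop {σ : ℝ} (hσ : 0 ≤ σ) (hσ1 : σ < 1) : Tendsto (Tn σ) atTop atTop := by
  have h := (tendsto_T hσ hσ1).pos_mul_atTop (by linarith)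
    (tendsto_natCast_atTop_atTop (R := ℝ))
  rw [← tendsto_natCast_atTop_iff (R := ℝ)]
  refine h.congr' ?_
  filter_upwards [eventually_gt_atTop 0] with N hN
  have : (0 : ℝ) < N := by exact_mod_cast hN
  field_simp

/-- the upper bound function -/
noncomputable def U (l : ℕ) (t σ : ℝ) : ℝ :=
  1 - t + 1 / (((l : ℝ) + 1) * (1 - σ)) + (1 - σ) ^ l / ((l : ℝ) + 1) + σ * (1 - σ) ^ (l - 1)

/-- the error on the level of types -/
noncomputable def X (l : ℕ) (σ : ℝ) (N : ℕ) : ℝ :=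
  ((N.choose (l + 1) : ℕ) : ℝ) + (((Tn σ N).choose (l + 1) : ℕ) : ℝ) +
    (⌊σ * N⌋₊ : ℝ) * (((Tn σ N).choose l : ℕ) : ℝ) + (l : ℝ) * ((N.choose l : ℕ) : ℝ)

lemma tendsto_main {l : ℕ} (hl : 2 ≤ l) {t σ : ℝ} (hσ : 0 ≤ σ) (hσ1 : σ < 1)
    (ht : Tendsto (fun n : ℕ => (ex n l : ℝ) / ((n.choose l : ℕ) : ℝ)) atTop (𝓝 t)) :
    Tendsto (fun N : ℕ => 1 - ((ex N l : ℝ) - X l σ N / (Tn σ N : ℝ)) *
      ((l.factorial : ℝ) / (N : ℝ) ^ l)) atTop (𝓝 (U l t σ)) := by
  have hfac : (0 : ℝ) < l.factorial := by exact_mod_cast Nat.factorial_pos l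
  have hfac1 : ((l + 1).factorial : ℝ) = ((l : ℝ) + 1) * l.factorial := by
    rw [Nat.factorial_succ]; push_cast; ring
  have hσ' : (0 : ℝ) < 1 - σ := by linarith
  have tN := tendsto_T hσ hσ1
  have tTop := tendsto_T_atTop hσ hσ1
  have a1 : Tendsto (fun N : ℕ => (ex N l : ℝ) * ((l.factorial : ℝ) / (N : ℝ) ^ l)) atTop
      (𝓝 t) := by
    have h := (ht.mul (tendsto_choose l)).mul_const (l.factorial : ℝ)
    have e : t * (1 / (l.factorial : ℝ)) * (l.factorial : ℝ) = t := by field_simp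
    rw [e] at h
    refine h.congr' ?_
    filter_upwards [eventually_ge_atTop l, eventually_gt_atTop 0] with N hN hN0
    have p1 : (0 : ℝ) < N := by exact_mod_cast hN0
    have p2 : (0 : ℝ) < ((N.choose l : ℕ) : ℝ) := by exact_mod_cast Nat.choose_pos hN
    field_simp
  have b1 : Tendsto (fun N : ℕ => ((N.choose (l + 1) : ℕ) : ℝ) / (Tn σ N : ℝ) *
      ((l.factorial : ℝ) / (N : ℝ) ^ l)) atTop (𝓝 (1 / (((l : ℝ) + 1) * (1 - σ)))) := by
    have h := ((tendsto_choose (l + 1)).mul (tN.inv₀ hσ'.ne')).mul_const (l.factorial : ℝ)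
    have e : 1 / ((l + 1).factorial : ℝ) * (1 - σ)⁻¹ * (l.factorial : ℝ) =
        1 / (((l : ℝ) + 1) * (1 - σ)) := by
      rw [hfac1]; field_simp
    rw [e] at h
    refine h.congr' ?_
    filter_upwards [eventually_gt_atTop 0, tTop.eventually (eventually_gt_atTop 0)] with N hN hT
    have p1 : (0 : ℝ) < N := by exact_mod_cast hN
    have p2 : (0 : ℝ) < Tn σ N := by exact_mod_cast hT
    rw [pow_succ]
    field_simp
  have b2 : Tendsto (fun N : ℕ => (((Tn σ N).choose (l + 1) : ℕ) : ℝ) / (Tn σ N : ℝ) *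
      ((l.factorial : ℝ) / (N : ℝ) ^ l)) atTop (𝓝 ((1 - σ) ^ l / ((l : ℝ) + 1))) := by
    have h := (((tendsto_choose (l + 1)).comp tTop).mul (tN.pow l)).mul_const (l.factorial : ℝ)
    have e : 1 / ((l + 1).factorial : ℝ) * (1 - σ) ^ l * (l.factorial : ℝ) =
        (1 - σ) ^ l / ((l : ℝ) + 1) := by
      rw [hfac1]; field_simp
    rw [e] at h
    refine h.congr' ?_
    filter_upwards [eventually_gt_atTop 0, tTop.eventually (eventually_gt_atTop 0)] with N hN hT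
    have p1 : (0 : ℝ) < N := by exact_mod_cast hN
    have p2 : (0 : ℝ) < Tn σ N := by exact_mod_cast hT
    simp only [Function.comp_apply]
    rw [pow_succ, div_pow]
    field_simp
  have b3 : Tendsto (fun N : ℕ => (⌊σ * N⌋₊ : ℝ) * (((Tn σ N).choose l : ℕ) : ℝ) /
      (Tn σ N : ℝ) * ((l.factorial : ℝ) / (N : ℝ) ^ l)) atTop (𝓝 (σ * (1 - σ) ^ (l - 1))) := by
    have h := (((tendsto_R hσ).mul ((tendsto_choose l).comp tTop)).mul
      (tN.pow (l - 1))).mul_const (l.factorial : ℝ)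
    have e : σ * (1 / (l.factorial : ℝ)) * (1 - σ) ^ (l - 1) * (l.factorial : ℝ) =
        σ * (1 - σ) ^ (l - 1) := by
      field_simp
    rw [e] at h
    refine h.congr' ?_
    filter_upwards [eventually_gt_atTop 0, tTop.eventually (eventually_gt_atTop 0)] with N hN hT
    have p1 : (0 : ℝ) < N := by exact_mod_cast hN
    have p2 : (0 : ℝ) < Tn σ N := by exact_mod_cast hT
    simp only [Function.comp_apply]
    obtain ⟨k, rfl⟩ : ∃ k, l = k + 1 := ⟨l - 1, by omega⟩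
    rw [Nat.add_sub_cancel, pow_succ, pow_succ, div_pow]
    field_simp
  have b4 : Tendsto (fun N : ℕ => (l : ℝ) * ((N.choose l : ℕ) : ℝ) / (Tn σ N : ℝ) *
      ((l.factorial : ℝ) / (N : ℝ) ^ l)) atTop (𝓝 0) := by
    have h0 : Tendsto (fun N : ℕ => 1 / ((Tn σ N : ℕ) : ℝ)) atTop (𝓝 0) :=
      (tendsto_one_div_atTop_nhds_zero_nat (𝕜 := ℝ)).comp tTop
    have h := ((tendsto_choose l).mul h0).mul_const ((l : ℝ) * (l.factorial : ℝ))
    rw [mul_zero, zero_mul] at h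
    refine h.congr' ?_
    filter_upwards [eventually_gt_atTop 0, tTop.eventually (eventually_gt_atTop 0)] with N hN hT
    have p1 : (0 : ℝ) < N := by exact_mod_cast hN
    have p2 : (0 : ℝ) < Tn σ N := by exact_mod_cast hT
    field_simp
  have h := (tendsto_const_nhds (x := (1 : ℝ))).sub a1
  have h2 := (((h.add b1).add b2).add b3).add b4
  rw [add_zero] at h2
  have e : 1 - t + 1 / (((l : ℝ) + 1) * (1 - σ)) + (1 - σ) ^ l / ((l : ℝ) + 1) +
      σ * (1 - σ) ^ (l - 1) = U l t σ := rfl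
  rw [e] at h2
  refine h2.congr ?_
  intro N
  unfold X
  ring

/-- The upper bound. -/
theorem upper {l : ℕ} (hl : 2 ≤ l) {t σ : ℝ} (hσ : 0 ≤ σ) (hσ1 : σ < 1)
    (ht : Tendsto (fun n : ℕ => (ex n l : ℝ) / ((n.choose l : ℕ) : ℝ)) atTop (𝓝 t))
    {ε : ℝ} (hε : 0 < ε) :
    ∀ᶠ n : ℕ in atTop, ∃ 𝒜 : Finset (Finset (Fin n)), IsFlatMax l 𝒜 ∧
      (𝒜.card : ℝ) ≤ (U l t σ + ε) * ((n.choose l : ℕ) : ℝ) := by
  classical
  have h1 : ∀ᶠ N : ℕ in atTop, 1 - ((ex N l : ℝ) - X l σ N / (Tn σ N : ℝ)) *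
      ((l.factorial : ℝ) / (N : ℝ) ^ l) < U l t σ + ε / 2 :=
    (tendsto_main hl hσ hσ1 ht).eventually (gt_mem_nhds (by linarith))
  obtain ⟨N, hN1, hN2, hN3⟩ := (h1.and ((eventually_gt_atTop 0).and
    ((tendsto_T_atTop hσ hσ1).eventually (eventually_gt_atTop 0)))).exists
  set T := Tn σ N with hT
  set R := ⌊σ * N⌋₊ with hR
  have : NeZero T := ⟨by omega⟩
  have hTR : T + R = N := by
    rw [hT, hR]
    unfold Tn
    have := floor_le hσ hσ1 N
    omega
  have hcard : Fintype.card (Typ.Ty T R) = N := by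
    rw [Fintype.card_sum, ZMod.card, Fintype.card_fin, hTR]
  obtain ⟨H, hH, hHc⟩ := exists_ex' (α := Typ.Ty T R) l hcard
  set G := powersetCard l (univ : Finset (Typ.Ty T R)) \ H with hG
  have hGt : ∀ C : Finset (Typ.Ty T R), C.card = l + 1 → ∃ i ∈ C, C.erase i ∈ G := by
    intro C hC
    obtain ⟨A, hA, hAc, hAH⟩ := hH.2 C hC
    have h2 : (C \ A).card = 1 := by
      rw [card_sdiff_of_subset hA, hC, hAc]; omega
    obtain ⟨i, hi⟩ := card_eq_one.1 h2
    have hiC : i ∈ C := by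
      have : i ∈ C \ A := by rw [hi]; exact mem_singleton_self _
      exact (Finset.mem_sdiff.1 this).1
    have h3 : C.erase i = A := by
      rw [← sdiff_singleton_eq_erase, ← hi, Finset.sdiff_sdiff_eq_self hA]
    refine ⟨i, hiC, ?_⟩
    rw [h3, hG, Finset.mem_sdiff, mem_powersetCard]
    exact ⟨⟨subset_univ _, hAc⟩, hAH⟩
  obtain ⟨d, hd⟩ := Typ.exists_shift hl G hGt
  rw [hTR] at hd
  have hGc : G.card + ex N l = N.choose l := by
    rw [hG, ← hHc]
    have hs : H ⊆ powersetCard l (univ : Finset (Typ.Ty T R)) := by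
      intro A hA
      exact mem_powersetCard.2 ⟨subset_univ _, hH.1 A hA⟩
    have := card_sdiff_add_card_eq_card hs
    rw [card_powersetCard, card_univ, hcard] at this
    exact this
  have hb := limB d (by rw [hcard]; exact hN2) (half_pos hε)
  rw [hcard] at hb
  filter_upwards [hb] with n hn
  obtain ⟨𝒜, h2, h3⟩ := hn
  refine ⟨𝒜, h2, h3.trans ?_⟩
  apply mul_le_mul_of_nonneg_right _ (Nat.cast_nonneg _)
  have hTpos : (0 : ℝ) < T := by exact_mod_cast hN3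
  have hNpos : (0 : ℝ) < N := by exact_mod_cast hN2
  have hfac : (0 : ℝ) < l.factorial := by exact_mod_cast Nat.factorial_pos l
  have e1 : (T : ℝ) * ((N.choose l : ℕ) : ℝ) + T * (d.𝒞.card : ℝ) ≤
      T * (d.good.card : ℝ) + T * (G.card : ℝ) +
      (((N.choose (l + 1) : ℕ) : ℝ) + (((T.choose (l + 1) : ℕ) : ℝ) +
        R * ((T.choose l : ℕ) : ℝ)) + l * ((N.choose l : ℕ) : ℝ)) := by
    exact_mod_cast hd
  have e2 : (G.card : ℝ) + (ex N l : ℝ) = ((N.choose l : ℕ) : ℝ) := by exact_mod_cast hGc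
  have e3 : (T : ℝ) * (ex N l : ℝ) - X l σ N ≤
      T * ((d.good.card : ℝ) - (d.𝒞.card : ℝ)) := by
    unfold X
    rw [← hT, ← hR]
    have : (T : ℝ) * (ex N l : ℝ) = T * ((N.choose l : ℕ) : ℝ) - T * (G.card : ℝ) := by
      rw [← e2]; ring
    rw [this]
    linarith
  have e4 : (ex N l : ℝ) - X l σ N / (T : ℝ) ≤ (d.good.card : ℝ) - (d.𝒞.card : ℝ) := by
    have : (T : ℝ) * ((ex N l : ℝ) - X l σ N / (T : ℝ)) ≤
        T * ((d.good.card : ℝ) - (d.𝒞.card : ℝ)) := by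
      have e5 : (T : ℝ) * ((ex N l : ℝ) - X l σ N / (T : ℝ)) =
          (T : ℝ) * (ex N l : ℝ) - X l σ N := by
        field_simp
      rw [e5]; exact e3
    exact le_of_mul_le_mul_left this hTpos
  have e6 := mul_le_mul_of_nonneg_right e4
    (by positivity : (0 : ℝ) ≤ (l.factorial : ℝ) / (N : ℝ) ^ l)
  linarith

/-- a choice of `σ` -/
lemma exists_sigma {l : ℕ} (hl : 2 ≤ l) (t : ℝ) : ∃ σ : ℝ, 0 ≤ σ ∧ σ < 1 ∧
    U l t σ ≤ 1 - t + 1 / ((l : ℝ) + 1) +
      5 * Real.log ((l : ℝ) + 1) / ((l : ℝ) + 1) ^ 2 := by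
  have hl2 : (2 : ℝ) ≤ l := by exact_mod_cast hl
  set x : ℝ := (l : ℝ) + 1 with hx
  have hx3 : 3 ≤ x := by linarith
  have hxpos : 0 < x := by linarith
  set L := Real.log x with hL
  have hL1 : 1 ≤ L := by
    rw [hL, Real.le_log_iff_exp_le hxpos]
    have := Real.exp_one_lt_d9
    linarith
  by_cases hcase : x ≤ 5 * L
  · refine ⟨0, le_rfl, by norm_num, ?_⟩
    unfold U
    rw [← hx]
    simp only [sub_zero, one_pow, mul_one, add_zero]
    have : 1 / x ≤ 5 * L / x ^ 2 := by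
      rw [div_le_div_iff₀ hxpos (by positivity)]
      nlinarith
    linarith
  · push Not at hcase
    set σ : ℝ := 2 * L / x with hσ
    have hσx : σ * x = 2 * L := by rw [hσ]; field_simp
    have hσ0 : 0 ≤ σ := by rw [hσ]; positivity
    have hσ25 : σ ≤ 2 / 5 := by
      rw [hσ, div_le_iff₀ hxpos]; linarith
    refine ⟨σ, hσ0, by linarith, ?_⟩
    set y : ℝ := 1 - σ with hy
    have hy35 : 3 / 5 ≤ y := by linarith
    have hypos : 0 < y := by linarith
    have hx5 : 5 ≤ x := by linarith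
    have hp : y ^ (l + 1) ≤ 1 / x ^ 2 := by
      have h1 : y ≤ Real.exp (-σ) := by
        have := Real.add_one_le_exp (-σ)
        linarith
      have h2 : y ^ (l + 1) ≤ Real.exp (-σ) ^ (l + 1) := pow_le_pow_left₀ hypos.le h1 _
      have h3 : Real.exp (-σ) ^ (l + 1) = 1 / x ^ 2 := by
        rw [← Real.exp_nat_mul]
        have : ((l + 1 : ℕ) : ℝ) * -σ = -(2 * L) := by
          push_cast
          rw [← hx, ← hσx]; ring
        rw [this, Real.exp_neg, two_mul, Real.exp_add, hL, Real.exp_log hxpos, one_div, sq]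
      rw [h3] at h2
      exact h2
    have hinv : 1 / y ≤ 1 + 5 / 3 * σ := by
      rw [div_le_iff₀ hypos]
      nlinarith
    have hinv1 : 1 / y ≤ 5 / 3 := by
      rw [div_le_iff₀ hypos]; linarith
    have hxx : (0 : ℝ) < 1 / x ^ 2 := by positivity
    have hp1 : y ^ l ≤ 5 / 3 * (1 / x ^ 2) := by
      have : y ^ l = y ^ (l + 1) * (1 / y) := by rw [pow_succ]; field_simp
      rw [this]
      calc y ^ (l + 1) * (1 / y) ≤ 1 / x ^ 2 * (5 / 3) :=
            mul_le_mul hp hinv1 (by positivity) hxx.le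
        _ = _ := by ring
    have hp2 : y ^ (l - 1) ≤ 25 / 9 * (1 / x ^ 2) := by
      have : y ^ (l - 1) = y ^ l * (1 / y) := by
        obtain ⟨k, rfl⟩ : ∃ k, l = k + 1 := ⟨l - 1, by omega⟩
        rw [Nat.add_sub_cancel, pow_succ]; field_simp
      rw [this]
      calc y ^ l * (1 / y) ≤ 5 / 3 * (1 / x ^ 2) * (5 / 3) :=
            mul_le_mul hp1 hinv1 (by positivity) (by positivity)
        _ = _ := by ring
    unfold U
    rw [← hx, ← hy]
    have g1 : 1 / (x * y) ≤ 1 / x + 10 / 3 * L / x ^ 2 := by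
      have : 1 / (x * y) = 1 / x * (1 / y) := by field_simp
      rw [this]
      calc 1 / x * (1 / y) ≤ 1 / x * (1 + 5 / 3 * σ) :=
            mul_le_mul_of_nonneg_left hinv (by positivity)
        _ = 1 / x + 10 / 3 * L / x ^ 2 := by rw [hσ]; field_simp; ring
    have g2 : y ^ l / x ≤ 1 / 3 * L / x ^ 2 := by
      calc y ^ l / x ≤ 5 / 3 * (1 / x ^ 2) / x := div_le_div_of_nonneg_right hp1 hxpos.le
        _ ≤ 1 / 3 * L / x ^ 2 := by
          have e : 5 / 3 * (1 / x ^ 2) / x = (5 / 3 / x) / x ^ 2 := by field_simp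
          rw [e]
          apply div_le_div_of_nonneg_right _ (by positivity)
          rw [div_le_iff₀ hxpos]
          nlinarith
    have g3 : σ * y ^ (l - 1) ≤ 10 / 9 * L / x ^ 2 := by
      calc σ * y ^ (l - 1) ≤ σ * (25 / 9 * (1 / x ^ 2)) := mul_le_mul_of_nonneg_left hp2 hσ0
        _ = (50 / 9 * L / x) / x ^ 2 := by rw [hσ]; field_simp; ring
        _ ≤ 10 / 9 * L / x ^ 2 := by
          apply div_le_div_of_nonneg_right _ (by positivity)
          rw [div_le_iff₀ hxpos]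
          nlinarith
    have g4 : 10 / 3 * L / x ^ 2 + 1 / 3 * L / x ^ 2 + 10 / 9 * L / x ^ 2 ≤ 5 * L / x ^ 2 := by
      rw [← add_div, ← add_div]
      apply div_le_div_of_nonneg_right _ (by positivity)
      linarith
    linarith

end Pool.Agent.TH481.Upper
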