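import Mathlib
import Pool.Agent.TH481.Flat

set_option autoImplicit false

/-!
The construction for `l = 3`: Turan's 3-graph with an exact cover by almost complete 4-sets.
-/

namespace Pool.Agent.TH481.Three

open Finset

/-- vertex set -/
abbrev Vt (M s : ℕ) : Type := (Fin 3 × ZMod M) ⊕ Fin s

/-- the part of a vertex (`3` for the leftover vertices) -/
def col {M s : ℕ} : Vt M s → Fin 4
  | Sum.inl p => p.1.castSucc
  | Sum.inr _ => 3

/-- the label of a vertex -/
def lab {M s : ℕ} : Vt M s → ZMod M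
  | Sum.inl p => p.2
  | Sum.inr _ => 0

lemma ext_col_lab {M s : ℕ} {x y : Vt M s} (h : col x = col y) (h' : lab x = lab y)
    (h3 : col x ≠ 3) : x = y := by
  rcases x with ⟨i, a⟩ | u <;> rcases y with ⟨j, b⟩ | v
  · simp only [col] at h
    simp only [lab] at h'
    rw [Fin.castSucc_inj] at h
    rw [h, h']
  · simp only [col] at h
    exact absurd h (Fin.castSucc_lt_last i).ne
  · exact absurd rfl h3
  · exact absurd rfl h3

/-- colour patterns of the edges of Turan's 3-graph -/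
def pH : Finset (Multiset (Fin 4)) := {{0, 1, 2}, {0, 0, 1}, {1, 1, 2}, {2, 2, 0}}

/-- colour patterns of the extra edges -/
def pR : Finset (Multiset (Fin 4)) := {{0, 0, 0}, {1, 1, 1}, {1, 2, 2}}

/-- the edges of the 3-graph used -/
def isH0 {M s : ℕ} (S : Finset (Vt M s)) : Prop := S.val.map col ∈ pH

def isR {M s : ℕ} (S : Finset (Vt M s)) : Prop := S.val.map col ∈ pR ∧ ∑ x ∈ S, lab x = 0

instance {M s : ℕ} : DecidablePred (@isH0 M s) := fun S => by unfold isH0; infer_instance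
instance {M s : ℕ} : DecidablePred (@isR M s) := fun S => by unfold isR; infer_instance

abbrev th (a b c : Fin 4) : Prop := ({a, b, c} : Multiset (Fin 4)) ∈ pH
abbrev tr (a b c : Fin 4) : Prop := ({a, b, c} : Multiset (Fin 4)) ∈ pR

lemma val_triple {M s : ℕ} {x y z : Vt M s} (hxy : x ≠ y) (hxz : x ≠ z) (hyz : y ≠ z) :
    ({x, y, z} : Finset (Vt M s)).val.map col = ({col x, col y, col z} : Multiset (Fin 4)) := by
  rw [insert_val_of_notMem (by simp [hxy, hxz]), insert_val_of_notMem (by simp [hyz])]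
  simp

lemma isH0_triple {M s : ℕ} {x y z : Vt M s} (hxy : x ≠ y) (hxz : x ≠ z) (hyz : y ≠ z) :
    isH0 ({x, y, z} : Finset (Vt M s)) ↔ th (col x) (col y) (col z) := by
  unfold isH0
  rw [val_triple hxy hxz hyz]

lemma isR_triple {M s : ℕ} {x y z : Vt M s} (hxy : x ≠ y) (hxz : x ≠ z) (hyz : y ≠ z) :
    isR ({x, y, z} : Finset (Vt M s)) ↔
      tr (col x) (col y) (col z) ∧ lab x + lab y + lab z = 0 := by
  unfold isR
  rw [val_triple hxy hxz hyz, sum_insert (by simp [hxy, hxz]), sum_insert (by simp [hyz]),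
    sum_singleton, add_assoc]

/-- boolean versions -/
def thb (a b c : Fin 4) : Bool := decide (th a b c)
def trb (a b c : Fin 4) : Bool := decide (tr a b c)

lemma thb_iff (a b c : Fin 4) : thb a b c = true ↔ th a b c := by unfold thb; simp
lemma trb_iff (a b c : Fin 4) : trb a b c = true ↔ tr a b c := by unfold trb; simp

def okb (a b c d : Fin 4) : Bool :=
  (thb a b d || trb a b d) && (thb a c d || trb a c d) && (thb b c d || trb b c d)

def chk1 (a b c d : Fin 4) : Bool :=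
  !((thb a b c || trb a b c) && okb a b c d && trb a b c && trb a b d) || (decide (c = d) && decide (c ≠ 3))

def two (a b c d : Fin 4) : Bool :=
  (trb a b d && trb a c d) || (trb a b d && trb b c d) || (trb a c d && trb b c d)

def chk3 (a b c d d' : Fin 4) : Bool :=
  !(thb a b c && okb a b c d && okb a b c d' && !(two a b c d) && !(two a b c d')) ||
    (decide (d = d') && decide (d ≠ 3) &&
      ((trb a b d && trb a b d') || (trb a c d && trb a c d') || (trb b c d && trb b c d')))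

lemma pat1b : ∀ a b c d : Fin 4, chk1 a b c d = true := by
  decide +kernel

lemma pat2b : ∀ a b c : Fin 4, (!(thb a b c && trb a b c)) = true := by
  decide +kernel

lemma pat3b : ∀ a b c d d' : Fin 4, chk3 a b c d d' = true := by
  decide +kernel

lemma pat1 (a b c d : Fin 4) (h1 : th a b c ∨ tr a b c) (h2 : th a b d ∨ tr a b d)
    (h3 : th a c d ∨ tr a c d) (h4 : th b c d ∨ tr b c d) (h5 : tr a b c) (h6 : tr a b d) :
    c = d ∧ c ≠ 3 := by
  have h := pat1b a b c d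
  unfold chk1 at h
  have e1 : okb a b c d = true := by
    unfold okb
    simp only [← thb_iff, ← trb_iff, ← Bool.or_eq_true] at h2 h3 h4
    rw [h2, h3, h4]; rfl
  have e2 : (thb a b c || trb a b c) = true := by
    simp only [← thb_iff, ← trb_iff, ← Bool.or_eq_true] at h1
    exact h1
  rw [← trb_iff] at h5 h6
  rw [e1, e2, h5, h6] at h
  simpa using h

lemma pat2 (a b c : Fin 4) (h1 : th a b c) (h2 : tr a b c) : False := by
  have h := pat2b a b c
  rw [← thb_iff] at h1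
  rw [← trb_iff] at h2
  rw [h1, h2] at h
  exact absurd h (by decide)

lemma pat3 (a b c d d' : Fin 4) (h0 : th a b c)
    (h1 : th a b d ∨ tr a b d) (h2 : th a c d ∨ tr a c d) (h3 : th b c d ∨ tr b c d)
    (h1' : th a b d' ∨ tr a b d') (h2' : th a c d' ∨ tr a c d') (h3' : th b c d' ∨ tr b c d')
    (g1 : ¬ (tr a b d ∧ tr a c d)) (g2 : ¬ (tr a b d ∧ tr b c d)) (g3 : ¬ (tr a c d ∧ tr b c d))
    (g1' : ¬ (tr a b d' ∧ tr a c d')) (g2' : ¬ (tr a b d' ∧ tr b c d'))
    (g3' : ¬ (tr a c d' ∧ tr b c d')) :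
    d = d' ∧ d ≠ 3 ∧ ((tr a b d ∧ tr a b d') ∨ (tr a c d ∧ tr a c d') ∨ (tr b c d ∧ tr b c d')) := by
  have h := pat3b a b c d d'
  unfold chk3 at h
  rw [Bool.or_eq_true] at h
  have e1 : okb a b c d = true := by
    unfold okb
    simp only [← thb_iff, ← trb_iff, ← Bool.or_eq_true] at h1 h2 h3
    rw [h1, h2, h3]; rfl
  have e2 : okb a b c d' = true := by
    unfold okb
    simp only [← thb_iff, ← trb_iff, ← Bool.or_eq_true] at h1' h2' h3'
    rw [h1', h2', h3']; rfl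
  have e3 : two a b c d = false := by
    unfold two
    simp only [← trb_iff, ← Bool.and_eq_true, Bool.not_eq_true] at g1 g2 g3
    rw [g1, g2, g3]; rfl
  have e4 : two a b c d' = false := by
    unfold two
    simp only [← trb_iff, ← Bool.and_eq_true, Bool.not_eq_true] at g1' g2' g3'
    rw [g1', g2', g3']; rfl
  rw [← thb_iff] at h0
  rw [h0, e1, e2, e3, e4] at h
  rcases h with h | h
  · exact absurd h (by decide)
  · simp only [Bool.and_eq_true, Bool.or_eq_true, decide_eq_true_eq, trb_iff] at h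
    exact ⟨h.1.1, h.1.2, or_assoc.1 h.2⟩


/-- triple condition -/
def hp {M s : ℕ} (x y z : Vt M s) : Prop :=
  th (col x) (col y) (col z) ∨ (tr (col x) (col y) (col z) ∧ lab x + lab y + lab z = 0)

lemma hp_iff {M s : ℕ} {x y z : Vt M s} (hxy : x ≠ y) (hxz : x ≠ z) (hyz : y ≠ z) :
    (isH0 ({x, y, z} : Finset (Vt M s)) ∨ isR ({x, y, z} : Finset (Vt M s))) ↔ hp x y z := by
  rw [isH0_triple hxy hxz hyz, isR_triple hxy hxz hyz]
  rfl

lemma hp.pat {M s : ℕ} {x y z : Vt M s} (h : hp x y z) :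
    th (col x) (col y) (col z) ∨ tr (col x) (col y) (col z) := by
  rcases h with h | h
  · exact Or.inl h
  · exact Or.inr h.1

lemma hp.sum {M s : ℕ} {x y z : Vt M s} (h : hp x y z) (h' : tr (col x) (col y) (col z)) :
    lab x + lab y + lab z = 0 := by
  rcases h with h | h
  · exact (pat2 _ _ _ h h').elim
  · exact h.2

variable {M s : ℕ} [NeZero M]

/-- the complete 4-sets -/
def BB (M s : ℕ) [NeZero M] : Finset (Finset (Vt M s)) :=
  (powersetCard 4 univ).filter (fun Q => ∀ S ∈ powersetCard 3 Q, isH0 S ∨ isR S)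

lemma mem_BB {Q : Finset (Vt M s)} :
    Q ∈ BB M s ↔ Q.card = 4 ∧ ∀ S ⊆ Q, S.card = 3 → isH0 S ∨ isR S := by
  unfold BB
  rw [mem_filter, mem_powersetCard]
  constructor
  · rintro ⟨⟨_, h⟩, h2⟩
    exact ⟨h, fun S hS hc => h2 S (mem_powersetCard.2 ⟨hS, hc⟩)⟩
  · rintro ⟨h, h2⟩
    refine ⟨⟨subset_univ _, h⟩, fun S hS => ?_⟩
    rw [mem_powersetCard] at hS
    exact h2 S hS.1 hS.2

omit [NeZero M] in
lemma card_trip {x y z : Vt M s} (hxy : x ≠ y) (hxz : x ≠ z) (hyz : y ≠ z) :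
    ({x, y, z} : Finset (Vt M s)).card = 3 := card_eq_three.2 ⟨x, y, z, hxy, hxz, hyz, rfl⟩

lemma BB_hp {Q : Finset (Vt M s)} (hQ : Q ∈ BB M s) {x y z : Vt M s} (hx : x ∈ Q) (hy : y ∈ Q)
    (hz : z ∈ Q) (hxy : x ≠ y) (hxz : x ≠ z) (hyz : y ≠ z) : hp x y z := by
  rw [mem_BB] at hQ
  rw [← hp_iff hxy hxz hyz]
  refine hQ.2 _ ?_ (card_trip hxy hxz hyz)
  intro w hw
  simp only [mem_insert, mem_singleton] at hw
  rcases hw with rfl | rfl | rfl <;> assumption

/-- two distinct triples of a complete 4-set cannot both be extra edges -/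
lemma BB_two {Q : Finset (Vt M s)} (hQ : Q ∈ BB M s) {a b c d : Vt M s} (ha : a ∈ Q) (hb : b ∈ Q)
    (hc : c ∈ Q) (hd : d ∈ Q) (hab : a ≠ b) (hac : a ≠ c) (had : a ≠ d) (hbc : b ≠ c)
    (hbd : b ≠ d) (hcd : c ≠ d) (h1 : tr (col a) (col b) (col c))
    (h2 : tr (col a) (col b) (col d)) : False := by
  have e1 := BB_hp hQ ha hb hc hab hac hbc
  have e2 := BB_hp hQ ha hb hd hab had hbd
  have e3 := BB_hp hQ ha hc hd hac had hcd
  have e4 := BB_hp hQ hb hc hd hbc hbd hcd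
  obtain ⟨h3, h4⟩ := pat1 _ _ _ _ e1.pat e2.pat e3.pat e4.pat h1 h2
  have s1 := e1.sum h1
  have s2 := e2.sum h2
  apply hcd
  apply ext_col_lab h3 _ h4
  have : lab a + lab b + lab c = lab a + lab b + lab d := by rw [s1, s2]
  exact add_left_cancel this

/-- the edges of the Turan 3-graph -/
def H0 (M s : ℕ) [NeZero M] : Finset (Finset (Vt M s)) :=
  (powersetCard 3 univ).filter isH0

lemma mem_H0 {S : Finset (Vt M s)} : S ∈ H0 M s ↔ S.card = 3 ∧ isH0 S := by
  unfold H0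
  rw [mem_filter, mem_powersetCard]
  simp

lemma h1 (Q : Finset (Vt M s)) (hQ : Q ∈ BB M s) :
    3 ≤ ((H0 M s).filter (fun S => S ⊆ Q)).card := by
  have hQ4 := (mem_BB.1 hQ).1
  have hp4 : (powersetCard 3 Q).card = 4 := by
    rw [card_powersetCard, hQ4]; decide
  have hsplit := card_filter_add_card_filter_not (s := powersetCard 3 Q) (fun S => isH0 S)
  have hle : ((powersetCard 3 Q).filter (fun S => ¬ isH0 S)).card ≤ 1 := by
    rw [card_le_one]
    intro S hS S' hS'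
    rw [mem_filter, mem_powersetCard] at hS hS'
    by_contra hne
    have hR : isR S := ((mem_BB.1 hQ).2 S hS.1.1 hS.1.2).resolve_left hS.2
    have hR' : isR S' := ((mem_BB.1 hQ).2 S' hS'.1.1 hS'.1.2).resolve_left hS'.2
    -- an element c of S not in S', an element d of S' not in S
    obtain ⟨c, hcS, hcS'⟩ : ∃ c ∈ S, c ∉ S' := by
      by_contra h
      push Not at h
      exact hne (eq_of_subset_of_card_le h (by rw [hS.1.2, hS'.1.2]))
    obtain ⟨d, hdS', hdS⟩ : ∃ d ∈ S', d ∉ S := by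
      by_contra h
      push Not at h
      exact hne (eq_of_subset_of_card_le h (by rw [hS.1.2, hS'.1.2])).symm
    have hcQ := hS.1.1 hcS
    have hdQ := hS'.1.1 hdS'
    have hcd : c ≠ d := fun h => hdS (h ▸ hcS)
    have hSe : S = Q.erase d := by
      apply eq_of_subset_of_card_le
      · intro x hx
        rw [mem_erase]
        exact ⟨fun h => hdS (h ▸ hx), hS.1.1 hx⟩
      · rw [card_erase_of_mem hdQ, hQ4, hS.1.2]
    have hSe' : S' = Q.erase c := by
      apply eq_of_subset_of_card_le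
      · intro x hx
        rw [mem_erase]
        exact ⟨fun h => hcS' (h ▸ hx), hS'.1.1 hx⟩
      · rw [card_erase_of_mem hcQ, hQ4, hS'.1.2]
    have h2 : ((Q.erase d).erase c).card = 2 := by
      rw [card_erase_of_mem (mem_erase.2 ⟨hcd, hcQ⟩), card_erase_of_mem hdQ, hQ4]
    obtain ⟨a, b, hab, he⟩ := card_eq_two.1 h2
    have ha : a ∈ (Q.erase d).erase c := by rw [he]; simp
    have hb : b ∈ (Q.erase d).erase c := by rw [he]; simp
    rw [mem_erase, mem_erase] at ha hb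
    have hS3 : S = {a, b, c} := by
      rw [hSe, ← insert_erase (mem_erase.2 ⟨hcd, hcQ⟩), he]
      ext x; simp only [mem_insert, mem_singleton]; tauto
    have hS3' : S' = {a, b, d} := by
      rw [hSe', ← insert_erase (mem_erase.2 ⟨hcd.symm, hdQ⟩), erase_right_comm, he]
      ext x; simp only [mem_insert, mem_singleton]; tauto
    rw [hS3, isR_triple hab ha.1 hb.1] at hR
    rw [hS3', isR_triple hab ha.2.1 hb.2.1] at hR'
    exact BB_two hQ ha.2.2 hb.2.2 hcQ hdQ hab ha.1 ha.2.1 hb.1 hb.2.1 hcd hR.1 hR'.1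
  have hge : ((powersetCard 3 Q).filter (fun S => isH0 S)).card ≤
      ((H0 M s).filter (fun S => S ⊆ Q)).card := by
    apply card_le_card
    intro S hS
    rw [mem_filter, mem_powersetCard] at hS
    rw [mem_filter, mem_H0]
    exact ⟨⟨hS.1.2, hS.2⟩, hS.1.1⟩
  omega

lemma h2 (S : Finset (Vt M s)) (hS : S ∈ H0 M s) :
    ((BB M s).filter (fun Q => S ⊆ Q)).card ≤ 1 := by
  rw [card_le_one]
  intro Q hQ Q' hQ'
  rw [mem_filter] at hQ hQ'
  rw [mem_H0] at hS
  obtain ⟨x, y, z, hxy, hxz, hyz, rfl⟩ := card_eq_three.1 hS.1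
  have hth := (isH0_triple hxy hxz hyz).1 hS.2
  have key : ∀ Q ∈ BB M s, ({x, y, z} : Finset (Vt M s)) ⊆ Q →
      ∃ v, v ∉ ({x, y, z} : Finset (Vt M s)) ∧ Q = insert v {x, y, z} := by
    intro Q hQ hsub
    have h4 := (mem_BB.1 hQ).1
    have h3 := card_trip hxy hxz hyz
    have hd : (Q \ {x, y, z}).card = 1 := by
      rw [card_sdiff_of_subset hsub, h4, h3]
    obtain ⟨v, hv⟩ := card_eq_one.1 hd
    have hv' : v ∈ Q \ {x, y, z} := by rw [hv]; simp
    rw [mem_sdiff] at hv'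
    refine ⟨v, hv'.2, ?_⟩
    rw [← sdiff_union_of_subset hsub, hv]
    rfl
  obtain ⟨v, hv, hQv⟩ := key Q hQ.1 hQ.2
  obtain ⟨v', hv', hQv'⟩ := key Q' hQ'.1 hQ'.2
  suffices h : v = v' by rw [hQv, hQv', h]
  simp only [mem_insert, mem_singleton, not_or] at hv hv'
  have hxQ : x ∈ Q := hQ.2 (by simp)
  have hyQ : y ∈ Q := hQ.2 (by simp)
  have hzQ : z ∈ Q := hQ.2 (by simp)
  have hvQ : v ∈ Q := by rw [hQv]; simp
  have hxQ' : x ∈ Q' := hQ'.2 (by simp)
  have hyQ' : y ∈ Q' := hQ'.2 (by simp)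
  have hzQ' : z ∈ Q' := hQ'.2 (by simp)
  have hvQ' : v' ∈ Q' := by rw [hQv']; simp
  have a1 := BB_hp hQ.1 hxQ hyQ hvQ hxy (Ne.symm hv.1) (Ne.symm hv.2.1)
  have a2 := BB_hp hQ.1 hxQ hzQ hvQ hxz (Ne.symm hv.1) (Ne.symm hv.2.2)
  have a3 := BB_hp hQ.1 hyQ hzQ hvQ hyz (Ne.symm hv.2.1) (Ne.symm hv.2.2)
  have a1' := BB_hp hQ'.1 hxQ' hyQ' hvQ' hxy (Ne.symm hv'.1) (Ne.symm hv'.2.1)
  have a2' := BB_hp hQ'.1 hxQ' hzQ' hvQ' hxz (Ne.symm hv'.1) (Ne.symm hv'.2.2)
  have a3' := BB_hp hQ'.1 hyQ' hzQ' hvQ' hyz (Ne.symm hv'.2.1) (Ne.symm hv'.2.2)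
  have trc : ∀ a b c : Fin 4, tr a b c → tr a c b := by
    intro a b c h
    have : ({a, c, b} : Multiset (Fin 4)) = {a, b, c} := by
      rw [Multiset.insert_eq_cons, Multiset.insert_eq_cons, Multiset.insert_eq_cons,
        Multiset.insert_eq_cons]
      congr 1
      exact Multiset.cons_swap _ _ _
    unfold tr
    rw [this]; exact h
  have trs : ∀ a b c : Fin 4, tr a b c → tr b a c := by
    intro a b c h
    have : ({b, a, c} : Multiset (Fin 4)) = {a, b, c} := by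
      rw [Multiset.insert_eq_cons, Multiset.insert_eq_cons, Multiset.insert_eq_cons,
        Multiset.insert_eq_cons]
      exact Multiset.cons_swap _ _ _
    unfold tr
    rw [this]; exact h
  obtain ⟨e1, e2, e3⟩ := pat3 _ _ _ _ _ hth a1.pat a2.pat a3.pat a1'.pat a2'.pat a3'.pat
    (fun h => BB_two hQ.1 hxQ hvQ hyQ hzQ (Ne.symm hv.1) hxy hxz hv.2.1 hv.2.2 hyz
      (trc _ _ _ h.1) (trc _ _ _ h.2))
    (fun h => BB_two hQ.1 hyQ hvQ hxQ hzQ (Ne.symm hv.2.1) (Ne.symm hxy) hyz hv.1 hv.2.2 hxz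
      (trc _ _ _ (trs _ _ _ h.1)) (trc _ _ _ h.2))
    (fun h => BB_two hQ.1 hzQ hvQ hxQ hyQ (Ne.symm hv.2.2) (Ne.symm hxz) (Ne.symm hyz) hv.1 hv.2.1
      hxy (trc _ _ _ (trs _ _ _ h.1)) (trc _ _ _ (trs _ _ _ h.2)))
    (fun h => BB_two hQ'.1 hxQ' hvQ' hyQ' hzQ' (Ne.symm hv'.1) hxy hxz hv'.2.1 hv'.2.2 hyz
      (trc _ _ _ h.1) (trc _ _ _ h.2))
    (fun h => BB_two hQ'.1 hyQ' hvQ' hxQ' hzQ' (Ne.symm hv'.2.1) (Ne.symm hxy) hyz hv'.1 hv'.2.2
      hxz (trc _ _ _ (trs _ _ _ h.1)) (trc _ _ _ h.2))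
    (fun h => BB_two hQ'.1 hzQ' hvQ' hxQ' hyQ' (Ne.symm hv'.2.2) (Ne.symm hxz) (Ne.symm hyz)
      hv'.1 hv'.2.1 hxy (trc _ _ _ (trs _ _ _ h.1)) (trc _ _ _ (trs _ _ _ h.2)))
  apply ext_col_lab e1 _ e2
  rcases e3 with h | h | h
  · exact add_left_cancel ((a1.sum h.1).trans (a1'.sum h.2).symm)
  · exact add_left_cancel ((a2.sum h.1).trans (a2'.sum h.2).symm)
  · exact add_left_cancel ((a3.sum h.1).trans (a3'.sum h.2).symm)

end Pool.Agent.TH481.Three
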