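import Mathlib
import Pool.Agent.TH481.Three

set_option autoImplicit false

/-!
Counting for the construction with `l = 3`.
-/

namespace Pool.Agent.TH481.Three

open Finset

variable {M s : ℕ} [NeZero M]

lemma mem_BB_of {x y z v : Vt M s} (hxy : x ≠ y) (hxz : x ≠ z) (hxv : x ≠ v) (hyz : y ≠ z)
    (hyv : y ≠ v) (hzv : z ≠ v) (e1 : hp x y z) (e2 : hp x y v) (e3 : hp x z v)
    (e4 : hp y z v) : ({x, y, z, v} : Finset (Vt M s)) ∈ BB M s := by
  rw [mem_BB]
  have hc : ({x, y, z, v} : Finset (Vt M s)).card = 4 := by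
    rw [card_insert_of_notMem (by simp [hxy, hxz, hxv]), card_trip hyz hyv hzv]
  refine ⟨hc, fun S hS hS3 => ?_⟩
  obtain ⟨w, hw, hwS⟩ : ∃ w ∈ ({x, y, z, v} : Finset (Vt M s)), w ∉ S := by
    by_contra h
    push Not at h
    have := card_le_card h
    omega
  have hSe : S = ({x, y, z, v} : Finset (Vt M s)).erase w := by
    apply eq_of_subset_of_card_le
    · intro u hu
      rw [mem_erase]
      exact ⟨fun h => hwS (h ▸ hu), hS hu⟩
    · rw [card_erase_of_mem hw, hc, hS3]
  simp only [mem_insert, mem_singleton] at hw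
  rcases hw with rfl | rfl | rfl | rfl
  · have : S = {y, z, v} := by
      rw [hSe]
      apply erase_insert
      simp [hxy, hxz, hxv]
    rw [this]
    exact (hp_iff hyz hyv hzv).2 e4
  · have : S = {x, z, v} := by
      rw [hSe]
      ext u
      simp only [mem_erase, mem_insert, mem_singleton]
      constructor
      · rintro ⟨h1, h2⟩; tauto
      · rintro (rfl | rfl | rfl)
        · exact ⟨hxy, Or.inl rfl⟩
        · exact ⟨hyz.symm, by tauto⟩
        · exact ⟨hyv.symm, by tauto⟩
    rw [this]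
    exact (hp_iff hxz hxv hzv).2 e3
  · have : S = {x, y, v} := by
      rw [hSe]
      ext u
      simp only [mem_erase, mem_insert, mem_singleton]
      constructor
      · rintro ⟨h1, h2⟩; tauto
      · rintro (rfl | rfl | rfl)
        · exact ⟨hxz, Or.inl rfl⟩
        · exact ⟨hyz, by tauto⟩
        · exact ⟨hzv.symm, by tauto⟩
    rw [this]
    exact (hp_iff hxy hxv hyv).2 e2
  · have : S = {x, y, z} := by
      rw [hSe]
      ext u
      simp only [mem_erase, mem_insert, mem_singleton]
      constructor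
      · rintro ⟨h1, h2⟩; tauto
      · rintro (rfl | rfl | rfl)
        · exact ⟨hxv, Or.inl rfl⟩
        · exact ⟨hyv, by tauto⟩
        · exact ⟨hzv, by tauto⟩
    rw [this]
    exact (hp_iff hxy hxz hyz).2 e1

/-- covered edges -/
def cov (M s : ℕ) [NeZero M] : Finset (Finset (Vt M s)) :=
  (H0 M s).filter (fun S => ∃ Q ∈ BB M s, S ⊆ Q)

lemma mem_cov_of {x y z v : Vt M s} (hxy : x ≠ y) (hxz : x ≠ z) (hxv : x ≠ v) (hyz : y ≠ z)
    (hyv : y ≠ v) (hzv : z ≠ v) (e1 : th (col x) (col y) (col z)) (e2 : hp x y v)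
    (e3 : hp x z v) (e4 : hp y z v) : ({x, y, z} : Finset (Vt M s)) ∈ cov M s := by
  unfold cov
  rw [mem_filter, mem_H0]
  refine ⟨⟨card_trip hxy hxz hyz, (isH0_triple hxy hxz hyz).2 e1⟩, {x, y, z, v},
    mem_BB_of hxy hxz hxv hyz hyv hzv (Or.inl e1) e2 e3 e4, ?_⟩
  intro w hw
  simp only [mem_insert, mem_singleton] at hw ⊢
  tauto

/-- vertices -/
abbrev vx {M s : ℕ} (i : Fin 3) (x : ZMod M) : Vt M s := Sum.inl (i, x)

omit [NeZero M] in
lemma vx_ne_col {i j : Fin 3} (h : i ≠ j) (x y : ZMod M) : (vx i x : Vt M s) ≠ vx j y := by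
  intro he
  exact h (by simpa using congrArg (fun v => Sum.elim (fun p => p.1) (fun _ => i) v) he)

omit [NeZero M] in
lemma vx_ne_lab (i j : Fin 3) {x y : ZMod M} (h : x ≠ y) : (vx i x : Vt M s) ≠ vx j y := by
  intro he
  exact h (by simpa using congrArg (fun v => Sum.elim (fun p => p.2) (fun _ => x) v) he)

/-- edges of type `(0,1,2)` -/
def FF (M s : ℕ) (t : ZMod M × ZMod M × ZMod M) : Finset (Vt M s) :=
  {vx 0 t.1, vx 1 t.2.1, vx 2 t.2.2}

/-- edges of type `(i,i,i+1)` -/
def GG (M s : ℕ) (t : Fin 3 × Finset (ZMod M) × ZMod M) : Finset (Vt M s) :=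
  insert (vx (t.1 + 1) t.2.2) (t.2.1.image (fun x => vx t.1 x))

lemma FF_cov {t : ZMod M × ZMod M × ZMod M} (ht : -(t.2.1 + t.2.2) ≠ t.2.2) :
    FF M s t ∈ cov M s := by
  obtain ⟨x, y, z⟩ := t
  simp only at ht
  unfold FF
  refine mem_cov_of (v := vx 2 (-(y + z))) (vx_ne_col (by decide) _ _) (vx_ne_col (by decide) _ _)
    (vx_ne_col (by decide) _ _) (vx_ne_col (by decide) _ _) (vx_ne_col (by decide) _ _)
    (vx_ne_lab _ _ ht.symm) ?_ ?_ ?_ ?_
  · show th 0 1 2
    decide
  · left
    show th 0 1 2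
    decide
  · left
    show th 0 2 2
    decide
  · right
    refine ⟨?_, ?_⟩
    · show tr 1 2 2
      decide
    · show y + z + -(y + z) = 0
      ring

/-- admissible pairs of labels -/
def PP (M : ℕ) [NeZero M] : Finset (Finset (ZMod M)) :=
  (powersetCard 2 univ).filter (fun P => -(∑ x ∈ P, x) ∉ P)

lemma GG_cov {t : Fin 3 × Finset (ZMod M) × ZMod M} (ht : t.2.1 ∈ PP M) :
    GG M s t ∈ cov M s := by
  obtain ⟨i, P, c⟩ := t
  simp only at ht
  unfold PP at ht
  rw [mem_filter, mem_powersetCard] at ht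
  obtain ⟨⟨_, hP2⟩, hP⟩ := ht
  obtain ⟨a, b, hab, rfl⟩ := card_eq_two.1 hP2
  rw [sum_pair hab] at hP
  simp only [mem_insert, mem_singleton, not_or] at hP
  have hG : GG M s (i, {a, b}, c) = {vx i a, vx i b, vx (i + 1) c} := by
    unfold GG
    rw [image_insert, image_singleton]
    ext u
    simp only [mem_insert, mem_singleton]
    tauto
  rw [hG]
  clear hG
  have hxy : (vx i a : Vt M s) ≠ vx i b := vx_ne_lab _ _ hab
  fin_cases i
  · refine mem_cov_of (v := vx 0 (-(a + b))) hxy (vx_ne_col (by decide) _ _)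
      (vx_ne_lab _ _ (Ne.symm hP.1)) (vx_ne_col (by decide) _ _) (vx_ne_lab _ _ (Ne.symm hP.2))
      (vx_ne_col (by decide) _ _) ?_ ?_ ?_ ?_
    · show th 0 0 1
      decide
    · right
      refine ⟨?_, ?_⟩
      · show tr 0 0 0
        decide
      · show a + b + -(a + b) = 0
        ring
    · left
      show th 0 1 0
      decide
    · left
      show th 0 1 0
      decide
  · refine mem_cov_of (v := vx 1 (-(a + b))) hxy (vx_ne_col (by decide) _ _)
      (vx_ne_lab _ _ (Ne.symm hP.1)) (vx_ne_col (by decide) _ _) (vx_ne_lab _ _ (Ne.symm hP.2))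
      (vx_ne_col (by decide) _ _) ?_ ?_ ?_ ?_
    · show th 1 1 2
      decide
    · right
      refine ⟨?_, ?_⟩
      · show tr 1 1 1
        decide
      · show a + b + -(a + b) = 0
        ring
    · left
      show th 1 2 1
      decide
    · left
      show th 1 2 1
      decide
  · refine mem_cov_of (v := vx 1 (-(a + b))) hxy (vx_ne_col (by decide) _ _)
      (vx_ne_col (by decide) _ _) (vx_ne_col (by decide) _ _) (vx_ne_col (by decide) _ _)
      (vx_ne_col (by decide) _ _) ?_ ?_ ?_ ?_
    · show th 2 2 0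
      decide
    · right
      refine ⟨?_, ?_⟩
      · show tr 2 2 1
        decide
      · show a + b + -(a + b) = 0
        ring
    · left
      show th 2 0 1
      decide
    · left
      show th 2 0 1
      decide

/-- labels of the vertices of colour `j` -/
def prj (j : Fin 3) (S : Finset (Vt M s)) : Finset (ZMod M) := univ.filter (fun x => vx j x ∈ S)

lemma prj_FF (j : Fin 3) (x y z : ZMod M) :
    prj j (FF M s (x, y, z)) = {![x, y, z] j} := by
  ext u
  unfold prj FF
  fin_cases j <;> simp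

lemma prj_GG_self (i : Fin 3) (P : Finset (ZMod M)) (c : ZMod M) :
    prj i (GG M s (i, P, c)) = P := by
  ext u
  unfold prj GG
  have hi1 : i ≠ i + 1 := by revert i; decide
  simp [hi1]

lemma prj_GG_succ (i : Fin 3) (P : Finset (ZMod M)) (c : ZMod M) :
    prj (i + 1) (GG M s (i, P, c)) = {c} := by
  ext u
  unfold prj GG
  simp

lemma prj_GG_other (i j : Fin 3) (hj : j ≠ i) (P : Finset (ZMod M)) (c : ZMod M) :
    (prj j (GG M s (i, P, c))).card ≤ 1 := by
  by_cases h : j = i + 1
  · rw [h, prj_GG_succ]; simp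
  · have : prj j (GG M s (i, P, c)) = ∅ := by
      ext u
      unfold prj GG
      simp [h, Ne.symm hj]
    rw [this]; simp

lemma card_PP : M.choose 2 ≤ (PP M).card + M := by
  have hsub : powersetCard 2 (univ : Finset (ZMod M)) ⊆
      PP M ∪ (univ : Finset (ZMod M)).image (fun x => ({x, -(x + x)} : Finset (ZMod M))) := by
    intro P hP
    by_cases h : P ∈ PP M
    · exact mem_union_left _ h
    · apply mem_union_right
      have hP2 := (mem_powersetCard.1 hP).2
      obtain ⟨a, b, hab, rfl⟩ := card_eq_two.1 hP2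
      unfold PP at h
      rw [mem_filter, not_and, not_not] at h
      have h' := h hP
      rw [sum_pair hab] at h'
      simp only [mem_insert, mem_singleton] at h'
      rw [mem_image]
      rcases h' with h' | h'
      · refine ⟨a, mem_univ _, ?_⟩
        have : b = -(a + a) := by linear_combination -h'
        rw [← this]
      · refine ⟨b, mem_univ _, ?_⟩
        have : a = -(b + b) := by linear_combination -h'
        rw [← this, pair_comm]
  have h1 := card_le_card hsub
  rw [card_powersetCard, card_univ, ZMod.card] at h1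
  refine h1.trans ((card_union_le _ _).trans ?_)
  have : ((univ : Finset (ZMod M)).image
      (fun x => ({x, -(x + x)} : Finset (ZMod M)))).card ≤ M := by
    refine card_image_le.trans ?_
    rw [card_univ, ZMod.card]
  omega

/-- domain for `FF` -/
def D1 (M : ℕ) [NeZero M] : Finset (ZMod M × ZMod M × ZMod M) :=
  univ.filter (fun t => -(t.2.1 + t.2.2) ≠ t.2.2)

lemma card_D1 : M ^ 3 ≤ (D1 M).card + M ^ 2 := by
  have h := card_filter_add_card_filter_not (s := (univ : Finset (ZMod M × ZMod M × ZMod M)))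
    (fun t => -(t.2.1 + t.2.2) ≠ t.2.2)
  have h2 : (univ.filter (fun t : ZMod M × ZMod M × ZMod M =>
      ¬ (-(t.2.1 + t.2.2) ≠ t.2.2))).card ≤ M ^ 2 := by
    have : M ^ 2 = (univ : Finset (ZMod M × ZMod M)).card := by
      rw [card_univ, Fintype.card_prod, ZMod.card]; ring
    rw [this]
    apply card_le_card_of_injOn (fun t => (t.1, t.2.2)) (fun _ _ => mem_coe.2 (mem_univ _))
    rintro ⟨x, y, z⟩ h ⟨x', y', z'⟩ h' he
    rw [mem_coe, mem_filter, not_not] at h h'
    simp only [Prod.mk.injEq] at he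
    obtain ⟨rfl, rfl⟩ := he
    have e1 := h.2
    have e2 := h'.2
    simp only at e1 e2
    have : y = y' := by linear_combination e2 - e1
    rw [this]
  have h3 : (univ : Finset (ZMod M × ZMod M × ZMod M)).card = M ^ 3 := by
    rw [card_univ, Fintype.card_prod, Fintype.card_prod, ZMod.card]; ring
  unfold D1
  omega

lemma card_cov : (D1 M).card + 3 * ((PP M).card * M) ≤ (cov M s).card := by
  have hinjF : Set.InjOn (FF M s) (D1 M : Set _) := by
    rintro ⟨x, y, z⟩ _ ⟨x', y', z'⟩ _ he
    have e0 := congrArg (prj 0) he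
    have e1 := congrArg (prj 1) he
    have e2 := congrArg (prj 2) he
    rw [prj_FF, prj_FF] at e0 e1 e2
    simp only [singleton_inj] at e0 e1 e2
    simp at e0 e1 e2
    rw [e0, e1, e2]
  set DG : Finset (Fin 3 × Finset (ZMod M) × ZMod M) :=
    (univ : Finset (Fin 3)) ×ˢ (PP M ×ˢ (univ : Finset (ZMod M))) with hDG
  have hDGmem : ∀ t ∈ DG, t.2.1 ∈ PP M := by
    intro t ht
    rw [hDG, mem_product, mem_product] at ht
    exact ht.2.1
  have hPcard : ∀ P ∈ PP M, P.card = 2 := by
    intro P hP
    unfold PP at hP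
    rw [mem_filter, mem_powersetCard] at hP
    exact hP.1.2
  have hinjG : Set.InjOn (GG M s) (DG : Set _) := by
    rintro ⟨i, P, c⟩ ht ⟨i', P', c'⟩ ht' he
    have hP := hPcard _ (hDGmem _ (mem_coe.1 ht))
    simp only at hP
    have hii : i = i' := by
      by_contra hne
      have e := congrArg (fun S => (prj i S).card) he
      simp only [prj_GG_self] at e
      have := prj_GG_other (M := M) (s := s) i' i hne P' c'
      omega
    subst hii
    have e0 := congrArg (prj i) he
    have e1 := congrArg (prj (i + 1)) he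
    rw [prj_GG_self, prj_GG_self] at e0
    rw [prj_GG_succ, prj_GG_succ, singleton_inj] at e1
    rw [e0, e1]
  have hdisj : Disjoint ((D1 M).image (FF M s)) (DG.image (GG M s)) := by
    rw [disjoint_left]
    intro S hS hS'
    rw [mem_image] at hS hS'
    obtain ⟨⟨x, y, z⟩, _, rfl⟩ := hS
    obtain ⟨⟨i, P, c⟩, ht, he⟩ := hS'
    have hP := hPcard _ (hDGmem _ ht)
    simp only at hP
    have e := congrArg (fun S => (prj i S).card) he
    simp only [prj_GG_self, prj_FF, card_singleton] at e
    omega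
  have hsub : (D1 M).image (FF M s) ∪ DG.image (GG M s) ⊆ cov M s := by
    intro S hS
    rw [mem_union, mem_image, mem_image] at hS
    rcases hS with ⟨t, ht, rfl⟩ | ⟨t, ht, rfl⟩
    · unfold D1 at ht
      rw [mem_filter] at ht
      exact FF_cov ht.2
    · exact GG_cov (hDGmem _ ht)
  have hc := card_le_card hsub
  rw [card_union_of_disjoint hdisj, card_image_of_injOn hinjF, card_image_of_injOn hinjG, hDG,
    card_product, card_product, card_univ, card_univ, Fintype.card_fin, ZMod.card] at hc
  exact hc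

/-- The main counting inequality. -/
lemma main_nat (hn : 4 ≤ 3 * M + s) : IsFlatMax 3 (anti 3 (BB M s)) ∧
    3 * (anti 3 (BB M s)).card + 2 * (cov M s).card ≤ 3 * (3 * M + s).choose 3 := by
  have hcard : Fintype.card (Vt M s) = 3 * M + s := by
    rw [Fintype.card_sum, Fintype.card_prod, Fintype.card_fin, ZMod.card, Fintype.card_fin]
  refine ⟨isFlatMax_anti (by rw [hcard]; exact hn) (fun Q hQ => (mem_BB.1 hQ).1) ?_, ?_⟩
  · intro Q hQ h
    rw [mem_BB]
    refine ⟨hQ, fun S hS hS3 => ?_⟩
    obtain ⟨_, Q', hQ', hSQ'⟩ := mem_shad.1 (h S hS hS3)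
    exact (mem_BB.1 hQ').2 S hSQ' hS3
  · have := card_anti_le (l := 3) (e := 3) (by norm_num) (𝓑 := BB M s) (H0 := H0 M s)
      (fun Q hQ => (mem_BB.1 hQ).1) (fun S hS => (mem_H0.1 hS).1) h1 h2 (D := (cov M s).card)
      (by unfold cov; exact le_rfl)
    rw [hcard] at this
    exact this

end Pool.Agent.TH481.Three
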