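import Pool.Agent.TH481.DenseMinor7

/-! Smallest counterexamples to Hadwiger's conjecture and to its off-by-one form. -/

namespace TH481.DM

open Finset Pool.Agent.W212.EFF

lemma minor_mono {V : Type} (G : SimpleGraph V) (t t' : ℕ) (h : HasCliqueMinor G t)
    (ht : t' ≤ t) : HasCliqueMinor G t' := by
  obtain ⟨f, hfc, hfd, hfa⟩ := h
  exact minor_of_family G f hfc hfd hfa t' (by simpa using ht)

lemma minorIn_singleton {V : Type} (G : SimpleGraph V) (v : V) (t : ℕ) (ht : t ≤ 1) :
    MinorIn G ({v} : Set V) t := by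
  refine ⟨fun _ => {v}, fun _ => subset_refl _, fun _ => connected_singleton G v, ?_, ?_⟩
  · intro i j hij
    exact absurd (Fin.ext (by omega)) hij
  · intro i j hij
    exact absurd (Fin.ext (by omega)) hij

open Classical in
/-- In a minimal counterexample every vertex has a non-neighbour. -/
lemma exists_nonnbr {V : Type} [Fintype V] (G H : SimpleGraph V)
    (hHadj : ∀ u v, H.Adj u v ↔ u ≠ v ∧ ¬ G.Adj u v) (e k : ℕ) (he : e ≤ 1)
    (h1 : ¬ G.Colorable k) (h2 : ¬ HasCliqueMinor G (k + e))
    (hmin : ∀ U : Set V, U ≠ Set.univ → ∀ j, ¬ (G.induce U).Colorable j →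
      HasCliqueMinor (G.induce U) (j + e)) (v : V) : ∃ w, H.Adj v w := by
  by_contra hcon
  push Not at hcon
  refine good_set G e k he h1 h2 hmin {v} ⟨v, by simp⟩ ?_ ?_
  · intro x hx y hy
    rw [mem_singleton] at hx
    rw [mem_compl, mem_singleton] at hy
    subst hx
    by_contra h
    exact hcon y ((hHadj x y).2 ⟨fun h' => hy h'.symm, h⟩)
  · have : Y (Ind G) {v} ≤ 1 := Y_le (Cov.face ((ind_cpx G).single v))
    have h3 := minorIn_singleton G v _ this
    simpa using h3

open Classical in
lemma card_le_edges {V : Type} [Fintype V] (H : SimpleGraph V) (h : ∀ v, ∃ w, H.Adj v w) :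
    Fintype.card V ≤ 2 * H.edgeFinset.card := by
  rw [← H.sum_degrees_eq_twice_card_edges]
  calc Fintype.card V = ∑ _v : V, 1 := by simp
    _ ≤ ∑ v, H.degree v := by
      refine Finset.sum_le_sum (fun v _ => ?_)
      obtain ⟨w, hw⟩ := h v
      rw [Nat.one_le_iff_ne_zero, ← Nat.pos_iff_ne_zero, SimpleGraph.degree_pos_iff_exists_adj]
      exact ⟨w, hw⟩

open Classical in
/-- In a minimal counterexample every component of the complement has many missing edges. -/
lemma comp_large {V : Type} [Fintype V] (G H : SimpleGraph V)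
    (hHadj : ∀ u v, H.Adj u v ↔ u ≠ v ∧ ¬ G.Adj u v) (e k : ℕ) (he : e ≤ 1)
    (h1 : ¬ G.Colorable k) (h2 : ¬ HasCliqueMinor G (k + e))
    (hmin : ∀ U : Set V, U ≠ Set.univ → ∀ j, ¬ (G.induce U).Colorable j →
      HasCliqueMinor (G.induce U) (j + e)) (a : V) :
    (comp H a).card ^ 3 < 64 * (8 * H.edgeFinset.card + (comp H a).card) ^ 2 := by
  by_contra hcon
  have hcrit := crit_of_min G e k he h1 h2 hmin
  have hgood := comp_bad G H hHadj hcrit a (not_lt.1 hcon)
  refine good_set G e k he h1 h2 hmin (comp H a) ⟨a, ?_⟩ ?_ hgood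
  · simp only [comp, mem_filter, mem_univ, true_and]
    exact SimpleGraph.Reachable.refl a
  · intro x hx y hy
    exact comp_joined G H hHadj a x hx y (by rw [mem_compl] at hy; exact hy)

open Classical in
theorem min_hadwiger {V : Type} [Fintype V] (G H : SimpleGraph V)
    (hHadj : ∀ u v, H.Adj u v ↔ u ≠ v ∧ ¬ G.Adj u v) (k : ℕ)
    (h1 : ¬ G.Colorable k) (h2 : ¬ HasCliqueMinor G (k + 1))
    (hmin : ∀ U : Set V, U ≠ Set.univ → ∀ j, ¬ (G.induce U).Colorable j →
      HasCliqueMinor (G.induce U) (j + 1)) :
    Fintype.card V ^ 3 < 6400 * H.edgeFinset.card ^ 2 := by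
  have hn := card_le_edges H (exists_nonnbr G H hHadj 1 k (le_refl 1) h1 h2 hmin)
  obtain ⟨a⟩ : Nonempty V := by
    by_contra hne
    rw [not_nonempty_iff] at hne
    exact h1 ⟨SimpleGraph.Coloring.mk (fun v => (hne.false v).elim)
      (fun {v} => (hne.false v).elim)⟩
  have huniv : comp H a = univ := by
    by_contra hne
    have hne' : ((comp H a : Finset V) : Set V) ≠ Set.univ := by
      intro h
      exact hne (Finset.coe_eq_univ.1 h)
    have hcrit := crit_of_min G 1 k (le_refl 1) h1 h2 hmin
    refine good_set G 1 k (le_refl 1) h1 h2 hmin (comp H a) ⟨a, ?_⟩ ?_ ?_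
    · simp only [comp, mem_filter, mem_univ, true_and]
      exact SimpleGraph.Reachable.refl a
    · intro x hx y hy
      exact comp_joined G H hHadj a x hx y (by rw [mem_compl] at hy; exact hy)
    · rcases Nat.eq_zero_or_pos (Y (Ind G) (comp H a)) with h0 | h0
      · rw [h0]; exact minorIn_zero G _
      · have h3 := hmin _ hne' _ (not_colorable_induce G (comp H a) h0)
        rw [Nat.sub_add_cancel h0] at h3
        exact minorIn_of_induce G _ _ h3
  have h3 := comp_large G H hHadj 1 k (le_refl 1) h1 h2 hmin a
  rw [huniv, Finset.card_univ] at h3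
  have h4 : (8 * H.edgeFinset.card + Fintype.card V) ^ 2 ≤ (10 * H.edgeFinset.card) ^ 2 :=
    Nat.pow_le_pow_left (by omega) 2
  calc Fintype.card V ^ 3 < 64 * (8 * H.edgeFinset.card + Fintype.card V) ^ 2 := h3
    _ ≤ 64 * (10 * H.edgeFinset.card) ^ 2 := Nat.mul_le_mul_left _ h4
    _ = 6400 * H.edgeFinset.card ^ 2 := by ring

open Classical in
theorem min_offbyone {V : Type} [Fintype V] (G H : SimpleGraph V)
    (hHadj : ∀ u v, H.Adj u v ↔ u ≠ v ∧ ¬ G.Adj u v) (k : ℕ)
    (h1 : ¬ G.Colorable k) (h2 : ¬ HasCliqueMinor G k)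
    (hmin : ∀ U : Set V, U ≠ Set.univ → ∀ j, ¬ (G.induce U).Colorable j →
      HasCliqueMinor (G.induce U) j) :
    Fintype.card V ^ 3 < 409600 * H.edgeFinset.card ^ 2 := by
  have hnbr := exists_nonnbr G H hHadj 0 k (by omega) h1 h2 hmin
  have hn := card_le_edges H hnbr
  have hcrit := crit_of_min G 0 k (by omega) h1 h2 hmin
  by_cases hbig : ∃ a, Fintype.card V < 4 * (comp H a).card
  · obtain ⟨a, ha⟩ := hbig
    have h3 := comp_large G H hHadj 0 k (by omega) h1 h2 hmin a
    have hle : (comp H a).card ≤ Fintype.card V := Finset.card_le_univ _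
    have h4 : (8 * H.edgeFinset.card + (comp H a).card) ^ 2 ≤ (10 * H.edgeFinset.card) ^ 2 :=
      Nat.pow_le_pow_left (by omega) 2
    have h5 : Fintype.card V ^ 3 ≤ (4 * (comp H a).card) ^ 3 := Nat.pow_le_pow_left ha.le 3
    calc Fintype.card V ^ 3 ≤ (4 * (comp H a).card) ^ 3 := h5
      _ = 64 * (comp H a).card ^ 3 := by ring
      _ < 64 * (64 * (8 * H.edgeFinset.card + (comp H a).card) ^ 2) :=
          Nat.mul_lt_mul_of_pos_left h3 (by norm_num)
      _ ≤ 64 * (64 * (10 * H.edgeFinset.card) ^ 2) :=
          Nat.mul_le_mul_left _ (Nat.mul_le_mul_left _ h4)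
      _ = 409600 * H.edgeFinset.card ^ 2 := by ring
  · exfalso
    push Not at hbig
    have hsurj : Function.Surjective H.connectedComponentMk := by
      intro C
      induction C using SimpleGraph.ConnectedComponent.ind with
      | _ v => exact ⟨v, rfl⟩
    set rep := Function.surjInv hsurj with hrep
    have hrepq : ∀ C, H.connectedComponentMk (rep C) = C := Function.surjInv_eq hsurj
    have hrepinj : Function.Injective rep := Function.injective_surjInv hsurj
    set S : Finset V := univ.image rep with hS
    have hScard : S.card = Fintype.card H.ConnectedComponent := by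
      rw [hS, Finset.card_image_of_injective _ hrepinj, Finset.card_univ]
    have hcompmem : ∀ C v, v ∈ comp H (rep C) ↔ H.connectedComponentMk v = C := by
      intro C v
      simp only [comp, mem_filter, mem_univ, true_and]
      rw [← SimpleGraph.ConnectedComponent.eq, hrepq]
      exact eq_comm
    have hsum : Fintype.card V = ∑ C : H.ConnectedComponent, (comp H (rep C)).card := by
      rw [← Finset.card_univ, Finset.card_eq_sum_card_fiberwise (s := (univ : Finset V))
        (f := fun v => H.connectedComponentMk v) (t := (univ : Finset H.ConnectedComponent))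
        (by intro x _; simp)]
      refine Finset.sum_congr rfl (fun C _ => ?_)
      congr 1
      ext v
      rw [mem_filter, hcompmem]
      simp
    have htwo : ∀ C, 2 ≤ (comp H (rep C)).card := by
      intro C
      obtain ⟨w, hw⟩ := hnbr (rep C)
      have hsub : ({rep C, w} : Finset V) ⊆ comp H (rep C) := by
        intro x hx
        simp only [comp, mem_filter, mem_univ, true_and]
        rcases mem_insert.1 hx with rfl | hx
        · exact SimpleGraph.Reachable.refl _
        · rw [mem_singleton.1 hx]; exact hw.reachable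
      have := card_le_card hsub
      rwa [card_pair hw.ne] at this
    have h2r : 2 * Fintype.card H.ConnectedComponent ≤ Fintype.card V := by
      rw [hsum]
      calc 2 * Fintype.card H.ConnectedComponent = ∑ _C : H.ConnectedComponent, 2 := by
            simp [mul_comm]
        _ ≤ _ := Finset.sum_le_sum (fun C _ => htwo C)
    have hY : 2 * Y (Ind G) (univ : Finset V) ≤
        Fintype.card V + Fintype.card H.ConnectedComponent := by
      have hun : (univ : Finset V) = (univ : Finset H.ConnectedComponent).biUnion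
          (fun C => comp H (rep C)) := by
        ext v
        simp only [mem_univ, mem_biUnion, true_and, true_iff]
        exact ⟨H.connectedComponentMk v, (hcompmem _ v).2 rfl⟩
      have h3 : Y (Ind G) (univ : Finset V) ≤ ∑ C : H.ConnectedComponent,
          Y (Ind G) (comp H (rep C)) := by
        conv_lhs => rw [hun]
        exact Y_biUnion_le (ind_cpx G) _ _
      calc 2 * Y (Ind G) (univ : Finset V) ≤ 2 * ∑ C : H.ConnectedComponent,
            Y (Ind G) (comp H (rep C)) := Nat.mul_le_mul_left _ h3
        _ = ∑ C : H.ConnectedComponent, 2 * Y (Ind G) (comp H (rep C)) := by rw [Finset.mul_sum]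
        _ ≤ ∑ C : H.ConnectedComponent, ((comp H (rep C)).card + 1) :=
            Finset.sum_le_sum (fun C _ => comp_gallai G H hHadj hcrit (rep C))
        _ = Fintype.card V + Fintype.card H.ConnectedComponent := by
            rw [Finset.sum_add_distrib, ← hsum]; simp
    have hSc : (Sᶜ : Finset V).card = Fintype.card V - Fintype.card H.ConnectedComponent := by
      rw [Finset.card_compl, hScard]
    let eqv := Fintype.equivFin H.ConnectedComponent
    have hminor : HasCliqueMinor G (Y (Ind G) (univ : Finset V)) := by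
      refine cross_pairs G (ι := Fin (Fintype.card H.ConnectedComponent))
        (fun v => eqv (H.connectedComponentMk v)) ?_ S ?_ ?_ _ ?_
      · intro u v huv
        by_contra hcon
        apply huv
        have hne : u ≠ v := by rintro rfl; exact huv rfl
        rw [SimpleGraph.ConnectedComponent.eq.2 ((hHadj u v).2 ⟨hne, hcon⟩).reachable]
      · intro u hu v hv huv
        obtain ⟨C, _, rfl⟩ := mem_image.1 hu
        obtain ⟨C', _, rfl⟩ := mem_image.1 hv
        have := eqv.injective huv
        rw [hrepq, hrepq] at this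
        rw [this]
      · intro a
        have h3 : ((Sᶜ).filter (fun v => eqv (H.connectedComponentMk v) = a)).card ≤
            (comp H (rep (eqv.symm a))).card := by
          apply card_le_card
          intro v hv
          rw [mem_filter] at hv
          rw [hcompmem, ← hv.2, Equiv.symm_apply_apply]
        have h4 := hbig (rep (eqv.symm a))
        rw [hSc]
        omega
      · rw [hScard, hSc]
        omega
    exact h2 (minor_mono G _ _ hminor (lt_Y_univ G k h1).le)

open Classical in
/-- Vertex-critical graphs with connected complement. -/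
theorem crit_conn {V : Type} [Fintype V] (G H : SimpleGraph V)
    (hHadj : ∀ u v, H.Adj u v ↔ u ≠ v ∧ ¬ G.Adj u v) (hconn : H.Connected) (k : ℕ)
    (hcol : ∀ v, (G.induce {v}ᶜ).Colorable k) (h1 : ¬ G.Colorable k)
    (hm : 6400 * H.edgeFinset.card ^ 2 ≤ Fintype.card V ^ 3) (h2 : 2 ≤ Fintype.card V) :
    HasCliqueMinor G (k + 1) := by
  have hk := lt_Y_univ G k h1
  have hY : ∀ v, Y (Ind G) ((univ : Finset V).erase v) ≤ k := by
    intro v
    apply Y_le
    rw [cov_iff, ← colorable_induce_iff]
    have : (((univ : Finset V).erase v : Finset V) : Set V) = {v}ᶜ := by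
      ext w; simp
    rw [this]
    exact hcol v
  obtain ⟨a⟩ := hconn.nonempty
  have huniv : comp H a = univ := by
    ext w
    simp only [comp, mem_filter, mem_univ, true_and, iff_true]
    exact hconn.preconnected a w
  have hg := comp_gallai G H hHadj (fun v => lt_of_le_of_lt (hY v) hk) a
  rw [huniv, card_univ] at hg
  have hn : Fintype.card V ≤ 2 * H.edgeFinset.card := by
    apply card_le_edges
    intro v
    obtain ⟨w, hw⟩ := Fintype.exists_ne_of_one_lt_card (by omega) v
    obtain ⟨p⟩ := hconn.preconnected v w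
    cases p with
    | nil => exact absurd rfl hw
    | cons h _ => exact ⟨_, h⟩
  set n := Fintype.card V
  set m := H.edgeFinset.card
  have hbad : 64 * (8 * m + n) ^ 2 ≤ n ^ 3 := by
    calc 64 * (8 * m + n) ^ 2 ≤ 64 * (10 * m) ^ 2 :=
          Nat.mul_le_mul_left _ (Nat.pow_le_pow_left (by omega) 2)
      _ = 6400 * m ^ 2 := by ring
      _ ≤ n ^ 3 := hm
  refine main2 G H hHadj m (k + 1) (by omega) (le_refl _) hbad ?_
  set M := 8 * m + n with hM
  have h3 : 8 * M ≤ n ^ 2 := by
    have h4 : (8 * M) ^ 2 ≤ (n ^ 2) ^ 2 := by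
      calc (8 * M) ^ 2 = 64 * M ^ 2 := by ring
        _ ≤ n ^ 3 := hbad
        _ ≤ n ^ 4 := Nat.pow_le_pow_right (by omega) (by norm_num)
        _ = (n ^ 2) ^ 2 := by ring
    exact (Nat.pow_le_pow_iff_left (by norm_num)).1 h4
  calc 4 * M * (2 * (k + 1)) ≤ 4 * M * (n + 1) := Nat.mul_le_mul_left _ (by omega)
    _ = 4 * M * n + 4 * M := by ring
    _ ≤ 4 * M * n + n ^ 2 := by omega

end TH481.DM
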