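import Pool.Agent.TH481.Flat

set_option autoImplicit false

/-!
Flat maximal antichains from graphs: the sizes above `T(n,l)`.
-/

namespace Pool.Agent.TH481.AboveT

open Finset Pool.Agent.TH481

open Classical in
/-- the sets of size `k` that contain a related pair -/
noncomputable def tt {β : Type} [DecidableEq β] [Fintype β] (k : ℕ) (R : β → β → Prop) :
    Finset (Finset β) :=
  (powersetCard k (univ : Finset β)).filter (fun T => ∃ x ∈ T, ∃ y ∈ T, R x y)

lemma mem_tt {β : Type} [DecidableEq β] [Fintype β] {k : ℕ} {R : β → β → Prop} {T : Finset β} :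
    T ∈ tt k R ↔ T.card = k ∧ ∃ x ∈ T, ∃ y ∈ T, R x y := by
  classical
  simp only [tt, mem_filter, mem_powersetCard, subset_univ, true_and]

/-- Lifting a graph to a flat maximal antichain. -/
lemma lift {β γ : Type} [DecidableEq β] [Fintype β] [DecidableEq γ] [Fintype γ]
    {l : ℕ} (hl : Fintype.card γ + 2 = l) (hN : l + 1 ≤ Fintype.card β)
    {R : β → β → Prop} (hirr : ∀ x, ¬ R x x)
    (hmax : ∀ x y : β, x ≠ y → ¬ R x y → ¬ R y x → ∃ z, z ≠ x ∧ z ≠ y ∧
      ¬ R x z ∧ ¬ R z x ∧ ¬ R y z ∧ ¬ R z y) :
    ∃ 𝒜 : Finset (Finset (β ⊕ γ)), IsFlatMax l 𝒜 ∧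
      𝒜.card + (tt 3 R).card = (Fintype.card (β ⊕ γ)).choose (l + 1) + (tt 2 R).card := by
  classical
  set 𝓕 : Finset (Finset (β ⊕ γ)) := (tt 2 R).image (fun e => e.disjSum univ) with h𝓕
  set 𝓤 : Finset (Finset (β ⊕ γ)) := (tt 3 R).image (fun e => e.disjSum univ) with h𝓤
  set 𝓑 : Finset (Finset (β ⊕ γ)) :=
    (powersetCard (l + 1) univ).filter (fun S => ∀ f ∈ 𝓕, ¬ f ⊆ S) with h𝓑
  have hinj : Function.Injective (fun e : Finset β => e.disjSum (univ : Finset γ)) := by
    intro e e' h
    ext x
    have : (Sum.inl x ∈ e.disjSum (univ : Finset γ)) ↔ (Sum.inl x ∈ e'.disjSum (univ : Finset γ)) := by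
      show _ ∈ (fun e : Finset β => e.disjSum (univ : Finset γ)) e ↔ _
      rw [h]
    simpa using this
  have hF : 𝓕.card = (tt 2 R).card := card_image_of_injective _ hinj
  have hU : 𝓤.card = (tt 3 R).card := card_image_of_injective _ hinj
  have hB : ∀ Q ∈ 𝓑, Q.card = l + 1 := by
    intro Q hQ
    rw [h𝓑, mem_filter, mem_powersetCard] at hQ
    exact hQ.1.2
  have hFc : ∀ f ∈ 𝓕, f.card = l := by
    intro f hf
    rw [h𝓕, mem_image] at hf
    obtain ⟨e, he, rfl⟩ := hf
    rw [card_disjSum, (mem_tt.1 he).1, card_univ]
    omega
  -- the complement of the upper family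
  have hBU : 𝓑.card + 𝓤.card = (Fintype.card (β ⊕ γ)).choose (l + 1) := by
    have h1 : 𝓤 = (powersetCard (l + 1) univ).filter (fun S => ¬ ∀ f ∈ 𝓕, ¬ f ⊆ S) := by
      ext S
      rw [h𝓤, mem_image, mem_filter, mem_powersetCard]
      constructor
      · rintro ⟨T, hT, rfl⟩
        obtain ⟨hc, x, hx, y, hy, hR⟩ := mem_tt.1 hT
        refine ⟨⟨subset_univ _, ?_⟩, ?_⟩
        · rw [card_disjSum, hc, card_univ]; omega
        · intro h
          have hxy : x ≠ y := by rintro rfl; exact hirr x hR
          refine h (({x, y} : Finset β).disjSum univ) ?_ ?_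
          · rw [h𝓕, mem_image]
            refine ⟨{x, y}, mem_tt.2 ⟨card_pair hxy, x, by simp, y, by simp, hR⟩, rfl⟩
          · apply disjSum_mono _ (subset_univ _)
            intro z hz
            rw [mem_insert, mem_singleton] at hz
            rcases hz with rfl | rfl
            · exact hx
            · exact hy
      · rintro ⟨⟨_, hc⟩, h⟩
        push Not at h
        obtain ⟨f, hf, hfS⟩ := h
        rw [h𝓕, mem_image] at hf
        obtain ⟨e, he, rfl⟩ := hf
        obtain ⟨hec, x, hx, y, hy, hR⟩ := mem_tt.1 he
        have hr : S.toRight = univ := by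
          rw [eq_univ_iff_forall]
          intro g
          rw [mem_toRight]
          exact hfS (by simp)
        refine ⟨S.toLeft, mem_tt.2 ⟨?_, x, ?_, y, ?_, hR⟩, ?_⟩
        · have := card_toLeft_add_card_toRight (u := S)
          rw [hr, card_univ] at this
          omega
        · rw [mem_toLeft]; exact hfS (by simpa using hx)
        · rw [mem_toLeft]; exact hfS (by simpa using hy)
        · rw [← hr]
          exact toLeft_disjSum_toRight
    rw [h1, h𝓑, card_filter_add_card_filter_not, card_powersetCard, card_univ]
  -- the shadow of `𝓑`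
  have hsh : ∀ S : Finset (β ⊕ γ), S.card = l → (S ∈ shad l 𝓑 ↔ S ∉ 𝓕) := by
    intro S hS
    constructor
    · intro h hSF
      obtain ⟨_, Q, hQ, hSQ⟩ := mem_shad.1 h
      rw [h𝓑, mem_filter] at hQ
      exact hQ.2 S hSF hSQ
    · intro hSF
      have hcard := card_toLeft_add_card_toRight (u := S)
      by_cases hr : S.toRight = univ
      · -- a pair
        rw [hr, card_univ] at hcard
        have h2 : S.toLeft.card = 2 := by omega
        obtain ⟨x, y, hxy, hL⟩ := card_eq_two.1 h2
        have hn : ¬ R x y ∧ ¬ R y x := by
          constructor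
          · intro hR
            apply hSF
            rw [h𝓕, mem_image]
            refine ⟨S.toLeft, mem_tt.2 ⟨h2, x, by simp [hL], y, by simp [hL], hR⟩, ?_⟩
            rw [← hr]; exact toLeft_disjSum_toRight
          · intro hR
            apply hSF
            rw [h𝓕, mem_image]
            refine ⟨S.toLeft, mem_tt.2 ⟨h2, y, by simp [hL], x, by simp [hL], hR⟩, ?_⟩
            rw [← hr]; exact toLeft_disjSum_toRight
        obtain ⟨z, hzx, hzy, h3, h4, h5, h6⟩ := hmax x y hxy hn.1 hn.2
        have hzS : Sum.inl z ∉ S := by
          rw [← mem_toLeft, hL]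
          simp [hzx, hzy]
        refine mem_shad.2 ⟨hS, insert (Sum.inl z) S, ?_, subset_insert _ _⟩
        rw [h𝓑, mem_filter, mem_powersetCard]
        refine ⟨⟨subset_univ _, by rw [card_insert_of_notMem hzS, hS]⟩, ?_⟩
        intro f hf hfS
        rw [h𝓕, mem_image] at hf
        obtain ⟨e, he, rfl⟩ := hf
        obtain ⟨hec, u, hu, v, hv, hR⟩ := mem_tt.1 he
        have key : ∀ w ∈ e, w = z ∨ w = x ∨ w = y := by
          intro w hw
          have : (Sum.inl w : β ⊕ γ) ∈ insert (Sum.inl z) S := hfS (by simpa using hw)
          rw [mem_insert] at this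
          rcases this with h | h
          · left; exact Sum.inl_injective h
          · right
            rw [← mem_toLeft, hL] at h
            simpa using h
        rcases key u hu with rfl | rfl | rfl <;> rcases key v hv with rfl | rfl | rfl <;>
          first
            | exact hirr _ hR
            | exact h3 hR
            | exact h4 hR
            | exact h5 hR
            | exact h6 hR
            | exact hn.1 hR
            | exact hn.2 hR
      · -- an element outside on the left
        have h3 : ∃ z : β, z ∉ S.toLeft := by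
          by_contra hcon
          push Not at hcon
          have : S.toLeft = univ := eq_univ_iff_forall.2 hcon
          rw [this, card_univ] at hcard
          omega
        obtain ⟨z, hz⟩ := h3
        have hzS : Sum.inl z ∉ S := by rwa [← mem_toLeft]
        refine mem_shad.2 ⟨hS, insert (Sum.inl z) S, ?_, subset_insert _ _⟩
        rw [h𝓑, mem_filter, mem_powersetCard]
        refine ⟨⟨subset_univ _, by rw [card_insert_of_notMem hzS, hS]⟩, ?_⟩
        intro f hf hfS
        apply hr
        rw [h𝓕, mem_image] at hf
        obtain ⟨e, he, rfl⟩ := hf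
        rw [eq_univ_iff_forall]
        intro g
        have : (Sum.inr g : β ⊕ γ) ∈ insert (Sum.inl z) S := hfS (by simp)
        rw [mem_insert] at this
        rcases this with h | h
        · exact absurd h (by simp)
        · rwa [mem_toRight]
  have hcα : l + 1 ≤ Fintype.card (β ⊕ γ) := by rw [Fintype.card_sum]; omega
  refine ⟨anti l 𝓑, isFlatMax_anti hcα hB ?_, ?_⟩
  · intro Q hQ h
    rw [h𝓑, mem_filter, mem_powersetCard]
    refine ⟨⟨subset_univ _, hQ⟩, ?_⟩
    intro f hf hfQ
    exact (hsh f (hFc f hf)).1 (h f hfQ (hFc f hf)) hf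
  · have h1 := card_anti (l := l) hB
    have h2 : (shad l 𝓑).card + 𝓕.card = (Fintype.card (β ⊕ γ)).choose l := by
      have h3 : shad l 𝓑 = (powersetCard l univ) \ 𝓕 := by
        ext S
        rw [mem_sdiff, mem_powersetCard]
        constructor
        · intro h
          have hc := (mem_shad.1 h).1
          exact ⟨⟨subset_univ _, hc⟩, (hsh S hc).1 h⟩
        · rintro ⟨⟨_, hc⟩, h⟩
          exact (hsh S hc).2 h
      have h4 : 𝓕 ⊆ powersetCard l univ := by
        intro f hf
        rw [mem_powersetCard]
        exact ⟨subset_univ _, hFc f hf⟩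
      rw [h3, card_sdiff_add_card_eq_card h4, card_powersetCard, card_univ]
    omega

/-- One more edge. -/
lemma step {β : Type} [DecidableEq β] [Fintype β] {R R' : β → β → Prop} {x y : β} (hxy : x ≠ y)
    (hirr : ∀ u, ¬ R u u) (hsymm : ∀ u v, R u v → R v u) (hnot : ¬ R x y)
    (hR' : ∀ u v, R' u v ↔ R u v ∨ (u = x ∧ v = y) ∨ (u = y ∧ v = x))
    {W : Finset β} (hW : ∀ z, z ∈ W ↔ z = x ∨ z = y ∨ R x z ∨ R y z) :
    (tt 3 R').card + W.card = (tt 3 R).card + Fintype.card β ∧
      (tt 2 R').card = (tt 2 R).card + 1 := by
  classical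
  constructor
  · have h1 : tt 3 R' = tt 3 R ∪ (univ \ W).image (fun z => ({x, y, z} : Finset β)) := by
      ext T
      rw [mem_union, mem_tt, mem_tt, mem_image]
      constructor
      · rintro ⟨hc, u, hu, v, hv, h⟩
        by_cases hT : ∃ a ∈ T, ∃ b ∈ T, R a b
        · left; exact ⟨hc, hT⟩
        · right
          push Not at hT
          have hxyT : x ∈ T ∧ y ∈ T := by
            rw [hR'] at h
            rcases h with h | ⟨rfl, rfl⟩ | ⟨rfl, rfl⟩
            · exact absurd h (hT u hu v hv)
            · exact ⟨hu, hv⟩
            · exact ⟨hv, hu⟩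
          have hsub : ({x, y} : Finset β) ⊆ T := by
            intro w hw
            rw [mem_insert, mem_singleton] at hw
            rcases hw with rfl | rfl
            · exact hxyT.1
            · exact hxyT.2
          have hc2 : (T \ {x, y}).card = 1 := by
            have := card_sdiff_add_card_eq_card hsub
            rw [card_pair hxy] at this
            omega
          obtain ⟨z, hz⟩ := card_eq_one.1 hc2
          have hzT : z ∈ T \ {x, y} := by rw [hz]; simp
          rw [mem_sdiff, mem_insert, mem_singleton] at hzT
          push Not at hzT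
          refine ⟨z, ?_, ?_⟩
          · rw [mem_sdiff, hW]
            refine ⟨mem_univ _, ?_⟩
            rintro (h | h | h | h)
            · exact hzT.2.1 h
            · exact hzT.2.2 h
            · exact hT x hxyT.1 z hzT.1 h
            · exact hT y hxyT.2 z hzT.1 h
          · ext w
            have : w ∈ T ↔ w ∈ T \ {x, y} ∨ w ∈ ({x, y} : Finset β) := by
              rw [mem_sdiff]
              constructor
              · intro h
                by_cases hw : w ∈ ({x, y} : Finset β)
                · right; exact hw
                · left; exact ⟨h, hw⟩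
              · rintro (h | h)
                · exact h.1
                · exact hsub h
            rw [this, hz]
            simp only [mem_insert, mem_singleton]
            tauto
      · rintro (⟨hc, u, hu, v, hv, h⟩ | ⟨z, hz, rfl⟩)
        · exact ⟨hc, u, hu, v, hv, (hR' u v).2 (Or.inl h)⟩
        · rw [mem_sdiff, hW] at hz
          push Not at hz
          refine ⟨?_, x, by simp, y, by simp, (hR' x y).2 (Or.inr (Or.inl ⟨rfl, rfl⟩))⟩
          rw [card_eq_three]
          exact ⟨x, y, z, hxy, fun h => hz.2.1 h.symm, fun h => hz.2.2.1 h.symm, rfl⟩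
    have h2 : Disjoint (tt 3 R) ((univ \ W).image (fun z => ({x, y, z} : Finset β))) := by
      rw [disjoint_left]
      intro T hT hT'
      rw [mem_image] at hT'
      obtain ⟨z, hz, rfl⟩ := hT'
      rw [mem_sdiff, hW] at hz
      push Not at hz
      obtain ⟨_, u, hu, v, hv, h⟩ := mem_tt.1 hT
      simp only [mem_insert, mem_singleton] at hu hv
      rcases hu with rfl | rfl | rfl <;> rcases hv with rfl | rfl | rfl <;>
        first
          | exact hirr _ h
          | exact hnot h
          | exact hnot (hsymm _ _ h)
          | exact hz.2.2.2.1 h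
          | exact hz.2.2.2.2 h
          | exact hz.2.2.2.1 (hsymm _ _ h)
          | exact hz.2.2.2.2 (hsymm _ _ h)
    have h3 : ((univ \ W).image (fun z => ({x, y, z} : Finset β))).card = (univ \ W).card := by
      apply card_image_of_injOn
      intro z hz z' hz' h
      have hz1 : z ∉ W := by simpa using hz
      have hz2 : z' ∉ W := by simpa using hz'
      rw [hW] at hz1 hz2
      push Not at hz1 hz2
      have : z ∈ ({x, y, z'} : Finset β) := by
        have h' : ({x, y, z} : Finset β) = {x, y, z'} := h
        rw [← h']; simp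
      simp only [mem_insert, mem_singleton] at this
      rcases this with h | h | h
      · exact absurd h hz1.1
      · exact absurd h hz1.2.1
      · exact h
    have h4 := card_sdiff_add_card_eq_card (subset_univ W)
    rw [card_univ] at h4
    rw [h1, card_union_of_disjoint h2, h3]
    omega
  · have h1 : tt 2 R' = insert {x, y} (tt 2 R) := by
      ext T
      rw [mem_insert, mem_tt, mem_tt]
      constructor
      · rintro ⟨hc, u, hu, v, hv, h⟩
        rw [hR'] at h
        rcases h with h | ⟨rfl, rfl⟩ | ⟨rfl, rfl⟩
        · right; exact ⟨hc, u, hu, v, hv, h⟩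
        · left
          symm
          apply eq_of_subset_of_card_le
          · intro w hw
            rw [mem_insert, mem_singleton] at hw
            rcases hw with rfl | rfl
            · exact hu
            · exact hv
          · rw [hc, card_pair hxy]
        · left
          symm
          apply eq_of_subset_of_card_le
          · intro w hw
            rw [mem_insert, mem_singleton] at hw
            rcases hw with rfl | rfl
            · exact hv
            · exact hu
          · rw [hc, card_pair hxy]
      · rintro (rfl | ⟨hc, u, hu, v, hv, h⟩)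
        · exact ⟨card_pair hxy, x, by simp, y, by simp, (hR' x y).2 (Or.inr (Or.inl ⟨rfl, rfl⟩))⟩
        · exact ⟨hc, u, hu, v, hv, (hR' u v).2 (Or.inl h)⟩
    rw [h1, card_insert_of_notMem]
    intro h
    obtain ⟨_, u, hu, v, hv, hR⟩ := mem_tt.1 h
    simp only [mem_insert, mem_singleton] at hu hv
    rcases hu with rfl | rfl <;> rcases hv with rfl | rfl <;>
      first
        | exact hirr _ hR
        | exact hnot hR
        | exact hnot (hsymm _ _ hR)

end Pool.Agent.TH481.AboveT
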