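import Pool.Agent.TH481.AboveT1

set_option autoImplicit false

/-!
Two stars and a matching.
-/

namespace Pool.Agent.TH481.AboveT

open Finset Pool.Agent.TH481

/-- half of the relation: star at `0` with leaves `s, ..., s+a-1`; star at `1` with leaves
`2, ..., c+1` and `2+a, ..., 1+a+b`; `k` edges from `p` on. -/
def HA (s a c b p k : ℕ) (u v : ℕ) : Prop :=
  (u = 0 ∧ s ≤ v ∧ v < s + a) ∨ (u = 1 ∧ 2 ≤ v ∧ v < 2 + c) ∨
    (u = 1 ∧ 2 + a ≤ v ∧ v < 2 + a + b) ∨
    (p ≤ u ∧ u < p + 2 * k ∧ (u - p) % 2 = 0 ∧ v = u + 1)

/-- the graph -/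
def RR (n s a c b p k : ℕ) (u v : Fin n) : Prop :=
  HA s a c b p k u.1 v.1 ∨ HA s a c b p k v.1 u.1

lemma HA_irr {s a c b p k u : ℕ} (hs : 1 ≤ s) : ¬ HA s a c b p k u u := by
  unfold HA
  rintro (h | h | h | h) <;> omega

lemma RR_irr {n s a c b p k : ℕ} (hs : 1 ≤ s) (u : Fin n) : ¬ RR n s a c b p k u u := by
  unfold RR
  rintro (h | h) <;> exact HA_irr hs h

lemma RR_symm {n s a c b p k : ℕ} (u v : Fin n) (h : RR n s a c b p k u v) :
    RR n s a c b p k v u := h.symm

lemma RR_step {n s a c b p k a' c' b' k' : ℕ} {x y : Fin n}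
    (h : ∀ u v, HA s a' c' b' p k' u v ↔ HA s a c b p k u v ∨ (u = x.1 ∧ v = y.1))
    (u v : Fin n) : RR n s a' c' b' p k' u v ↔
      RR n s a c b p k u v ∨ (u = x ∧ v = y) ∨ (u = y ∧ v = x) := by
  unfold RR
  rw [h, h, Fin.ext_iff, Fin.ext_iff, Fin.ext_iff, Fin.ext_iff]
  tauto

lemma cardW {n : ℕ} (P : ℕ → Prop) (S : Finset ℕ) (W : Finset (Fin n))
    (hW : ∀ z : Fin n, z ∈ W ↔ P z.1) (hS : ∀ z, z ∈ S ↔ z < n ∧ P z) : W.card = S.card := by
  have h : W.map Fin.valEmbedding = S := by
    ext z
    rw [mem_map, hS]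
    constructor
    · rintro ⟨w, hw, rfl⟩
      exact ⟨w.2, (hW w).1 hw⟩
    · rintro ⟨h1, h2⟩
      exact ⟨⟨z, h1⟩, (hW _).2 h2, rfl⟩
  rw [← h, card_map]

lemma ch2 (a : ℕ) : (a + 1).choose 2 = a.choose 2 + a := by
  have : (a + 1).choose (1 + 1) = a.choose 1 + a.choose (1 + 1) := Nat.choose_succ_succ' a 1
  rw [Nat.choose_one_right] at this
  have e : (a + 1).choose 2 = (a + 1).choose (1 + 1) := rfl
  have e' : a.choose 2 = a.choose (1 + 1) := rfl
  omega

open Classical in
/-- one more edge, with numbers -/
lemma stepN {N s a c b p k a' c' b' k' w : ℕ} (hs : 1 ≤ s) (X Y : ℕ) (hX : X < N + 2)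
    (hY : Y < N + 2) (hXY : X < Y) (PX PY : ℕ → Prop)
    (hPX : ∀ z, (HA s a c b p k X z ∨ HA s a c b p k z X) ↔ PX z)
    (hPY : ∀ z, (HA s a c b p k Y z ∨ HA s a c b p k z Y) ↔ PY z) (hn : ¬ PX Y)
    (h : ∀ u v, HA s a' c' b' p k' u v ↔ HA s a c b p k u v ∨ (u = X ∧ v = Y))
    (S : Finset ℕ) (hS : ∀ z, z ∈ S ↔ z < N + 2 ∧ (z = X ∨ z = Y ∨ PX z ∨ PY z))
    (hw : S.card = w + 2) :
    (tt 3 (RR (N + 2) s a' c' b' p k')).card + w = (tt 3 (RR (N + 2) s a c b p k)).card + N ∧
      (tt 2 (RR (N + 2) s a' c' b' p k')).card = (tt 2 (RR (N + 2) s a c b p k)).card + 1 := by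
  have hst := step (β := Fin (N + 2)) (R := RR (N + 2) s a c b p k)
      (R' := RR (N + 2) s a' c' b' p k') (x := ⟨X, hX⟩) (y := ⟨Y, hY⟩)
      (by rw [ne_eq, Fin.ext_iff]; exact hXY.ne) (RR_irr hs) RR_symm
      (fun h => hn ((hPX Y).1 h))
      (RR_step (x := ⟨X, hX⟩) (y := ⟨Y, hY⟩) h)
      (W := univ.filter (fun z => z = ⟨X, hX⟩ ∨ z = ⟨Y, hY⟩ ∨
        RR (N + 2) s a c b p k ⟨X, hX⟩ z ∨ RR (N + 2) s a c b p k ⟨Y, hY⟩ z))
      (by intro z; rw [mem_filter]; simp)
  have hW : (univ.filter (fun z : Fin (N + 2) => z = ⟨X, hX⟩ ∨ z = ⟨Y, hY⟩ ∨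
        RR (N + 2) s a c b p k ⟨X, hX⟩ z ∨ RR (N + 2) s a c b p k ⟨Y, hY⟩ z)).card = w + 2 := by
    rw [← hw]
    apply cardW _ _ _ _ hS
    intro z
    rw [mem_filter, Fin.ext_iff, Fin.ext_iff, ← hPX, ← hPY]
    simp only [mem_univ, true_and, RR]
  rw [hW, Fintype.card_fin] at hst
  obtain ⟨h3, h4⟩ := hst
  exact ⟨by omega, h4⟩

/-- stage 1: the star at `0` -/
lemma stage1 {N s p : ℕ} (hs : 1 ≤ s) : ∀ a : ℕ, s + a ≤ N + 2 →
    (tt 3 (RR (N + 2) s a 0 0 p 0)).card + a.choose 2 = a * N ∧
      (tt 2 (RR (N + 2) s a 0 0 p 0)).card = a := by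
  intro a
  induction a with
  | zero =>
    intro _
    have h : ∀ k, tt k (RR (N + 2) s 0 0 0 p 0) = ∅ := by
      intro k
      rw [eq_empty_iff_forall_notMem]
      intro T hT
      obtain ⟨_, u, _, v, _, h⟩ := mem_tt.1 hT
      unfold RR HA at h
      rcases h with (h | h | h | h) | (h | h | h | h) <;> omega
    rw [h, h]
    simp
  | succ a ih =>
    intro ha
    obtain ⟨h1, h2⟩ := ih (by omega)
    obtain ⟨h3, h4⟩ := stepN (N := N) (s := s) (a := a) (c := 0) (b := 0) (p := p) (k := 0)
      (a' := a + 1) (c' := 0) (b' := 0) (k' := 0) (w := a) hs 0 (s + a) (by omega) (by omega)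
      (by omega)
      (fun z => s ≤ z ∧ z < s + a) (fun z => False)
      (by intro z
          unfold HA
          constructor
          · rintro ((h | h | h | h) | (h | h | h | h)) <;> omega
          · intro h; left; left; omega)
      (by intro z
          unfold HA
          constructor
          · rintro ((h | h | h | h) | (h | h | h | h)) <;> omega
          · intro h; exact h.elim)
      (by first | exact id | omega)
      (by intro u v; unfold HA
          constructor
          · rintro (h | h | h | h) <;> omega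
          · rintro ((h | h | h | h) | h) <;> omega)
      (insert 0 (Ico s (s + a + 1)))
      (by intro z
          rw [mem_insert, mem_Ico]
          try simp only [or_false]
          omega)
      (by rw [card_insert_of_notMem (by rw [mem_Ico]; omega), Nat.card_Ico]; omega)
    refine ⟨?_, by omega⟩
    rw [ch2]
    have : (a + 1) * N = a * N + N := by ring
    omega

/-- stage 2: the common leaves -/
lemma stage2 {N p a : ℕ} : ∀ c : ℕ, c ≤ a → 2 + a ≤ N + 2 →
    (tt 3 (RR (N + 2) 2 a c 0 p 0)).card + a.choose 2 + c.choose 2 + c = (a + c) * N ∧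
      (tt 2 (RR (N + 2) 2 a c 0 p 0)).card = a + c := by
  intro c
  induction c with
  | zero =>
    intro _ ha
    have := stage1 (N := N) (s := 2) (p := p) (by norm_num) a ha
    simp only [Nat.choose_zero_succ, Nat.add_zero]
    exact this
  | succ c ih =>
    intro hc ha
    obtain ⟨h1, h2⟩ := ih (by omega) ha
    obtain ⟨h3, h4⟩ := stepN (N := N) (s := 2) (a := a) (c := c) (b := 0) (p := p) (k := 0)
      (a' := a) (c' := c + 1) (b' := 0) (k' := 0) (w := c + 1) (by norm_num) 1 (2 + c)
      (by omega) (by omega)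
      (by omega)
      (fun z => 2 ≤ z ∧ z < 2 + c) (fun z => z = 0)
      (by intro z
          unfold HA
          constructor
          · rintro ((h | h | h | h) | (h | h | h | h)) <;> omega
          · intro h; left; right; left; omega)
      (by intro z
          unfold HA
          constructor
          · rintro ((h | h | h | h) | (h | h | h | h)) <;> omega
          · intro h; right; left; omega)
      (by first | exact id | omega)
      (by intro u v; unfold HA
          constructor
          · rintro (h | h | h | h) <;> omega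
          · rintro ((h | h | h | h) | h) <;> omega)
      (Ico 0 (c + 3))
      (by intro z
          rw [mem_Ico]
          try simp only [or_false]
          omega)
      (by rw [Nat.card_Ico]; omega)
    refine ⟨?_, by omega⟩
    rw [ch2 c]
    have : (a + (c + 1)) * N = (a + c) * N + N := by ring
    omega

/-- stage 3: the other leaves of `1` -/
lemma stage3 {N p a c : ℕ} (hc : c ≤ a) : ∀ b : ℕ, 2 + a + b ≤ N + 2 →
    (tt 3 (RR (N + 2) 2 a c b p 0)).card + a.choose 2 + (c + b).choose 2 + c = (a + c + b) * N ∧
      (tt 2 (RR (N + 2) 2 a c b p 0)).card = a + c + b := by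
  intro b
  induction b with
  | zero =>
    intro ha
    exact stage2 (N := N) (p := p) c hc ha
  | succ b ih =>
    intro ha
    obtain ⟨h1, h2⟩ := ih (by omega)
    obtain ⟨h3, h4⟩ := stepN (N := N) (s := 2) (a := a) (c := c) (b := b) (p := p) (k := 0)
      (a' := a) (c' := c) (b' := b + 1) (k' := 0) (w := c + b) (by norm_num) 1 (2 + a + b)
      (by omega) (by omega)
      (by omega)
      (fun z => (2 ≤ z ∧ z < 2 + c) ∨ (2 + a ≤ z ∧ z < 2 + a + b)) (fun z => False)
      (by intro z
          unfold HA
          constructor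
          · rintro ((h | h | h | h) | (h | h | h | h)) <;> omega
          · rintro (h | h)
            · left; right; left; omega
            · left; right; right; left; omega)
      (by intro z
          unfold HA
          constructor
          · rintro ((h | h | h | h) | (h | h | h | h)) <;> omega
          · intro h; exact h.elim)
      (by first | exact id | omega)
      (by intro u v; unfold HA
          constructor
          · rintro (h | h | h | h) <;> omega
          · rintro ((h | h | h | h) | h) <;> omega)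
      (Ico 1 (2 + c) ∪ Ico (2 + a) (2 + a + b + 1))
      (by intro z
          rw [mem_union, mem_Ico, mem_Ico]
          try simp only [or_false]
          omega)
      (by rw [card_union_of_disjoint, Nat.card_Ico, Nat.card_Ico]
          · omega
          · rw [disjoint_left]
            intro z
            rw [mem_Ico, mem_Ico]
            omega)
    refine ⟨?_, by omega⟩
    have h5 : (c + (b + 1)).choose 2 = (c + b).choose 2 + (c + b) := ch2 (c + b)
    rw [h5]
    have : (a + c + (b + 1)) * N = (a + c + b) * N + N := by ring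
    omega

/-- stage 4: the matching -/
lemma stage4 {N s a c b p A B : ℕ} (hs : 1 ≤ s) (hs2 : s ≤ 2) (hc : c ≤ a) (ha : 1 ≤ a)
    (hp : s + a ≤ p) (hp2 : (c = 0 ∧ b = 0) ∨ (s = 2 ∧ 2 + a + b ≤ p))
    (h0 : (tt 3 (RR (N + 2) s a c b p 0)).card + A = B * N ∧
      (tt 2 (RR (N + 2) s a c b p 0)).card = B) : ∀ k : ℕ, p + 2 * k ≤ N + 2 →
    (tt 3 (RR (N + 2) s a c b p k)).card + A = (B + k) * N ∧
      (tt 2 (RR (N + 2) s a c b p k)).card = B + k := by
  intro k
  induction k with
  | zero => intro _; exact h0
  | succ k ih =>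
    intro hk
    obtain ⟨h1, h2⟩ := ih (by omega)
    obtain ⟨h3, h4⟩ := stepN (N := N) (s := s) (a := a) (c := c) (b := b) (p := p) (k := k)
      (a' := a) (c' := c) (b' := b) (k' := k + 1) (w := 0) hs (p + 2 * k) (p + 2 * k + 1)
      (by omega) (by omega)
      (by omega)
      (fun z => False) (fun z => False)
      (by intro z
          unfold HA
          constructor
          · rintro ((h | h | h | h) | (h | h | h | h)) <;> omega
          · intro h; exact h.elim)
      (by intro z
          unfold HA
          constructor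
          · rintro ((h | h | h | h) | (h | h | h | h)) <;> omega
          · intro h; exact h.elim)
      (by first | exact id | omega)
      (by intro u v; unfold HA
          constructor
          · rintro (h | h | h | h)
            · left; left; exact h
            · left; right; left; exact h
            · left; right; right; left; exact h
            · omega
          · rintro ((h | h | h | h) | h)
            · left; exact h
            · right; left; exact h
            · right; right; left; exact h
            · right; right; right; omega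
            · right; right; right; omega)
      (Ico (p + 2 * k) (p + 2 * k + 2))
      (by intro z
          rw [mem_Ico]
          try simp only [or_false]
          omega)
      (by rw [Nat.card_Ico]; omega)
    refine ⟨?_, by omega⟩
    have : (B + (k + 1)) * N = (B + k) * N + N := by ring
    omega

end Pool.Agent.TH481.AboveT
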