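import Pool.Agent.TH481.AboveT2

set_option autoImplicit false

/-!
Maximality of the graphs.
-/

namespace Pool.Agent.TH481.AboveT

open Finset Pool.Agent.TH481

/-- the symmetric relation on `ℕ` -/
def GG (s a c b p k u v : ℕ) : Prop := HA s a c b p k u v ∨ HA s a c b p k v u

lemma outside {n : ℕ} (T : Finset ℕ) (h : T.card < n) : ∃ z, z < n ∧ z ∉ T := by
  by_contra hcon
  push Not at hcon
  have h1 : range n ⊆ T := fun z hz => hcon z (mem_range.1 hz)
  have h2 := card_le_card h1
  rw [card_range] at h2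
  omega

lemma maxN {N s a c b p k : ℕ}
    (h : ∀ x y, x < y → y < N + 2 → ¬ GG s a c b p k x y →
      ∃ z, z < N + 2 ∧ z ≠ x ∧ z ≠ y ∧ ¬ GG s a c b p k x z ∧ ¬ GG s a c b p k y z) :
    ∀ x y : Fin (N + 2), x ≠ y → ¬ RR (N + 2) s a c b p k x y →
      ¬ RR (N + 2) s a c b p k y x → ∃ z, z ≠ x ∧ z ≠ y ∧
      ¬ RR (N + 2) s a c b p k x z ∧ ¬ RR (N + 2) s a c b p k z x ∧
      ¬ RR (N + 2) s a c b p k y z ∧ ¬ RR (N + 2) s a c b p k z y := by
  intro x y hxy h1 h2
  have hne : x.1 ≠ y.1 := fun h => hxy (Fin.ext h)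
  rcases lt_or_gt_of_ne hne with hlt | hgt
  · obtain ⟨z, hz, hzx, hzy, h3, h4⟩ := h x.1 y.1 hlt y.2 h1
    refine ⟨⟨z, hz⟩, fun e => hzx (by rw [← e]), fun e => hzy (by rw [← e]), h3,
      fun e => h3 (RR_symm _ _ e), h4, fun e => h4 (RR_symm _ _ e)⟩
  · obtain ⟨z, hz, hzx, hzy, h3, h4⟩ := h y.1 x.1 hgt x.2 h2
    refine ⟨⟨z, hz⟩, fun e => hzy (by rw [← e]), fun e => hzx (by rw [← e]), h4,
      fun e => h4 (RR_symm _ _ e), h3, fun e => h3 (RR_symm _ _ e)⟩

/-- pure stars -/
lemma max_star {N a p : ℕ} (hN : 2 ≤ N) (ha : 1 ≤ a) (ha2 : a + 1 ≤ N ∨ a = N + 1) :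
    ∀ x y : Fin (N + 2), x ≠ y → ¬ RR (N + 2) 1 a 0 0 p 0 x y →
      ¬ RR (N + 2) 1 a 0 0 p 0 y x → ∃ z, z ≠ x ∧ z ≠ y ∧
      ¬ RR (N + 2) 1 a 0 0 p 0 x z ∧ ¬ RR (N + 2) 1 a 0 0 p 0 z x ∧
      ¬ RR (N + 2) 1 a 0 0 p 0 y z ∧ ¬ RR (N + 2) 1 a 0 0 p 0 z y := by
  apply maxN
  intro x y hxy hy hn
  have hG : ∀ u v, GG 1 a 0 0 p 0 u v → (u = 0 ∧ 1 ≤ v ∧ v < 1 + a) ∨
      (v = 0 ∧ 1 ≤ u ∧ u < 1 + a) := by
    intro u v h
    unfold GG HA at h
    rcases h with (h | h | h | h) | (h | h | h | h) <;> omega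
  by_cases hx : x = 0
  · have hya : 1 + a ≤ y := by
      by_contra hcon
      apply hn
      left; left
      exact ⟨hx, by omega, by omega⟩
    obtain ⟨z, hz, hzT⟩ := outside (n := N + 2) (insert y (Ico 0 (1 + a))) (by
      have := card_insert_le y (Ico 0 (1 + a))
      rw [Nat.card_Ico] at this
      omega)
    rw [mem_insert, mem_Ico] at hzT
    refine ⟨z, hz, by omega, by omega, ?_, ?_⟩ <;>
    · intro h
      rcases hG _ _ h with h | h <;> omega
  · obtain ⟨z, hz, hzT⟩ := outside (n := N + 2) ({x, y, 0} : Finset ℕ) (by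
      have := card_le_three (a := x) (b := y) (c := 0)
      omega)
    rw [mem_insert, mem_insert, mem_singleton] at hzT
    refine ⟨z, hz, by omega, by omega, ?_, ?_⟩ <;>
    · intro h
      rcases hG _ _ h with h | h <;> omega

/-- the partner in the matching -/
def pt (p u : ℕ) : ℕ := if (u - p) % 2 = 0 then u + 1 else u - 1

lemma nb0 {s a c b p k v : ℕ} (hs : 1 ≤ s) (hp : s + a ≤ p) (ha : 1 ≤ a)
    (h : GG s a c b p k 0 v) : s ≤ v ∧ v < s + a := by
  unfold GG HA at h
  rcases h with (h | h | h | h) | (h | h | h | h) <;> omega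

lemma nb1 {a c b p k v : ℕ} (hp : 2 + a ≤ p)
    (h : GG 2 a c b p k 1 v) : (2 ≤ v ∧ v < 2 + c) ∨ (2 + a ≤ v ∧ v < 2 + a + b) := by
  unfold GG HA at h
  rcases h with (h | h | h | h) | (h | h | h | h) <;> omega

lemma nbp {s a c b p k u v : ℕ} (hs : 1 ≤ s) (hc : c ≤ a) (ha : 1 ≤ a)
    (hp : s + a ≤ p) (hp2 : (c = 0 ∧ b = 0) ∨ (s = 2 ∧ 2 + a + b ≤ p)) (hu : p ≤ u)
    (h : GG s a c b p k u v) : v = pt p u := by
  unfold GG HA at h
  unfold pt
  split_ifs with h1
  · rcases h with (h | h | h | h) | (h | h | h | h) <;> omega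
  · rcases h with (h | h | h | h) | (h | h | h | h) <;> omega

lemma nbq {s a c b p k u v : ℕ} (hs : 1 ≤ s) (hc : c ≤ a) (ha : 1 ≤ a)
    (hp : s + a ≤ p) (hp2 : (c = 0 ∧ b = 0) ∨ (s = 2 ∧ 2 + a + b ≤ p)) (hu : u < p)
    (hsu : s ≤ u) (h : GG s a c b p k u v) : v = 0 ∨ v = 1 := by
  unfold GG HA at h
  rcases h with (h | h | h | h) | (h | h | h | h) <;> omega

/-- general maximality -/
lemma max_gen {N s a c b p k : ℕ} (hN : 5 ≤ N) (hs : 1 ≤ s) (hs2 : s ≤ 2) (hc : c ≤ a)
    (ha : 1 ≤ a) (haN : a + 2 ≤ N) (hbc : b + c ≤ a)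
    (hp : s + a ≤ p) (hp2 : (c = 0 ∧ b = 0) ∨ (s = 2 ∧ 2 + a + b ≤ p))
    (hab : a + b + 1 ≤ N) :
    ∀ x y : Fin (N + 2), x ≠ y → ¬ RR (N + 2) s a c b p k x y →
      ¬ RR (N + 2) s a c b p k y x → ∃ z, z ≠ x ∧ z ≠ y ∧
      ¬ RR (N + 2) s a c b p k x z ∧ ¬ RR (N + 2) s a c b p k z x ∧
      ¬ RR (N + 2) s a c b p k y z ∧ ¬ RR (N + 2) s a c b p k z y := by
  apply maxN
  intro x y hxy hy hn
  have hP : ∀ u v, p ≤ u → GG s a c b p k u v → v = pt p u :=
    fun u v hu h => nbp hs hc ha hp hp2 hu h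
  have hQ : ∀ u v, u < p → s ≤ u → GG s a c b p k u v → v = 0 ∨ v = 1 :=
    fun u v hu hsu h => nbq hs hc ha hp hp2 hu hsu h
  by_cases hxs : s ≤ x
  · -- both are at least `s`
    obtain ⟨z, hz, hzT⟩ := outside (n := N + 2) ({x, y, 0, 1, pt p x, pt p y} : Finset ℕ) (by
      have := card_le_six (a := x) (b := y) (c := 0) (d := 1) (e := pt p x) (f := pt p y)
      omega)
    simp only [mem_insert, mem_singleton, not_or] at hzT
    refine ⟨z, hz, hzT.1, hzT.2.1, ?_, ?_⟩
    · intro h
      by_cases hxp : p ≤ x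
      · exact hzT.2.2.2.2.1 (hP _ _ hxp h)
      · rcases hQ _ _ (by omega) hxs h with h | h
        · exact hzT.2.2.1 h
        · exact hzT.2.2.2.1 h
    · intro h
      by_cases hyp : p ≤ y
      · exact hzT.2.2.2.2.2 (hP _ _ hyp h)
      · rcases hQ _ _ (by omega) (by omega) h with h | h
        · exact hzT.2.2.1 h
        · exact hzT.2.2.2.1 h
  · by_cases hx : x = 0
    · subst hx
      have hya : ¬ (s ≤ y ∧ y < s + a) := by
        intro h
        apply hn
        left; left
        exact ⟨rfl, h.1, h.2⟩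
      by_cases hys : s ≤ y
      · obtain ⟨z, hz, hzT⟩ := outside (n := N + 2)
          (insert 0 (insert y (insert (if y < p then 1 else pt p y) (Ico s (s + a))))) (by
          have h1 := card_insert_le 0 (insert y (insert (if y < p then 1 else pt p y)
            (Ico s (s + a))))
          have h2 := card_insert_le y (insert (if y < p then 1 else pt p y) (Ico s (s + a)))
          have h3 := card_insert_le (if y < p then 1 else pt p y) (Ico s (s + a))
          rw [Nat.card_Ico] at h3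
          omega)
        rw [mem_insert, mem_insert, mem_insert, mem_Ico] at hzT
        push Not at hzT
        obtain ⟨hz0, hzy, hzg, hzI⟩ := hzT
        refine ⟨z, hz, hz0, hzy, ?_, ?_⟩
        · intro h
          have := nb0 hs hp ha h
          have := hzI this.1
          omega
        · intro h
          by_cases hyp : p ≤ y
          · apply hzg
            rw [if_neg (by omega)]
            exact hP _ _ hyp h
          · rw [if_pos (by omega)] at hzg
            rcases hQ _ _ (by omega) hys h with h | h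
            · exact hz0 h
            · exact hzg h
      · -- `(0, 1)` with `s = 2`
        have hs' : s = 2 := by omega
        have hy1 : y = 1 := by omega
        subst hs'
        subst hy1
        obtain ⟨z, hz, hzT⟩ := outside (n := N + 2) (Ico 0 (2 + a + b)) (by
          rw [Nat.card_Ico]; omega)
        rw [mem_Ico] at hzT
        refine ⟨z, hz, by omega, by omega, ?_, ?_⟩
        · intro h
          have := nb0 hs hp ha h
          omega
        · intro h
          have := nb1 hp h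
          omega
    · -- `x = 1`
      have hs' : s = 2 := by omega
      have hx1 : x = 1 := by omega
      subst hs'
      subst hx1
      obtain ⟨z, hz, hzT⟩ := outside (n := N + 2)
        (insert 1 (insert y (insert (if y < p then 0 else pt p y)
          (Ico 2 (2 + c) ∪ Ico (2 + a) (2 + a + b))))) (by
        have h1 := card_insert_le 1 (insert y (insert (if y < p then 0 else pt p y)
          (Ico 2 (2 + c) ∪ Ico (2 + a) (2 + a + b))))
        have h2 := card_insert_le y (insert (if y < p then 0 else pt p y)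
          (Ico 2 (2 + c) ∪ Ico (2 + a) (2 + a + b)))
        have h3 := card_insert_le (if y < p then 0 else pt p y)
          (Ico 2 (2 + c) ∪ Ico (2 + a) (2 + a + b))
        have h4 := card_union_le (Ico 2 (2 + c)) (Ico (2 + a) (2 + a + b))
        rw [Nat.card_Ico, Nat.card_Ico] at h4
        omega)
      rw [mem_insert, mem_insert, mem_insert, mem_union, mem_Ico, mem_Ico] at hzT
      push Not at hzT
      obtain ⟨hz1, hzy, hzg, hzI⟩ := hzT
      refine ⟨z, hz, hz1, hzy, ?_, ?_⟩
      · intro h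
        have := nb1 hp h
        omega
      · intro h
        by_cases hyp : p ≤ y
        · apply hzg
          rw [if_neg (by omega)]
          exact hP _ _ hyp h
        · rw [if_pos (by omega)] at hzg
          rcases hQ _ _ (by omega) (by omega) h with h | h
          · exact hzg h
          · exact hz1 h

end Pool.Agent.TH481.AboveT
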