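import Mathlib

/-! Averaging over bijections: the number of permutations with one or two prescribed values. -/

namespace TH481.DM

open Finset

variable {p : ℕ}

lemma cardA_eq (i j j' : Fin p) :
    (univ.filter (fun σ : Equiv.Perm (Fin p) => σ i = j)).card =
      (univ.filter (fun σ : Equiv.Perm (Fin p) => σ i = j')).card := by
  apply Finset.card_nbij' (fun σ => Equiv.swap j j' * σ) (fun σ => Equiv.swap j j' * σ)
  · intro σ hσ
    simp only [coe_filter, mem_univ, true_and, Set.mem_ofPred_eq, Equiv.Perm.mul_apply] at hσ ⊢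
    rw [hσ]; simp
  · intro σ hσ
    simp only [coe_filter, mem_univ, true_and, Set.mem_ofPred_eq, Equiv.Perm.mul_apply] at hσ ⊢
    rw [hσ]; simp
  · intro σ _; simp [← mul_assoc]
  · intro σ _; simp [← mul_assoc]

lemma cardA (i j : Fin p) :
    p * (univ.filter (fun σ : Equiv.Perm (Fin p) => σ i = j)).card =
      (univ : Finset (Equiv.Perm (Fin p))).card := by
  rw [Finset.card_eq_sum_card_fiberwise (s := (univ : Finset (Equiv.Perm (Fin p))))
    (f := fun σ : Equiv.Perm (Fin p) => σ i)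
    (t := (univ : Finset (Fin p))) (by intro x _; simp)]
  rw [Finset.sum_congr rfl (fun j' _ => cardA_eq i j' j)]
  simp

lemma cardB_eq (i i' j k k' : Fin p) (hk : k ≠ j) (hk' : k' ≠ j) :
    (univ.filter (fun σ : Equiv.Perm (Fin p) => σ i = j ∧ σ i' = k)).card =
      (univ.filter (fun σ : Equiv.Perm (Fin p) => σ i = j ∧ σ i' = k')).card := by
  apply Finset.card_nbij' (fun σ => Equiv.swap k k' * σ) (fun σ => Equiv.swap k k' * σ)
  · intro σ hσ
    simp only [coe_filter, mem_univ, true_and, Set.mem_ofPred_eq, Equiv.Perm.mul_apply] at hσ ⊢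
    rw [hσ.1, hσ.2]; simp [Equiv.swap_apply_of_ne_of_ne hk.symm hk'.symm]
  · intro σ hσ
    simp only [coe_filter, mem_univ, true_and, Set.mem_ofPred_eq, Equiv.Perm.mul_apply] at hσ ⊢
    rw [hσ.1, hσ.2]; simp [Equiv.swap_apply_of_ne_of_ne hk.symm hk'.symm]
  · intro σ _; simp [← mul_assoc]
  · intro σ _; simp [← mul_assoc]

lemma cardB (i i' j k : Fin p) (hi : i ≠ i') (hk : k ≠ j) :
    (p - 1) * (univ.filter (fun σ : Equiv.Perm (Fin p) => σ i = j ∧ σ i' = k)).card =
      (univ.filter (fun σ : Equiv.Perm (Fin p) => σ i = j)).card := by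
  rw [Finset.card_eq_sum_card_fiberwise (s := univ.filter (fun σ : Equiv.Perm (Fin p) => σ i = j))
    (f := fun σ : Equiv.Perm (Fin p) => σ i')
    (t := (univ : Finset (Fin p)).erase j) (by
      intro σ hσ
      simp only [coe_filter, mem_univ, true_and, Set.mem_ofPred_eq] at hσ
      simp only [coe_erase, coe_univ, Set.mem_sdiff, Set.mem_univ, Set.mem_singleton_iff, true_and]
      intro h
      rw [← hσ] at h
      exact hi (σ.injective h).symm)]
  have : ∀ k' ∈ (univ : Finset (Fin p)).erase j,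
      ((univ.filter (fun σ : Equiv.Perm (Fin p) => σ i = j)).filter (fun σ => σ i' = k')).card =
      (univ.filter (fun σ : Equiv.Perm (Fin p) => σ i = j ∧ σ i' = k)).card := by
    intro k' hk'
    rw [Finset.filter_filter]
    exact cardB_eq i i' j k' k (Finset.ne_of_mem_erase hk') hk
  rw [Finset.sum_congr rfl this]
  simp

lemma cardAB (i i' j k : Fin p) (hi : i ≠ i') (hk : k ≠ j) :
    p * (p - 1) * (univ.filter (fun σ : Equiv.Perm (Fin p) => σ i = j ∧ σ i' = k)).card =
      (univ : Finset (Equiv.Perm (Fin p))).card := by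
  rw [mul_assoc, cardB i i' j k hi hk, cardA]

open Classical in
/-- Averaging over all permutations. -/
theorem exists_perm (P1 : Fin p → Fin p → Prop) (P2 : Fin p → Fin p → Fin p → Fin p → Prop)
    (M1 M2 : ℕ)
    (h1 : (univ.filter (fun a : Fin p × Fin p => P1 a.1 a.2)).card ≤ M1)
    (h2 : (univ.filter (fun a : (Fin p × Fin p) × (Fin p × Fin p) =>
      a.1.1 ≠ a.1.2 ∧ a.2.1 ≠ a.2.2 ∧ P2 a.1.1 a.1.2 a.2.1 a.2.2)).card ≤ M2) :
    ∃ σ : Equiv.Perm (Fin p),
      p * (p - 1) * (univ.filter (fun i : Fin p => P1 i (σ i) ∨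
        ∃ i', i ≠ i' ∧ P2 i i' (σ i) (σ i'))).card ≤ (p - 1) * M1 + M2 := by
  set A1 := univ.filter (fun a : Fin p × Fin p => P1 a.1 a.2) with hA1
  set A2 := univ.filter (fun a : (Fin p × Fin p) × (Fin p × Fin p) =>
      a.1.1 ≠ a.1.2 ∧ a.2.1 ≠ a.2.2 ∧ P2 a.1.1 a.1.2 a.2.1 a.2.2) with hA2
  -- pointwise bound
  have hpt : ∀ σ : Equiv.Perm (Fin p),
      (univ.filter (fun i : Fin p => P1 i (σ i) ∨ ∃ i', i ≠ i' ∧ P2 i i' (σ i) (σ i'))).card ≤
      (A1.filter (fun a => σ a.1 = a.2)).card +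
      (A2.filter (fun a => σ a.1.1 = a.2.1 ∧ σ a.1.2 = a.2.2)).card := by
    intro σ
    have hsub : (univ.filter (fun i : Fin p => P1 i (σ i) ∨
        ∃ i', i ≠ i' ∧ P2 i i' (σ i) (σ i'))) ⊆
        (A1.filter (fun a => σ a.1 = a.2)).image (fun a => a.1) ∪
        (A2.filter (fun a => σ a.1.1 = a.2.1 ∧ σ a.1.2 = a.2.2)).image (fun a => a.1.1) := by
      intro i hi
      simp only [mem_filter, mem_univ, true_and] at hi
      simp only [mem_union, mem_image]
      rcases hi with h | ⟨i', hne, h⟩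
      · left
        exact ⟨(i, σ i), by simp [hA1, h], rfl⟩
      · right
        refine ⟨((i, i'), (σ i, σ i')), ?_, rfl⟩
        simp only [hA2, mem_filter, mem_univ, true_and, and_true]
        exact ⟨hne, fun h' => hne (σ.injective h'), h⟩
    refine (card_le_card hsub).trans ((card_union_le _ _).trans ?_)
    exact Nat.add_le_add card_image_le card_image_le
  -- sum over σ
  have hsum : ∑ σ : Equiv.Perm (Fin p), p * (p - 1) *
      (univ.filter (fun i : Fin p => P1 i (σ i) ∨ ∃ i', i ≠ i' ∧ P2 i i' (σ i) (σ i'))).card ≤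
      ∑ _σ : Equiv.Perm (Fin p), ((p - 1) * M1 + M2) := by
    calc ∑ σ : Equiv.Perm (Fin p), p * (p - 1) *
        (univ.filter (fun i : Fin p => P1 i (σ i) ∨ ∃ i', i ≠ i' ∧ P2 i i' (σ i) (σ i'))).card
        ≤ ∑ σ : Equiv.Perm (Fin p), (p * (p - 1) * ((A1.filter (fun a => σ a.1 = a.2)).card +
          (A2.filter (fun a => σ a.1.1 = a.2.1 ∧ σ a.1.2 = a.2.2)).card)) :=
          Finset.sum_le_sum (fun σ _ => Nat.mul_le_mul_left _ (hpt σ))
      _ = p * (p - 1) * ∑ σ : Equiv.Perm (Fin p), (A1.filter (fun a => σ a.1 = a.2)).card +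
          p * (p - 1) * ∑ σ : Equiv.Perm (Fin p),
            (A2.filter (fun a => σ a.1.1 = a.2.1 ∧ σ a.1.2 = a.2.2)).card := by
          rw [← Finset.mul_sum, Finset.sum_add_distrib, mul_add]
      _ = p * (p - 1) * ∑ a ∈ A1, (univ.filter (fun σ : Equiv.Perm (Fin p) => σ a.1 = a.2)).card +
          p * (p - 1) * ∑ a ∈ A2, (univ.filter (fun σ : Equiv.Perm (Fin p) =>
            σ a.1.1 = a.2.1 ∧ σ a.1.2 = a.2.2)).card := by
          congr 2
          · simp_rw [Finset.card_filter]
            rw [Finset.sum_comm]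
          · simp_rw [Finset.card_filter]
            rw [Finset.sum_comm]
      _ = ∑ a ∈ A1, (p - 1) * (univ : Finset (Equiv.Perm (Fin p))).card +
          ∑ a ∈ A2, (univ : Finset (Equiv.Perm (Fin p))).card := by
          rw [Finset.mul_sum, Finset.mul_sum]
          congr 1
          · refine Finset.sum_congr rfl (fun a _ => ?_)
            rw [← cardA a.1 a.2]; ring
          · refine Finset.sum_congr rfl (fun a ha => ?_)
            simp only [hA2, mem_filter, mem_univ, true_and] at ha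
            exact cardAB _ _ _ _ ha.1 ha.2.1.symm
      _ ≤ ∑ _σ : Equiv.Perm (Fin p), ((p - 1) * M1 + M2) := by
          simp only [Finset.sum_const, smul_eq_mul]
          have e1 := Nat.mul_le_mul_right ((p - 1) * (univ : Finset (Equiv.Perm (Fin p))).card) h1
          have e2 := Nat.mul_le_mul_right (univ : Finset (Equiv.Perm (Fin p))).card h2
          calc _ ≤ M1 * ((p - 1) * (univ : Finset (Equiv.Perm (Fin p))).card) +
                M2 * (univ : Finset (Equiv.Perm (Fin p))).card := Nat.add_le_add e1 e2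
            _ = _ := by ring
  obtain ⟨σ, _, hσ⟩ := Finset.exists_le_of_sum_le (univ_nonempty) hsum
  exact ⟨σ, hσ⟩

end TH481.DM
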