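import Pool.Agent.TH481.DenseMinor1

/-! Clique minors in graphs with few missing edges: singles and random pairs. -/

namespace TH481.DM

open Finset

/-- `G` has a `K_k` minor. -/
def HasCliqueMinor {V : Type} (G : SimpleGraph V) (k : ℕ) : Prop :=
  ∃ f : Fin k → Set V, (∀ i, (G.induce (f i)).Connected) ∧
    (∀ i j, i ≠ j → Disjoint (f i) (f j)) ∧ (∀ i j, i ≠ j → ∃ u ∈ f i, ∃ v ∈ f j, G.Adj u v)

lemma minor_of_family {V : Type} (G : SimpleGraph V) {ι : Type} [Fintype ι] (g : ι → Set V)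
    (hc : ∀ i, (G.induce (g i)).Connected) (hd : ∀ i j, i ≠ j → Disjoint (g i) (g j))
    (ha : ∀ i j, i ≠ j → ∃ u ∈ g i, ∃ v ∈ g j, G.Adj u v) (t : ℕ) (ht : t ≤ Fintype.card ι) :
    HasCliqueMinor G t := by
  obtain ⟨e⟩ : Nonempty (Fin t ↪ ι) :=
    Function.Embedding.nonempty_of_card_le (by simpa using ht)
  exact ⟨fun i => g (e i), fun i => hc _, fun i j h => hd _ _ (fun h' => h (e.injective h')),
    fun i j h => ha _ _ (fun h' => h (e.injective h'))⟩

lemma connected_singleton {V : Type} (G : SimpleGraph V) (v : V) :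
    (G.induce ({v} : Set V)).Connected := by
  have : Nonempty ({v} : Set V) := ⟨⟨v, rfl⟩⟩
  have : Subsingleton ({v} : Set V) :=
    ⟨fun a b => Subtype.ext (a.2.trans b.2.symm)⟩
  exact SimpleGraph.Connected.mk (fun a b => by
    rw [Subsingleton.elim a b])

open Classical in
theorem minor_of_pairs {V : Type} (G : SimpleGraph V) (S : Finset V) (p : ℕ)
    (x y : Fin p → V) (hx : Function.Injective x) (hy : Function.Injective y)
    (hxy : ∀ i j, x i ≠ y j) (hxS : ∀ i, x i ∉ S) (hyS : ∀ i, y i ∉ S)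
    (hS : ∀ u ∈ S, ∀ v ∈ S, u ≠ v → G.Adj u v) (σ : Equiv.Perm (Fin p)) (R : Finset (Fin p))
    (hR : ∀ i, i ∉ R → G.Adj (x i) (y (σ i)) ∧ (∀ u ∈ S, G.Adj u (x i) ∨ G.Adj u (y (σ i))) ∧
      ∀ i', i ≠ i' → (G.Adj (x i) (y (σ i')) ∨ G.Adj (y (σ i)) (x i') ∨
        G.Adj (y (σ i)) (y (σ i'))))
    (t : ℕ) (ht : t ≤ S.card + (p - R.card)) : HasCliqueMinor G t := by
  have hcard : Fintype.card ({u : V // u ∈ S} ⊕ {i : Fin p // i ∉ R}) = S.card + (p - R.card) := by
    rw [Fintype.card_sum, Fintype.card_coe]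
    congr 1
    rw [Fintype.card_subtype_compl]
    simp
  refine minor_of_family G (ι := {u : V // u ∈ S} ⊕ {i : Fin p // i ∉ R})
    (fun a => Sum.elim (fun u => ({u.1} : Set V)) (fun i => ({x i.1, y (σ i.1)} : Set V)) a)
    ?_ ?_ ?_ t (by rw [hcard]; exact ht)
  · rintro (⟨u, hu⟩ | ⟨i, hi⟩)
    · exact connected_singleton G u
    · exact SimpleGraph.induce_pair_connected_of_adj (hR i hi).1
  · rintro (⟨u, hu⟩ | ⟨i, hi⟩) (⟨v, hv⟩ | ⟨j, hj⟩) hne
    · simp only [Sum.elim_inl, Set.disjoint_singleton]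
      intro h; apply hne; subst h; rfl
    · simp only [Sum.elim_inl, Sum.elim_inr, Set.disjoint_singleton_left, Set.mem_insert_iff,
        Set.mem_singleton_iff, not_or]
      exact ⟨fun h => hxS j (h ▸ hu), fun h => hyS _ (h ▸ hu)⟩
    · simp only [Sum.elim_inl, Sum.elim_inr, Set.disjoint_singleton_right, Set.mem_insert_iff,
        Set.mem_singleton_iff, not_or]
      exact ⟨fun h => hxS i (h ▸ hv), fun h => hyS _ (h ▸ hv)⟩
    · have hij : i ≠ j := by
        intro h; apply hne; subst h; rfl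
      simp only [Sum.elim_inr]
      rw [Set.disjoint_left]
      intro a ha hb
      simp only [Set.mem_insert_iff, Set.mem_singleton_iff] at ha hb
      rcases ha with rfl | rfl
      · rcases hb with h | h
        · exact hij (hx h)
        · exact hxy _ _ h
      · rcases hb with h | h
        · exact hxy _ _ h.symm
        · exact hij (σ.injective (hy h))
  · rintro (⟨u, hu⟩ | ⟨i, hi⟩) (⟨v, hv⟩ | ⟨j, hj⟩) hne
    · have huv : u ≠ v := by
        intro h; apply hne; subst h; rfl
      exact ⟨u, rfl, v, rfl, hS u hu v hv huv⟩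
    · rcases (hR j hj).2.1 u hu with h | h
      · exact ⟨u, rfl, x j, by simp, h⟩
      · exact ⟨u, rfl, y (σ j), by simp, h⟩
    · rcases (hR i hi).2.1 v hv with h | h
      · exact ⟨x i, by simp, v, rfl, h.symm⟩
      · exact ⟨y (σ i), by simp, v, rfl, h.symm⟩
    · have hij : i ≠ j := by
        intro h; apply hne; subst h; rfl
      rcases (hR i hi).2.2 j hij with h | h | h
      · exact ⟨x i, by simp, y (σ j), by simp, h⟩
      · exact ⟨y (σ i), by simp, x j, by simp, h⟩
      · exact ⟨y (σ i), by simp, y (σ j), by simp, h⟩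

open Classical in
lemma card_nbr_le {V : Type} [Fintype V] (H : SimpleGraph V) {p : ℕ} (z : Fin p → V)
    (hz : Function.Injective z) (v : V) (D : ℕ) (hv : H.degree v ≤ D) :
    (univ.filter (fun i : Fin p => H.Adj v (z i))).card ≤ D := by
  refine le_trans ?_ hv
  rw [← SimpleGraph.card_neighborFinset_eq_degree]
  refine Finset.card_le_card_of_injOn z ?_ (hz.injOn)
  intro i hi
  simpa using hi

open Classical in
lemma count1 {V : Type} [Fintype V] (H : SimpleGraph V) {p : ℕ} (x y : Fin p → V)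
    (hx : Function.Injective x) (hy : Function.Injective y) (hxy : ∀ i j, x i ≠ y j) :
    (univ.filter (fun a : Fin p × Fin p => H.Adj (x a.1) (y a.2))).card ≤ H.edgeFinset.card := by
  refine Finset.card_le_card_of_injOn (fun a => s(x a.1, y a.2)) ?_ ?_
  · intro a ha
    simpa using ha
  · rintro ⟨i, j⟩ _ ⟨i', j'⟩ _ h
    simp only [Sym2.eq_iff] at h
    rcases h with ⟨h1, h2⟩ | ⟨h1, h2⟩
    · rw [hx h1, hy h2]
    · exact absurd h1 (hxy _ _)

open Classical in
lemma count2 {V : Type} [Fintype V] (H : SimpleGraph V) {p : ℕ} (x y : Fin p → V)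
    (hx : Function.Injective x) (hy : Function.Injective y) (u : V) (D : ℕ)
    (hu : H.degree u ≤ D) :
    (univ.filter (fun a : Fin p × Fin p => H.Adj u (x a.1) ∧ H.Adj u (y a.2))).card ≤ D * D := by
  have : (univ.filter (fun a : Fin p × Fin p => H.Adj u (x a.1) ∧ H.Adj u (y a.2))) =
      (univ.filter (fun i : Fin p => H.Adj u (x i))) ×ˢ
        (univ.filter (fun i : Fin p => H.Adj u (y i))) := by
    ext ⟨i, j⟩; simp
  rw [this, card_product]
  exact Nat.mul_le_mul (card_nbr_le H x hx u D hu) (card_nbr_le H y hy u D hu)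

open Classical in
lemma count12 {V : Type} [Fintype V] (H : SimpleGraph V) {p : ℕ} (x y : Fin p → V)
    (hx : Function.Injective x) (hy : Function.Injective y) (hxy : ∀ i j, x i ≠ y j)
    (S : Finset V) (D : ℕ) (hD : ∀ u ∈ S, H.degree u ≤ D) :
    (univ.filter (fun a : Fin p × Fin p => H.Adj (x a.1) (y a.2) ∨
      ∃ u ∈ S, H.Adj u (x a.1) ∧ H.Adj u (y a.2))).card ≤ H.edgeFinset.card + S.card * (D * D) := by
  have hsub : (univ.filter (fun a : Fin p × Fin p => H.Adj (x a.1) (y a.2) ∨
      ∃ u ∈ S, H.Adj u (x a.1) ∧ H.Adj u (y a.2))) ⊆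
      (univ.filter (fun a : Fin p × Fin p => H.Adj (x a.1) (y a.2))) ∪
      S.biUnion (fun u => univ.filter (fun a : Fin p × Fin p =>
        H.Adj u (x a.1) ∧ H.Adj u (y a.2))) := by
    intro a ha
    simp only [mem_filter, mem_univ, true_and] at ha
    simp only [mem_union, mem_filter, mem_univ, true_and, mem_biUnion]
    exact ha
  refine (card_le_card hsub).trans ((card_union_le _ _).trans ?_)
  refine Nat.add_le_add (count1 H x y hx hy hxy) ?_
  refine card_biUnion_le.trans ?_
  rw [← smul_eq_mul, ← Finset.sum_const]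
  exact Finset.sum_le_sum (fun u hu => count2 H x y hx hy u D (hD u hu))

open Classical in
lemma count4 {V : Type} [Fintype V] (H : SimpleGraph V) {p : ℕ} (x y : Fin p → V)
    (hx : Function.Injective x) (hy : Function.Injective y) (D : ℕ)
    (hD : ∀ j, H.degree (y j) ≤ D) :
    (univ.filter (fun a : (Fin p × Fin p) × (Fin p × Fin p) =>
      a.1.1 ≠ a.1.2 ∧ a.2.1 ≠ a.2.2 ∧ (H.Adj (y a.2.2) (x a.1.1) ∧ H.Adj (y a.2.1) (x a.1.2) ∧
        H.Adj (y a.2.1) (y a.2.2)))).card ≤ p * D ^ 3 := by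
  set A := (univ.filter (fun a : (Fin p × Fin p) × (Fin p × Fin p) =>
      a.1.1 ≠ a.1.2 ∧ a.2.1 ≠ a.2.2 ∧ (H.Adj (y a.2.2) (x a.1.1) ∧ H.Adj (y a.2.1) (x a.1.2) ∧
        H.Adj (y a.2.1) (y a.2.2)))) with hA
  have h1 : A.card ≤ (D * D) * (A.image (fun a => a.2)).card := by
    apply Finset.card_le_mul_card_image
    rintro ⟨j, j'⟩ _
    have : (A.filter (fun a => a.2 = (j, j'))).card ≤
        ((univ.filter (fun i : Fin p => H.Adj (y j') (x i))) ×ˢ
          (univ.filter (fun i : Fin p => H.Adj (y j) (x i)))).card := by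
      refine Finset.card_le_card_of_injOn (fun a => a.1) ?_ ?_
      · rintro ⟨⟨i, i'⟩, b⟩ ha
        simp only [hA, coe_filter, mem_filter, mem_univ, true_and, Set.mem_ofPred_eq] at ha
        obtain ⟨⟨_, _, h1, h2, _⟩, hb⟩ := ha
        subst hb
        simp only [coe_product, coe_filter, mem_univ, true_and, Set.mem_prod, Set.mem_ofPred_eq]
        exact ⟨h1, h2⟩
      · rintro ⟨a, b⟩ ha ⟨a', b'⟩ ha' h
        simp only [coe_filter, Set.mem_ofPred_eq] at ha ha' h
        rw [h, ha.2, ha'.2]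
    refine this.trans ?_
    rw [card_product]
    exact Nat.mul_le_mul (card_nbr_le H x hx _ D (hD _)) (card_nbr_le H x hx _ D (hD _))
  have h2 : (A.image (fun a => a.2)).card ≤ D * ((A.image (fun a => a.2)).image (fun b => b.1)).card := by
    apply Finset.card_le_mul_card_image
    intro j _
    have : ((A.image (fun a => a.2)).filter (fun b => b.1 = j)).card ≤
        (univ.filter (fun i : Fin p => H.Adj (y j) (y i))).card := by
      refine Finset.card_le_card_of_injOn (fun b => b.2) ?_ ?_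
      · rintro ⟨b1, b2⟩ hb
        simp only [coe_filter, mem_image, Set.mem_ofPred_eq, hA, mem_filter, mem_univ,
          true_and] at hb
        obtain ⟨⟨a, ha, hab⟩, hb1⟩ := hb
        obtain ⟨_, _, _, _, h3⟩ := ha
        rw [hab] at h3
        simp only [coe_filter, mem_univ, true_and, Set.mem_ofPred_eq]
        subst hb1
        exact h3
      · rintro ⟨a, b⟩ ha ⟨a', b'⟩ ha' h
        simp only [coe_filter, Set.mem_ofPred_eq] at ha ha' h
        rw [h, ha.2, ha'.2]
    exact this.trans (card_nbr_le H y hy _ D (hD _))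
  have h3 : ((A.image (fun a => a.2)).image (fun b => b.1)).card ≤ p := by
    refine (Finset.card_le_univ _).trans ?_
    simp
  calc A.card ≤ (D * D) * (D * p) := h1.trans (Nat.mul_le_mul_left _ (h2.trans (Nat.mul_le_mul_left _ h3)))
    _ = p * D ^ 3 := by ring

end TH481.DM
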