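import Pool.Agent.TH481.DenseMinor2

/-! Clique minors in graphs with few missing edges: the main bound. -/

namespace TH481.DM

open Finset

open Classical in
lemma low_degree {V : Type} [Fintype V] (H : SimpleGraph V) (D : ℕ)
    (hm : 8 * H.edgeFinset.card ≤ D * Fintype.card V) (hn : 0 < Fintype.card V) :
    3 * Fintype.card V < 4 * (univ.filter (fun v => H.degree v ≤ D)).card := by
  have h1 : (D + 1) * (univ.filter (fun v => ¬ H.degree v ≤ D)).card ≤ 2 * H.edgeFinset.card := by
    rw [← H.sum_degrees_eq_twice_card_edges]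
    calc (D + 1) * (univ.filter (fun v => ¬ H.degree v ≤ D)).card
        = ∑ v ∈ univ.filter (fun v => ¬ H.degree v ≤ D), (D + 1) := by
          rw [Finset.sum_const, smul_eq_mul, mul_comm]
      _ ≤ ∑ v ∈ univ.filter (fun v => ¬ H.degree v ≤ D), H.degree v := by
          refine Finset.sum_le_sum (fun v hv => ?_)
          simp only [mem_filter, mem_univ, true_and] at hv
          omega
      _ ≤ ∑ v, H.degree v := Finset.sum_le_sum_of_subset (filter_subset _ _)
  have h2 := Finset.card_filter_add_card_filter_not (s := (univ : Finset V))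
    (fun v => H.degree v ≤ D)
  rw [Finset.card_univ] at h2
  have h3 : 4 * ((D + 1) * (univ.filter (fun v => ¬ H.degree v ≤ D)).card) ≤ D * Fintype.card V := by
    omega
  have h4 : 4 * (univ.filter (fun v => ¬ H.degree v ≤ D)).card < Fintype.card V := by
    by_contra hcon
    replace hcon := not_lt.1 hcon
    have : (D + 1) * Fintype.card V ≤ (D + 1) * (4 * (univ.filter (fun v => ¬ H.degree v ≤ D)).card) :=
      Nat.mul_le_mul_left _ hcon
    nlinarith
  omega

open Classical in
lemma greedy {V : Type} [Fintype V] (H : SimpleGraph V) (W : Finset V) (D : ℕ)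
    (hW : ∀ v ∈ W, H.degree v ≤ D) : ∀ s : ℕ, s * (D + 1) ≤ W.card →
    ∃ S ⊆ W, S.card = s ∧ ∀ u ∈ S, ∀ v ∈ S, ¬ H.Adj u v := by
  intro s
  induction s with
  | zero => intro _; exact ⟨∅, by simp, by simp, by simp⟩
  | succ s ih =>
    intro hs
    obtain ⟨S, hSW, hSc, hSi⟩ := ih (by nlinarith)
    have hT : (S ∪ S.biUnion (fun u => H.neighborFinset u)).card < W.card := by
      calc (S ∪ S.biUnion (fun u => H.neighborFinset u)).card
          ≤ S.card + (S.biUnion (fun u => H.neighborFinset u)).card := card_union_le _ _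
        _ ≤ S.card + S.card * D := by
            refine Nat.add_le_add_left (card_biUnion_le_card_mul _ _ _ ?_) _
            intro u hu
            rw [SimpleGraph.card_neighborFinset_eq_degree]
            exact hW u (hSW hu)
        _ < W.card := by rw [hSc]; nlinarith
    obtain ⟨w, hw, hwT⟩ := Finset.exists_mem_notMem_of_card_lt_card hT
    simp only [mem_union, mem_biUnion, SimpleGraph.mem_neighborFinset, not_or, not_exists,
      not_and] at hwT
    refine ⟨insert w S, ?_, ?_, ?_⟩
    · intro a ha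
      rcases mem_insert.1 ha with rfl | ha
      · exact hw
      · exact hSW ha
    · rw [card_insert_of_notMem hwT.1, hSc]
    · intro u hu v hv huv
      rcases mem_insert.1 hu with hu' | hu'
      · rcases mem_insert.1 hv with hv' | hv'
        · rw [hu', hv'] at huv
          exact H.irrefl huv
        · rw [hu'] at huv
          exact hwT.2 v hv' huv.symm
      · rcases mem_insert.1 hv with hv' | hv'
        · rw [hv'] at huv
          exact hwT.2 u hu' huv
        · exact hSi u hu' v hv' huv

open Classical in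
/-- Combinatorial core: `s` independent (in `H = Gᶜ`) vertices of low degree, `2p` other vertices. -/
theorem core {V : Type} [Fintype V] (G H : SimpleGraph V)
    (hHadj : ∀ u v, H.Adj u v ↔ u ≠ v ∧ ¬ G.Adj u v) (D s p : ℕ) (hn : 0 < Fintype.card V)
    (hm : 8 * H.edgeFinset.card ≤ D * Fintype.card V)
    (hs : s * (D + 1) * 4 ≤ 3 * Fintype.card V) (hs2 : 2 * s ≤ Fintype.card V)
    (hsp : s + 2 * p = Fintype.card V) :
    ∃ r : ℕ, p * (p - 1) * r ≤ (p - 1) * (H.edgeFinset.card + s * (D * D)) + p * D ^ 3 ∧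
      ∀ t, t ≤ s + (p - r) → HasCliqueMinor G t := by
  set W := univ.filter (fun v => H.degree v ≤ D) with hWdef
  have hWc := low_degree H D hm hn
  rw [← hWdef] at hWc
  have hWd : ∀ v ∈ W, H.degree v ≤ D := fun v hv => by simpa [hWdef] using hv
  obtain ⟨S, hSW, hSc, hSi⟩ := greedy H W D hWd s (by nlinarith)
  -- choose Y
  have hWS : p ≤ (W \ S).card := by
    rw [card_sdiff_of_subset hSW, hSc]
    omega
  obtain ⟨Y, hYsub, hYc⟩ := Finset.exists_subset_card_eq hWS
  have hSY : Disjoint S Y := by
    rw [Finset.disjoint_right]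
    intro a ha
    exact (mem_sdiff.1 (hYsub ha)).2
  set X := univ \ (S ∪ Y) with hXdef
  have hXc : X.card = p := by
    rw [hXdef, card_sdiff_of_subset (subset_univ _), card_union_of_disjoint hSY, card_univ, hSc, hYc]
    omega
  set x : Fin p → V := fun i => (X.equivFinOfCardEq hXc).symm i with hx
  set y : Fin p → V := fun i => (Y.equivFinOfCardEq hYc).symm i with hy
  have hxX : ∀ i, x i ∈ X := fun i => ((X.equivFinOfCardEq hXc).symm i).2
  have hyY : ∀ i, y i ∈ Y := fun i => ((Y.equivFinOfCardEq hYc).symm i).2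
  have hxinj : Function.Injective x := by
    intro i j h
    exact (X.equivFinOfCardEq hXc).symm.injective (Subtype.ext h)
  have hyinj : Function.Injective y := by
    intro i j h
    exact (Y.equivFinOfCardEq hYc).symm.injective (Subtype.ext h)
  have hxy : ∀ i j, x i ≠ y j := by
    intro i j h
    have h1 := hxX i
    rw [h, hXdef] at h1
    exact (mem_sdiff.1 h1).2 (mem_union_right _ (hyY j))
  have hxS : ∀ i, x i ∉ S := by
    intro i h
    have h1 := hxX i
    rw [hXdef] at h1
    exact (mem_sdiff.1 h1).2 (mem_union_left _ h)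
  have hyS : ∀ i, y i ∉ S := fun i h => (Finset.disjoint_left.1 hSY) h (hyY i)
  have hyD : ∀ j, H.degree (y j) ≤ D := fun j => hWd _ (mem_sdiff.1 (hYsub (hyY j))).1
  obtain ⟨σ, hσ⟩ := exists_perm (p := p)
    (fun i j => H.Adj (x i) (y j) ∨ ∃ u ∈ S, H.Adj u (x i) ∧ H.Adj u (y j))
    (fun i i' j j' => H.Adj (y j') (x i) ∧ H.Adj (y j) (x i') ∧ H.Adj (y j) (y j'))
    (H.edgeFinset.card + S.card * (D * D)) (p * D ^ 3)
    (by convert count12 H x y hxinj hyinj hxy S D (fun u hu => hWd u (hSW hu)))
    (by convert count4 H x y hxinj hyinj D hyD)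
  rw [hSc] at hσ
  refine ⟨_, hσ, ?_⟩
  intro t ht
  refine minor_of_pairs G S p x y hxinj hyinj hxy hxS hyS ?_ σ _ ?_ t (by rw [hSc]; exact ht)
  · intro u hu v hv huv
    by_contra hcon
    exact hSi u hu v hv ((hHadj u v).2 ⟨huv, hcon⟩)
  · intro i hi
    simp only [mem_filter, mem_univ, true_and, not_or, not_exists, not_and] at hi
    obtain ⟨⟨h1, h2⟩, h3⟩ := hi
    refine ⟨?_, ?_, ?_⟩
    · by_contra hcon
      exact h1 ((hHadj _ _).2 ⟨hxy _ _, hcon⟩)
    · intro u hu
      by_contra hcon
      push Not at hcon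
      exact h2 u hu ((hHadj _ _).2 ⟨fun h => hxS _ (h ▸ hu), hcon.1⟩)
        ((hHadj _ _).2 ⟨fun h => hyS _ (h ▸ hu), hcon.2⟩)
    · intro i' hii'
      by_contra hcon
      push Not at hcon
      refine h3 i' hii' ((hHadj _ _).2 ⟨(hxy _ _).symm, fun h => hcon.1 h.symm⟩)
        ((hHadj _ _).2 ⟨(hxy _ _).symm, hcon.2.1⟩)
        ((hHadj _ _).2 ⟨fun h => hii' (σ.injective (hyinj h)), hcon.2.2⟩)

end TH481.DM
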