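import Pool.Agent.TH481.DenseMinor3

/-! Clique minors in graphs with few missing edges: numbers. -/

namespace TH481.DM

open Finset

lemma real_bound (n m s p D r : ℝ) (hp : 16 * p ≥ 5 * n) (hn : 64 * D ^ 2 ≤ n) (hD : 1 ≤ D)
    (hm : 8 * m ≤ D * n) (hs : 0 ≤ s)
    (h : p * (p - 1) * r ≤ (p - 1) * (m + s * (D * D)) + p * D ^ 3) :
    r ≤ 43 / 95 * D + s / 20 := by
  have hn64 : 64 ≤ n := by nlinarith
  have hp1 : 1 < p := by nlinarith
  have hpp : 0 < p * (p - 1) := by nlinarith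
  have a1 : m ≤ p * (2 / 5 * D) := by nlinarith
  have a2 : s * (D * D) ≤ p * (s / 20) := by
    have : D * D ≤ p / 20 := by nlinarith
    nlinarith [mul_le_mul_of_nonneg_left this hs]
  have a3 : D ^ 3 ≤ (p - 1) * (D / 19) := by
    have : D ^ 2 ≤ (p - 1) / 19 := by nlinarith
    nlinarith [mul_le_mul_of_nonneg_left this (by linarith : (0 : ℝ) ≤ D)]
  have b12 : (p - 1) * (m + s * (D * D)) ≤ (p - 1) * (p * (2 / 5 * D) + p * (s / 20)) :=
    mul_le_mul_of_nonneg_left (by linarith) (by linarith)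
  have b3 : p * D ^ 3 ≤ p * ((p - 1) * (D / 19)) :=
    mul_le_mul_of_nonneg_left a3 (by linarith)
  have key : p * (p - 1) * r ≤ p * (p - 1) * (43 / 95 * D + s / 20) := by
    calc p * (p - 1) * r ≤ (p - 1) * (m + s * (D * D)) + p * D ^ 3 := h
      _ ≤ (p - 1) * (p * (2 / 5 * D) + p * (s / 20)) + p * ((p - 1) * (D / 19)) := by linarith
      _ = p * (p - 1) * (43 / 95 * D + s / 20) := by ring
  exact le_of_mul_le_mul_left key hpp

open Classical in
theorem main1 {V : Type} [Fintype V] (G H : SimpleGraph V)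
    (hHadj : ∀ u v, H.Adj u v ↔ u ≠ v ∧ ¬ G.Adj u v) (D t : ℕ) (hD : 1 ≤ D)
    (hm : 8 * H.edgeFinset.card ≤ D * Fintype.card V) (hn : 64 * D ^ 2 ≤ Fintype.card V)
    (ht : 8 * D * t ≤ (4 * D + 1) * Fintype.card V) : HasCliqueMinor G t := by
  set n := Fintype.card V with hndef
  have hn64 : 64 ≤ n := by nlinarith
  -- choose `s`
  obtain ⟨s, hs1, hs2, hs3⟩ : ∃ s : ℕ, s * (D + 1) * 4 ≤ 3 * n ∧ 3 * n < 4 * (D + 1) * (s + 2) ∧
      s % 2 = n % 2 := by
    set s0 := 3 * n / (4 * (D + 1)) with hs0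
    have e1 : 4 * (D + 1) * s0 ≤ 3 * n := Nat.mul_div_le _ _
    have e2 : 3 * n < 4 * (D + 1) * (s0 + 1) := Nat.lt_mul_div_succ _ (by omega)
    by_cases hpar : s0 % 2 = n % 2
    · exact ⟨s0, by nlinarith, by nlinarith, hpar⟩
    · have hs0pos : 1 ≤ s0 := by
        by_contra hcon
        have : s0 = 0 := Nat.lt_one_iff.1 (not_le.1 hcon)
        rw [this] at e2
        nlinarith
      refine ⟨s0 - 1, ?_, ?_, by omega⟩
      · have : (s0 - 1) * (D + 1) ≤ s0 * (D + 1) := Nat.mul_le_mul_right _ (by omega)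
        nlinarith
      · have : s0 - 1 + 2 = s0 + 1 := by omega
        rw [this]; exact e2
  have hs8 : 8 * s ≤ 3 * n := by nlinarith
  obtain ⟨p, hp⟩ : ∃ p, s + 2 * p = n := ⟨(n - s) / 2, by omega⟩
  obtain ⟨r, hr, hminor⟩ := core G H hHadj D s p (by omega) hm hs1 (by omega) hp
  apply hminor
  by_contra hcon
  push Not at hcon
  have hcon' : s + p + 1 ≤ t + r := by omega
  have hp16 : 5 * n ≤ 16 * p := by omega
  have hp1 : 1 ≤ p := by omega
  have hrR : (p : ℝ) * ((p : ℝ) - 1) * r ≤ ((p : ℝ) - 1) * ((H.edgeFinset.card : ℝ) +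
      s * ((D : ℝ) * D)) + p * (D : ℝ) ^ 3 := by
    have := (Nat.cast_le (α := ℝ)).2 hr
    push_cast [Nat.cast_sub hp1] at this
    exact this
  have hb := real_bound (n : ℝ) (H.edgeFinset.card : ℝ) s p D r
    (by exact_mod_cast hp16) (by exact_mod_cast hn) (by exact_mod_cast hD)
    (by exact_mod_cast hm) (by positivity) hrR
  have c1 : (s : ℝ) + p + 1 ≤ t + r := by exact_mod_cast hcon'
  have c2 : 8 * (D : ℝ) * t ≤ (4 * D + 1) * n := by exact_mod_cast ht
  have c3 : 3 * (n : ℝ) < 4 * (D + 1) * (s + 2) := by exact_mod_cast hs2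
  have c4 : (s : ℝ) + 2 * p = n := by exact_mod_cast hp
  have c5 : (1 : ℝ) ≤ D := by exact_mod_cast hD
  have c6 : 64 * (D : ℝ) ^ 2 ≤ n := by exact_mod_cast hn
  have c7 : (0 : ℝ) ≤ s := by positivity
  -- 4 D s + 8 D ≤ n + 8 D r
  have d1 : 4 * (D : ℝ) * s + 8 * D ≤ n + 8 * D * r := by
    nlinarith [mul_le_mul_of_nonneg_left c1 (by linarith : (0 : ℝ) ≤ 8 * D)]
  have d2 : 8 * (D : ℝ) * r ≤ 8 * D * (43 / 95 * D + s / 20) :=
    mul_le_mul_of_nonneg_left hb (by linarith)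
  have d3 : 3 * (n : ℝ) ≤ 8 * D * (s + 2) := by
    have : (4 * ((D : ℝ) + 1)) * (s + 2) ≤ 8 * D * (s + 2) :=
      mul_le_mul_of_nonneg_right (by linarith) (by linarith)
    linarith
  nlinarith

end TH481.DM
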