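import Pool.Agent.TH481.DenseMinor4

/-! Sharpness: complete multipartite graphs plus isolated vertices. -/

namespace TH481.DM

open Finset

/-- Vertices `< l` are isolated, the others are split into parts of `r` consecutive vertices. -/
def Gr (n r l : ℕ) : SimpleGraph (Fin n) where
  Adj u v := l ≤ u.1 ∧ l ≤ v.1 ∧ u.1 / r ≠ v.1 / r
  symm := ⟨fun _ _ h => ⟨h.2.1, h.1, h.2.2.symm⟩⟩
  loopless := ⟨fun _ h => h.2.2 rfl⟩

open Classical in
theorem Gr_no_minor (n r l q t : ℕ) (hl : l ≤ n) (hq : ∀ u < n, u / r < q) (ht : 2 ≤ t ∨ l = 0)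
    (h : HasCliqueMinor (Gr n r l) t) : 2 * t ≤ (n - l) + q := by
  obtain ⟨f, hc, hd, ha⟩ := h
  set F : Fin t → Finset (Fin n) := fun i => univ.filter (fun v => v ∈ f i ∧ l ≤ v.1) with hF
  have hne : ∀ i, 1 ≤ (F i).card := by
    intro i
    rw [Nat.one_le_iff_ne_zero, Finset.card_ne_zero]
    rcases ht with ht | ht
    · obtain ⟨j, hj⟩ : ∃ j : Fin t, i ≠ j := by
        by_cases h0 : i.1 = 0
        · exact ⟨⟨1, by omega⟩, fun h => by rw [h] at h0; simp at h0⟩
        · exact ⟨⟨0, by omega⟩, fun h => h0 (by rw [h])⟩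
      obtain ⟨u, hu, v, hv, huv⟩ := ha i j hj
      exact ⟨u, by simp only [hF, mem_filter, mem_univ, true_and]; exact ⟨hu, huv.1⟩⟩
    · obtain ⟨⟨u, hu⟩⟩ := (hc i).nonempty
      exact ⟨u, by simp only [hF, mem_filter, mem_univ, true_and]; exact ⟨hu, by omega⟩⟩
  set T : Finset (Fin t) := univ.filter (fun i => (F i).card = 1) with hT
  have hTq : T.card ≤ q := by
    have hne' : ∀ i, (F i).Nonempty := fun i => Finset.card_pos.1 (hne i)
    choose g hgm using hne'
    have hg : ∀ i ∈ T, F i = {g i} := by
      intro i hi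
      simp only [hT, mem_filter, mem_univ, true_and] at hi
      obtain ⟨x, hx⟩ := Finset.card_eq_one.1 hi
      have := hgm i
      rw [hx, mem_singleton] at this
      rw [hx, this]
    have hmaps : Set.MapsTo (fun i => (g i).1 / r) (T : Set (Fin t)) (Finset.range q : Set ℕ) := by
      intro i _
      simp only [coe_range, Set.mem_Iio]
      exact hq _ (g i).2
    have hinj : Set.InjOn (fun i => (g i).1 / r) (T : Set (Fin t)) := by
      intro i hi j hj hij
      by_contra hne
      obtain ⟨u, hu, v, hv, huv⟩ := ha i j hne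
      have hu' : u ∈ F i := by simp only [hF, mem_filter, mem_univ, true_and]; exact ⟨hu, huv.1⟩
      have hv' : v ∈ F j := by simp only [hF, mem_filter, mem_univ, true_and]; exact ⟨hv, huv.2.1⟩
      rw [hg i hi, mem_singleton] at hu'
      rw [hg j hj, mem_singleton] at hv'
      apply huv.2.2
      rw [hu', hv']
      exact hij
    simpa using Finset.card_le_card_of_injOn _ hmaps hinj
  have hsum : ∑ i, (F i).card ≤ n - l := by
    rw [← Finset.card_biUnion]
    · have hsub : (univ.biUnion F) ⊆ univ.filter (fun v : Fin n => l ≤ v.1) := by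
        intro v hv
        simp only [mem_biUnion, mem_univ, true_and, hF, mem_filter] at hv ⊢
        obtain ⟨i, hi⟩ := hv
        exact hi.2
      refine (card_le_card hsub).trans ?_
      have : (univ.filter (fun v : Fin n => l ≤ v.1)).card ≤ (Finset.Ico l n).card := by
        refine Finset.card_le_card_of_injOn (fun v => v.1) ?_ ?_
        · intro v hv
          simp only [coe_filter, mem_univ, true_and, Set.mem_ofPred_eq] at hv
          simp only [coe_Ico, Set.mem_Ico]
          exact ⟨hv, v.2⟩
        · intro a _ b _ hab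
          exact Fin.ext hab
      simpa using this
    · intro i _ j _ hij
      rw [Function.onFun, Finset.disjoint_left]
      intro v hv hv'
      simp only [hF, mem_filter, mem_univ, true_and] at hv hv'
      exact (Set.disjoint_left.1 (hd i j hij)) hv.1 hv'.1
  have hlow : 2 * t ≤ ∑ i, (F i).card + T.card := by
    have h1 : T.card = ∑ i, (if (F i).card = 1 then 1 else 0) := by
      rw [hT, Finset.card_filter]
    rw [h1, ← Finset.sum_add_distrib]
    calc 2 * t = ∑ _i : Fin t, 2 := by simp [mul_comm]
      _ ≤ _ := by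
        refine Finset.sum_le_sum (fun i _ => ?_)
        have := hne i
        split_ifs with h2 <;> omega
  omega

open Classical in
theorem Gr_missing (n r l : ℕ) (hr : 1 ≤ r) :
    2 * ((Gr n r l)ᶜ.edgeSet).ncard ≤ l * n + n * (l + (r - 1)) := by
  set H := (Gr n r l)ᶜ with hH
  have hedge : (H.edgeSet).ncard = H.edgeFinset.card := by
    rw [← SimpleGraph.coe_edgeFinset, Set.ncard_coe_finset]
  rw [hedge, ← H.sum_degrees_eq_twice_card_edges]
  have hdeg : ∀ v : Fin n, H.degree v ≤ (if v.1 < l then n else 0) + (l + (r - 1)) := by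
    intro v
    split_ifs with hv
    · have := H.degree_lt_card_verts v
      rw [Fintype.card_fin] at this
      omega
    · rw [zero_add, ← SimpleGraph.card_neighborFinset_eq_degree]
      have hsub : H.neighborFinset v ⊆ (univ.filter (fun w : Fin n => w.1 < l)) ∪
          ((univ.filter (fun w : Fin n => w.1 / r = v.1 / r)).erase v) := by
        intro w hw
        rw [SimpleGraph.mem_neighborFinset, hH, SimpleGraph.compl_adj] at hw
        obtain ⟨hne, hw⟩ := hw
        by_cases hwl : w.1 < l
        · exact mem_union_left _ (by simpa using hwl)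
        · refine mem_union_right _ (mem_erase.2 ⟨hne.symm, ?_⟩)
          simp only [mem_filter, mem_univ, true_and]
          by_contra hcon
          exact hw ⟨not_lt.1 hv, not_lt.1 hwl, fun h => hcon h.symm⟩
      refine (card_le_card hsub).trans ((card_union_le _ _).trans (Nat.add_le_add ?_ ?_))
      · have : (univ.filter (fun w : Fin n => w.1 < l)).card ≤ (Finset.range l).card := by
          refine Finset.card_le_card_of_injOn (fun w => w.1) ?_ ?_
          · intro w hw
            simp only [coe_filter, mem_univ, true_and, Set.mem_ofPred_eq] at hw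
            simpa using hw
          · intro a _ b _ hab
            exact Fin.ext hab
        simpa using this
      · rw [card_erase_of_mem (by simp)]
        refine Nat.sub_le_sub_right ?_ 1
        have : (univ.filter (fun w : Fin n => w.1 / r = v.1 / r)).card ≤ (Finset.range r).card := by
          refine Finset.card_le_card_of_injOn (fun w => w.1 % r) ?_ ?_
          · intro w _
            simp only [coe_range, Set.mem_Iio]
            exact Nat.mod_lt _ (by omega)
          · intro a ha b hb hab
            simp only [coe_filter, mem_univ, true_and, Set.mem_ofPred_eq] at ha hb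
            apply Fin.ext
            have h1 := Nat.div_add_mod a.1 r
            have h2 := Nat.div_add_mod b.1 r
            rw [ha] at h1
            rw [hb] at h2
            have hab' : a.1 % r = b.1 % r := hab
            rw [hab'] at h1
            omega
        simpa using this
  calc ∑ v, H.degree v ≤ ∑ v : Fin n, ((if v.1 < l then n else 0) + (l + (r - 1))) :=
        Finset.sum_le_sum (fun v _ => hdeg v)
    _ = (∑ v : Fin n, (if v.1 < l then n else 0)) + n * (l + (r - 1)) := by
        rw [Finset.sum_add_distrib]; simp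
    _ ≤ l * n + n * (l + (r - 1)) := by
        refine Nat.add_le_add_right ?_ _
        rw [← Finset.sum_filter, Finset.sum_const, smul_eq_mul]
        refine Nat.mul_le_mul_right _ ?_
        have : (univ.filter (fun w : Fin n => w.1 < l)).card ≤ (Finset.range l).card := by
          refine Finset.card_le_card_of_injOn (fun w => w.1) ?_ ?_
          · intro w hw
            simp only [coe_filter, mem_univ, true_and, Set.mem_ofPred_eq] at hw
            simpa using hw
          · intro a _ b _ hab
            exact Fin.ext hab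
        simpa using this

/-- Few missing edges, small Hadwiger number. -/
theorem sharp1 (n m : ℕ) (hn : 1 ≤ n) (hm : 1 ≤ m) :
    ∃ G : SimpleGraph (Fin n), (Gᶜ.edgeSet).ncard ≤ m ∧
      ∀ t, HasCliqueMinor G t → (t : ℝ) ≤ n / 2 + n ^ 2 / (4 * m) + 1 / 2 := by
  set r := 2 * m / n + 1 with hr
  refine ⟨Gr n r 0, ?_, ?_⟩
  · have h1 := Gr_missing n r 0 (by rw [hr]; exact Nat.succ_pos _)
    have h2 : n * (2 * m / n) ≤ 2 * m := Nat.mul_div_le _ _
    have h3 : r - 1 = 2 * m / n := by rw [hr, Nat.add_sub_cancel]
    rw [h3] at h1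
    simp only [zero_mul, zero_add] at h1
    omega
  · intro t ht
    have h1 := Gr_no_minor n r 0 ((n - 1) / r + 1) t (by omega) (by
      intro u hu
      have : u / r ≤ (n - 1) / r := Nat.div_le_div_right (by omega)
      omega) (Or.inr rfl) ht
    have h2 : 2 * m < n * r := by
      rw [hr]; exact Nat.lt_mul_div_succ _ (by omega)
    have h3 : r * ((n - 1) / r) ≤ n - 1 := Nat.mul_div_le _ _
    have hmR : (0 : ℝ) < m := by exact_mod_cast hm
    have hnR : (0 : ℝ) < n := by exact_mod_cast hn
    have hrR : (0 : ℝ) < r := by positivity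
    have h1R : 2 * (t : ℝ) ≤ n + ((((n - 1) / r : ℕ) : ℝ) + 1) := by
      have := h1; rw [Nat.sub_zero] at this; exact_mod_cast this
    have h2R : 2 * (m : ℝ) < n * r := by exact_mod_cast h2
    have h3R : (r : ℝ) * (((n - 1) / r : ℕ) : ℝ) ≤ n := by
      have : r * ((n - 1) / r) ≤ n := by omega
      exact_mod_cast this
    have h4 : (((n - 1) / r : ℕ) : ℝ) ≤ n ^ 2 / (2 * m) := by
      rw [le_div_iff₀ (by positivity)]
      have hx : (0 : ℝ) ≤ (((n - 1) / r : ℕ) : ℝ) := by positivity
      nlinarith [mul_le_mul_of_nonneg_left h2R.le hx, mul_le_mul_of_nonneg_left h3R hnR.le]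
    have h5 : (n : ℝ) ^ 2 / (4 * m) = n ^ 2 / (2 * m) / 2 := by
      field_simp; ring
    rw [h5]
    linarith

/-- With `3 n ^ (3 / 2)` missing edges there may be no `K_{⌈n/2⌉}` minor. -/
theorem sharp2 (n : ℕ) (hn : 3 ≤ n) :
    ∃ G : SimpleGraph (Fin n), (Gᶜ.edgeSet).ncard ^ 2 ≤ 9 * n ^ 3 ∧
      ¬ HasCliqueMinor G ((n + 1) / 2) := by
  set s := Nat.sqrt n with hs
  have hs1 : s * s ≤ n := Nat.sqrt_le n
  have hs2 : n < (s + 1) * (s + 1) := Nat.lt_succ_sqrt n
  have hs3 : 1 ≤ s := by
    by_contra hcon
    have : s = 0 := by omega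
    rw [this] at hs2; omega
  have hle : s + 2 ≤ n := by
    rcases Nat.lt_or_ge s 2 with h | h
    · omega
    · nlinarith
  refine ⟨Gr n (s + 1) (s + 2), ?_, ?_⟩
  · have h1 := Gr_missing n (s + 1) (s + 2) (by omega)
    have h2 : 2 * ((Gr n (s + 1) (s + 2))ᶜ.edgeSet).ncard ≤ n * (3 * s + 4) := by
      have : s + 1 - 1 = s := by omega
      rw [this] at h1
      nlinarith
    set M := ((Gr n (s + 1) (s + 2))ᶜ.edgeSet).ncard
    have h3 : (3 * s + 4) ^ 2 ≤ 36 * n := by
      rcases Nat.lt_or_ge s 2 with h | h
      · have : s = 1 := by omega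
        rw [this]; omega
      · nlinarith
    have h4 : (2 * M) ^ 2 ≤ (n * (3 * s + 4)) ^ 2 := Nat.pow_le_pow_left h2 2
    have h5 : (n * (3 * s + 4)) ^ 2 ≤ n ^ 2 * (36 * n) := by
      rw [mul_pow]; exact Nat.mul_le_mul_left _ h3
    have h6 : 4 * M ^ 2 ≤ 4 * (9 * n ^ 3) := by
      calc 4 * M ^ 2 = (2 * M) ^ 2 := by ring
        _ ≤ n ^ 2 * (36 * n) := h4.trans h5
        _ = 4 * (9 * n ^ 3) := by ring
    omega
  · intro h
    have h1 := Gr_no_minor n (s + 1) (s + 2) (s + 1) ((n + 1) / 2) hle (by
      intro u hu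
      exact Nat.div_lt_of_lt_mul (by omega)) (Or.inl (by omega)) h
    omega

end TH481.DM
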