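import Pool.Agent.TH481.DenseMinor5
import Pool.Agent.W212.EFF.Gallai

/-! Chromatic number as a cover number; minors inside vertex sets. -/

namespace TH481.DM

open Finset Pool.Agent.W212.EFF

/-- independent sets -/
def Ind {V : Type} (G : SimpleGraph V) (S : Finset V) : Prop := ∀ x ∈ S, ∀ y ∈ S, ¬ G.Adj x y

lemma ind_cpx {V : Type} (G : SimpleGraph V) : Cpx (Ind G) where
  down := fun _ _ hS hT x hx y hy => hS x (hT hx) y (hT hy)
  empty := fun x hx => absurd hx (Finset.notMem_empty x)
  single := fun v x hx y hy => by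
    rw [Finset.mem_singleton] at hx hy
    rw [hx, hy]
    exact G.irrefl

lemma ind_pair {V : Type} [DecidableEq V] (G : SimpleGraph V) (x y : V) :
    Ind G {x, y} ↔ ¬ G.Adj x y := by
  constructor
  · intro h
    exact h x (by simp) y (by simp)
  · intro h a ha b hb hab
    simp only [mem_insert, mem_singleton] at ha hb
    rcases ha with rfl | rfl <;> rcases hb with rfl | rfl
    · exact G.irrefl hab
    · exact h hab
    · exact h hab.symm
    · exact G.irrefl hab

open Classical in
lemma cov_iff {V : Type} (G : SimpleGraph V) : ∀ (k : ℕ) (C : Finset V),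
    Cov (Ind G) k C ↔ ∃ c : V → ℕ, (∀ v ∈ C, c v < k) ∧ ∀ u ∈ C, ∀ v ∈ C, G.Adj u v → c u ≠ c v := by
  intro k
  induction k with
  | zero =>
    intro C
    constructor
    · intro h
      simp only [Cov] at h
      subst h
      exact ⟨fun _ => 0, by simp, by simp⟩
    · rintro ⟨c, hc, _⟩
      simp only [Cov]
      by_contra hne
      obtain ⟨v, hv⟩ := Finset.nonempty_iff_ne_empty.2 hne
      exact absurd (hc v hv) (by omega)
  | succ k ih =>
    intro C
    constructor
    · rintro ⟨S, hS, h⟩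
      obtain ⟨c, hc1, hc2⟩ := (ih _).1 h
      refine ⟨fun v => if v ∈ S then k else c v, ?_, ?_⟩
      · intro v hv
        by_cases hvS : v ∈ S
        · simp [hvS]
        · simp only [hvS, if_false]
          have := hc1 v (mem_sdiff.2 ⟨hv, hvS⟩)
          omega
      · intro u hu v hv huv
        by_cases hvS : v ∈ S <;> by_cases huS : u ∈ S <;> simp only [hvS, huS, if_true, if_false]
        · exact absurd huv (hS u huS v hvS)
        · have := hc1 u (mem_sdiff.2 ⟨hu, huS⟩)
          omega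
        · have := hc1 v (mem_sdiff.2 ⟨hv, hvS⟩)
          omega
        · exact hc2 u (mem_sdiff.2 ⟨hu, huS⟩) v (mem_sdiff.2 ⟨hv, hvS⟩) huv
    · rintro ⟨c, hc1, hc2⟩
      refine ⟨C.filter (fun v => c v = k), ?_, (ih _).2 ⟨c, ?_, ?_⟩⟩
      · intro x hx y hy hxy
        rw [mem_filter] at hx hy
        exact hc2 x hx.1 y hy.1 hxy (hx.2.trans hy.2.symm)
      · intro v hv
        rw [mem_sdiff, mem_filter, not_and] at hv
        have h1 := hc1 v hv.1
        have h2 := hv.2 hv.1
        omega
      · intro u hu v hv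
        exact hc2 u (mem_sdiff.1 hu).1 v (mem_sdiff.1 hv).1

lemma colorable_induce_iff {V : Type} (G : SimpleGraph V) (k : ℕ) (C : Finset V) :
    (G.induce (C : Set V)).Colorable k ↔
      ∃ c : V → ℕ, (∀ v ∈ C, c v < k) ∧ ∀ u ∈ C, ∀ v ∈ C, G.Adj u v → c u ≠ c v := by
  classical
  constructor
  · rintro ⟨c⟩
    refine ⟨fun v => if h : v ∈ C then (c ⟨v, h⟩).1 else 0, ?_, ?_⟩
    · intro v hv
      simp only [hv, dif_pos]
      exact (c ⟨v, hv⟩).2
    · intro u hu v hv huv h
      simp only [hv, hu, dif_pos] at h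
      exact c.valid (v := ⟨u, hu⟩) (w := ⟨v, hv⟩) (by simpa using huv) (Fin.ext h)
  · rintro ⟨c, hc1, hc2⟩
    refine ⟨SimpleGraph.Coloring.mk (fun v => (⟨c v.1, hc1 v.1 (by simpa using v.2)⟩ : Fin k)) ?_⟩
    rintro ⟨u, hu⟩ ⟨v, hv⟩ huv h
    have hu' : u ∈ C := by simpa using hu
    have hv' : v ∈ C := by simpa using hv
    exact hc2 u hu' v hv' (by simpa using huv) (Fin.mk.inj h)

lemma colorable_iff {V : Type} [Fintype V] (G : SimpleGraph V) (k : ℕ) :
    G.Colorable k ↔
      ∃ c : V → ℕ, (∀ v ∈ (univ : Finset V), c v < k) ∧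
        ∀ u ∈ (univ : Finset V), ∀ v ∈ (univ : Finset V), G.Adj u v → c u ≠ c v := by
  constructor
  · rintro ⟨c⟩
    exact ⟨fun v => (c v).1, fun v _ => (c v).2, fun u _ v _ huv h => c.valid huv (Fin.ext h)⟩
  · rintro ⟨c, hc1, hc2⟩
    exact ⟨SimpleGraph.Coloring.mk (fun v => (⟨c v, hc1 v (mem_univ v)⟩ : Fin k))
      (fun {u v} huv h => hc2 u (mem_univ _) v (mem_univ _) huv (Fin.mk.inj h))⟩

open Classical in
lemma not_colorable_induce {V : Type} (G : SimpleGraph V) (C : Finset V)
    (h : 1 ≤ Y (Ind G) C) : ¬ (G.induce (C : Set V)).Colorable (Y (Ind G) C - 1) := by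
  intro hc
  rw [colorable_induce_iff, ← cov_iff] at hc
  have := Y_le hc
  omega

open Classical in
lemma lt_Y_univ {V : Type} [Fintype V] (G : SimpleGraph V) (k : ℕ) (h : ¬ G.Colorable k) :
    k < Y (Ind G) (univ : Finset V) := by
  by_contra hcon
  apply h
  rw [colorable_iff, ← cov_iff]
  exact (Y_spec (ind_cpx G) univ).le (ind_cpx G) (not_lt.1 hcon)

/-- `G` has a `K_t` minor with all branch sets inside `U`. -/
def MinorIn {V : Type} (G : SimpleGraph V) (U : Set V) (t : ℕ) : Prop :=
  ∃ f : Fin t → Set V, (∀ i, f i ⊆ U) ∧ (∀ i, (G.induce (f i)).Connected) ∧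
    (∀ i j, i ≠ j → Disjoint (f i) (f j)) ∧ (∀ i j, i ≠ j → ∃ u ∈ f i, ∃ v ∈ f j, G.Adj u v)

lemma minorIn_of_induce {V : Type} (G : SimpleGraph V) (U : Set V) (t : ℕ)
    (h : HasCliqueMinor (G.induce U) t) : MinorIn G U t := by
  obtain ⟨f, hc, hd, ha⟩ := h
  refine ⟨fun i => Subtype.val '' (f i), ?_, ?_, ?_, ?_⟩
  · rintro i _ ⟨x, _, rfl⟩
    exact x.2
  · intro i
    have : (Subtype.val '' (f i)) = Set.range (fun x : f i => (x.1.1 : V)) := by
      ext v; simp
    let φ : ((G.induce U).induce (f i)) →g (G.induce (Subtype.val '' (f i))) :=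
      { toFun := fun x => ⟨x.1.1, ⟨x.1, x.2, rfl⟩⟩
        map_rel' := fun {a b} h => by simpa using h }
    refine (hc i).map φ ?_
    rintro ⟨_, x, hx, rfl⟩
    exact ⟨⟨x, hx⟩, rfl⟩
  · intro i j hij
    rw [Set.disjoint_left]
    rintro _ ⟨x, hx, rfl⟩ ⟨y, hy, hxy⟩
    have : y = x := Subtype.ext hxy
    rw [this] at hy
    exact (Set.disjoint_left.1 (hd i j hij)) hx hy
  · intro i j hij
    obtain ⟨u, hu, v, hv, huv⟩ := ha i j hij
    exact ⟨u.1, ⟨u, hu, rfl⟩, v.1, ⟨v, hv, rfl⟩, by simpa using huv⟩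

lemma minorIn_zero {V : Type} (G : SimpleGraph V) (U : Set V) : MinorIn G U 0 :=
  ⟨fun _ => ∅, fun i => i.elim0, fun i => i.elim0, fun i => i.elim0, fun i => i.elim0⟩

lemma minor_join {V : Type} (G : SimpleGraph V) (A B : Set V) (a b : ℕ)
    (hA : MinorIn G A a) (hB : MinorIn G B b) (hj : ∀ x ∈ A, ∀ y ∈ B, G.Adj x y) (t : ℕ)
    (ht : t ≤ a + b) : HasCliqueMinor G t := by
  obtain ⟨f, hfs, hfc, hfd, hfa⟩ := hA
  obtain ⟨g, hgs, hgc, hgd, hga⟩ := hB
  have hne : ∀ i, (f i).Nonempty := fun i => by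
    obtain ⟨⟨x, hx⟩⟩ := (hfc i).nonempty
    exact ⟨x, hx⟩
  have hne' : ∀ i, (g i).Nonempty := fun i => by
    obtain ⟨⟨x, hx⟩⟩ := (hgc i).nonempty
    exact ⟨x, hx⟩
  have hdisj : ∀ i j, Disjoint (f i) (g j) := by
    intro i j
    rw [Set.disjoint_left]
    intro x hx hx'
    exact G.irrefl (hj x (hfs i hx) x (hgs j hx'))
  refine minor_of_family G (ι := Fin a ⊕ Fin b) (fun s => Sum.elim f g s) ?_ ?_ ?_ t (by simpa using ht)
  · rintro (i | i)
    · exact hfc i
    · exact hgc i
  · rintro (i | i) (j | j) hij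
    · exact hfd i j (fun h => hij (by rw [h]))
    · exact hdisj i j
    · exact (hdisj j i).symm
    · exact hgd i j (fun h => hij (by rw [h]))
  · rintro (i | i) (j | j) hij
    · exact hfa i j (fun h => hij (by rw [h]))
    · obtain ⟨x, hx⟩ := hne i
      obtain ⟨y, hy⟩ := hne' j
      exact ⟨x, hx, y, hy, hj x (hfs i hx) y (hgs j hy)⟩
    · obtain ⟨x, hx⟩ := hne j
      obtain ⟨y, hy⟩ := hne' i
      exact ⟨y, hy, x, hx, (hj x (hfs j hx) y (hgs i hy)).symm⟩
    · exact hga i j (fun h => hij (by rw [h]))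

lemma minor_of_minorIn {V : Type} (G : SimpleGraph V) (U : Set V) (t t' : ℕ) (h : MinorIn G U t)
    (ht : t' ≤ t) : HasCliqueMinor G t' := by
  obtain ⟨f, _, hfc, hfd, hfa⟩ := h
  exact minor_of_family G f hfc hfd hfa t' (by simpa using ht)

open Classical in
/-- Pairing across classes: `c` is a labelling with different labels adjacent. -/
theorem cross_pairs {V : Type} [Fintype V] (G : SimpleGraph V) {ι : Type} [LinearOrder ι]
    (c : V → ι) (hc : ∀ u v, c u ≠ c v → G.Adj u v) (S : Finset V)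
    (hS : ∀ u ∈ S, ∀ v ∈ S, c u = c v → u = v)
    (hbig : ∀ a : ι, 2 * ((Sᶜ).filter (fun v => c v = a)).card ≤ (Sᶜ : Finset V).card)
    (t : ℕ) (ht : t ≤ S.card + (Sᶜ : Finset V).card / 2) : HasCliqueMinor G t := by
  set N := (Sᶜ : Finset V).card with hN
  set p := N / 2 with hp
  let e0 : Fin N ≃ (Sᶜ : Finset V) := ((Sᶜ : Finset V).equivFinOfCardEq hN.symm).symm
  let f : Fin N → ι := fun j => c (e0 j).1
  let τ := Tuple.sort f
  have hmono : Monotone (f ∘ τ) := Tuple.monotone_sort f
  let e : Fin N → V := fun j => (e0 (τ j)).1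
  have heinj : Function.Injective e := by
    intro i j h
    exact τ.injective (e0.injective (Subtype.ext h))
  have heS : ∀ j, e j ∉ S := fun j => by
    have := (e0 (τ j)).2
    rw [mem_compl] at this
    exact this
  have hle : ∀ i j : Fin N, i ≤ j → c (e i) ≤ c (e j) := fun i j h => hmono h
  have h2p : 2 * p ≤ N := Nat.mul_div_le _ _
  have hN2 : N < 2 * p + 2 := by omega
  let x : Fin p → V := fun i => e ⟨i.1, by omega⟩
  let y : Fin p → V := fun i => e ⟨i.1 + p, by omega⟩
  have hne : ∀ i : Fin p, c (x i) ≠ c (y i) := by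
    intro i h
    -- all labels between are equal
    have hall : ∀ k : ℕ, (hk : i.1 ≤ k) → (hk2 : k ≤ i.1 + p) →
        c (e ⟨k, by omega⟩) = c (x i) := by
      intro k hk hk2
      apply le_antisymm
      · rw [h]; exact hle _ _ hk2
      · exact hle _ _ hk
    have hcard : p + 1 ≤ ((Sᶜ).filter (fun v => c v = c (x i))).card := by
      have : (Finset.Icc i.1 (i.1 + p)).card ≤ ((Sᶜ).filter (fun v => c v = c (x i))).card := by
        refine Finset.card_le_card_of_injOn
          (fun k => if hk : k < N then e ⟨k, hk⟩ else x i) ?_ ?_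
        · intro k hk
          simp only [coe_Icc, Set.mem_Icc] at hk
          have hkN : k < N := by omega
          simp only [hkN, dif_pos, coe_filter, mem_compl, Set.mem_ofPred_eq]
          exact ⟨heS _, hall k hk.1 hk.2⟩
        · intro k hk k' hk' hkk
          simp only [coe_Icc, Set.mem_Icc] at hk hk'
          have hkN : k < N := by omega
          have hkN' : k' < N := by omega
          simp only [hkN, hkN', dif_pos] at hkk
          have := heinj hkk
          simpa using this
      rw [Nat.card_Icc] at this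
      omega
    have := hbig (c (x i))
    omega
  refine minor_of_pairs G S p x y ?_ ?_ ?_ (fun i => heS _) (fun i => heS _) ?_ 1 ∅ ?_ t (by simpa using ht)
  · intro i j h
    have := heinj h
    simp only [Fin.mk.injEq] at this
    exact Fin.ext this
  · intro i j h
    have := heinj h
    simp only [Fin.mk.injEq] at this
    exact Fin.ext (by omega)
  · intro i j h
    have := heinj h
    simp only [Fin.mk.injEq] at this
    omega
  · intro u hu v hv huv
    exact hc u v (fun h => huv (hS u hu v hv h))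
  · intro i _
    simp only [Equiv.Perm.coe_one, id_eq]
    refine ⟨hc _ _ (hne i), ?_, ?_⟩
    · intro u _
      by_cases h : c u = c (x i)
      · right
        exact hc _ _ (fun h' => hne i (h.symm.trans h'))
      · left; exact hc _ _ h
    · intro i' _
      by_cases h : c (x i) = c (y i')
      · right; right
        exact hc _ _ (fun h' => hne i (h.trans h'.symm))
      · left; exact hc _ _ h

end TH481.DM
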