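import Pool.Agent.TH481.DenseMinor6

/-! Smallest counterexamples to Hadwiger's conjecture and to its off-by-one form. -/

namespace TH481.DM

open Finset Pool.Agent.W212.EFF

open Classical in
theorem main2 {V : Type} [Fintype V] (G H : SimpleGraph V)
    (hHadj : ∀ u v, H.Adj u v ↔ u ≠ v ∧ ¬ G.Adj u v) (m t : ℕ)
    (hn0 : 0 < Fintype.card V) (hm : H.edgeFinset.card ≤ m) (hn : 64 * (8 * m + Fintype.card V) ^ 2 ≤ Fintype.card V ^ 3)
    (ht : 4 * (8 * m + Fintype.card V) * (2 * t) ≤
      4 * (8 * m + Fintype.card V) * Fintype.card V + Fintype.card V ^ 2) :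
    HasCliqueMinor G t := by
  set n := Fintype.card V with hndef
  set D := 8 * m / n + 1 with hD
  have h1 : 8 * m < n * D := by rw [hD]; exact Nat.lt_mul_div_succ _ hn0
  have h2 : n * (8 * m / n) ≤ 8 * m := Nat.mul_div_le _ _
  have h3 : n * D ≤ 8 * m + n := by rw [hD]; nlinarith
  have hD1 : 1 ≤ D := by rw [hD]; exact Nat.succ_pos _
  refine main1 G H hHadj D t hD1 ?_ ?_ ?_
  · nlinarith
  · have : n ^ 2 * (64 * D ^ 2) ≤ n ^ 2 * n := by
      calc n ^ 2 * (64 * D ^ 2) = 64 * (n * D) ^ 2 := by ring
        _ ≤ 64 * (8 * m + n) ^ 2 := Nat.mul_le_mul_left _ (Nat.pow_le_pow_left h3 2)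
        _ ≤ n ^ 3 := hn
        _ = n ^ 2 * n := by ring
    exact Nat.le_of_mul_le_mul_left this (by positivity)
  · -- `8 D t ≤ (4 D + 1) n`
    rcases Nat.lt_or_ge (2 * t) n with hlt | hge
    · nlinarith
    · obtain ⟨d, hd⟩ : ∃ d, 2 * t = n + d := ⟨2 * t - n, by omega⟩
      rw [hd] at ht
      have h4 : 4 * (8 * m + n) * d ≤ n ^ 2 := by nlinarith
      have h5 : 4 * (n * D) * d ≤ n ^ 2 := by
        refine le_trans ?_ h4
        exact Nat.mul_le_mul_right _ (Nat.mul_le_mul_left _ h3)
      have h6 : n * (4 * D * d) ≤ n * n := by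
        calc n * (4 * D * d) = 4 * (n * D) * d := by ring
          _ ≤ n ^ 2 := h5
          _ = n * n := by ring
      have h7 : 4 * D * d ≤ n := Nat.le_of_mul_le_mul_left h6 hn0
      calc 8 * D * t = 4 * D * (2 * t) := by ring
        _ = 4 * D * n + 4 * D * d := by rw [hd]; ring
        _ ≤ 4 * D * n + n := by omega
        _ = (4 * D + 1) * n := by ring


open Classical in
/-- A set `A` completely joined to its complement with a `K_{χ(A)}` minor cannot exist in a
minimal counterexample. -/
lemma good_set {V : Type} [Fintype V] (G : SimpleGraph V) (e k : ℕ) (he : e ≤ 1)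
    (h1 : ¬ G.Colorable k) (h2 : ¬ HasCliqueMinor G (k + e))
    (hmin : ∀ U : Set V, U ≠ Set.univ → ∀ j, ¬ (G.induce U).Colorable j →
      HasCliqueMinor (G.induce U) (j + e))
    (A : Finset V) (hA : A.Nonempty) (hj : ∀ x ∈ A, ∀ y ∈ Aᶜ, G.Adj x y)
    (hgood : MinorIn G (A : Set V) (Y (Ind G) A)) : False := by
  have hk := lt_Y_univ G k h1
  have hun : Y (Ind G) (univ : Finset V) ≤ Y (Ind G) A + Y (Ind G) Aᶜ := by
    have := Y_union_le (ind_cpx G) A Aᶜ
    rwa [Finset.union_compl] at this
  rcases Nat.eq_zero_or_pos (Y (Ind G) Aᶜ) with h0 | h0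
  · exact h2 (minor_of_minorIn G _ _ _ hgood (by omega))
  · have hne : ((Aᶜ : Finset V) : Set V) ≠ Set.univ := by
      obtain ⟨x, hx⟩ := hA
      intro h
      have : x ∈ ((Aᶜ : Finset V) : Set V) := by rw [h]; trivial
      rw [mem_coe, mem_compl] at this
      exact this hx
    have h3 := hmin _ hne _ (not_colorable_induce G Aᶜ h0)
    have h4 := minorIn_of_induce G _ _ h3
    exact h2 (minor_join G _ _ _ _ hgood h4 (fun x hx y hy => hj x (mem_coe.1 hx) y (mem_coe.1 hy)) _
      (by omega))

open Classical in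
lemma crit_of_min {V : Type} [Fintype V] (G : SimpleGraph V) (e k : ℕ) (he : e ≤ 1)
    (h1 : ¬ G.Colorable k) (h2 : ¬ HasCliqueMinor G (k + e))
    (hmin : ∀ U : Set V, U ≠ Set.univ → ∀ j, ¬ (G.induce U).Colorable j →
      HasCliqueMinor (G.induce U) (j + e)) (v : V) :
    Y (Ind G) ((univ : Finset V).erase v) < Y (Ind G) (univ : Finset V) := by
  have hk := lt_Y_univ G k h1
  by_contra hcon
  have hcon := not_lt.1 hcon
  have hne : (((univ : Finset V).erase v : Finset V) : Set V) ≠ Set.univ := by
    intro h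
    have : v ∈ (((univ : Finset V).erase v : Finset V) : Set V) := by rw [h]; trivial
    simp at this
  have h3 := hmin _ hne _ (not_colorable_induce G ((univ : Finset V).erase v) (by omega))
  exact h2 (minor_of_minorIn G _ _ _ (minorIn_of_induce G _ _ h3) (by omega))

open Classical in
/-- Vertices of one component of the complement. -/
noncomputable def comp {V : Type} [Fintype V] (H : SimpleGraph V) (v : V) : Finset V :=
  univ.filter (fun w => H.Reachable v w)

open Classical in
lemma comp_joined {V : Type} [Fintype V] (G H : SimpleGraph V)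
    (hHadj : ∀ u v, H.Adj u v ↔ u ≠ v ∧ ¬ G.Adj u v) (v : V) :
    ∀ x ∈ comp H v, ∀ y, y ∉ comp H v → G.Adj x y := by
  intro x hx y hy
  by_contra hcon
  simp only [comp, mem_filter, mem_univ, true_and] at hx hy
  apply hy
  have hxy : x ≠ y := by rintro rfl; exact hy hx
  exact hx.trans ((hHadj x y).2 ⟨hxy, hcon⟩).reachable

open Classical in
/-- Gallai's theorem applied to a component of the complement. -/
lemma comp_gallai {V : Type} [Fintype V] (G H : SimpleGraph V)
    (hHadj : ∀ u v, H.Adj u v ↔ u ≠ v ∧ ¬ G.Adj u v)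
    (hcrit : ∀ v, Y (Ind G) ((univ : Finset V).erase v) < Y (Ind G) (univ : Finset V)) (a : V) :
    2 * Y (Ind G) (comp H a) ≤ (comp H a).card + 1 := by
  have hjoin := comp_joined G H hHadj a
  apply gallai (ind_cpx G)
  · intro v hv
    have h1 : Y (Ind G) ((comp H a).erase v) +
        Y (Ind G) (((univ : Finset V).erase v) \ ((comp H a).erase v)) ≤
        Y (Ind G) ((univ : Finset V).erase v) := by
      apply Y_split (ind_cpx G) (erase_subset_erase _ (subset_univ _))
      intro x hx y hy
      rw [ind_pair]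
      intro hcon
      apply hcon
      refine hjoin x (mem_of_mem_erase hx) y ?_
      intro hy'
      rw [mem_sdiff] at hy
      exact hy.2 (mem_erase.2 ⟨ne_of_mem_erase hy.1, hy'⟩)
    have h2 : Y (Ind G) (univ \ comp H a) ≤
        Y (Ind G) (((univ : Finset V).erase v) \ ((comp H a).erase v)) := by
      apply Y_mono (ind_cpx G)
      intro y hy
      rw [mem_sdiff] at hy ⊢
      exact ⟨mem_erase.2 ⟨fun h => hy.2 (h ▸ hv), mem_univ _⟩, fun h => hy.2 (mem_of_mem_erase h)⟩
    have h3 : Y (Ind G) (univ : Finset V) ≤ Y (Ind G) (comp H a) + Y (Ind G) (univ \ comp H a) := by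
      have := Y_union_le (ind_cpx G) (comp H a) (univ \ comp H a)
      rwa [Finset.union_sdiff_of_subset (subset_univ _)] at this
    have := hcrit v
    omega
  · intro B hB hBne hBA
    by_contra hcon
    push Not at hcon
    obtain ⟨x0, hx0⟩ := hBne
    have hstep : ∀ u ∈ B, ∀ w, H.Adj u w → w ∈ B := by
      intro u hu w huw
      by_contra hw
      have hwA : w ∈ comp H a := by
        have := hB hu
        simp only [comp, mem_filter, mem_univ, true_and] at this ⊢
        exact this.trans huw.reachable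
      have := hcon u hu w (mem_sdiff.2 ⟨hwA, hw⟩)
      rw [ind_pair] at this
      exact this ((hHadj u w).1 huw).2
    have hclosed : ∀ u w : V, H.Walk u w → u ∈ B → w ∈ B := by
      intro u w p
      induction p with
      | nil => exact id
      | cons h p ih => exact fun hu => ih (hstep _ hu _ h)
    apply hBA
    apply Finset.Subset.antisymm hB
    intro z hz
    have h1 := hB hx0
    simp only [comp, mem_filter, mem_univ, true_and] at h1 hz
    obtain ⟨p⟩ := h1.symm.trans hz
    exact hclosed _ _ p hx0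

open Classical in
lemma induce_edges {V : Type} [Fintype V] (G H : SimpleGraph V)
    (hHadj : ∀ u v, H.Adj u v ↔ u ≠ v ∧ ¬ G.Adj u v) (A : Finset V)
    (H' : SimpleGraph (A : Set V)) (hH' : ∀ u v, H'.Adj u v ↔ u ≠ v ∧ ¬ (G.induce (A : Set V)).Adj u v) :
    H'.edgeFinset.card ≤ H.edgeFinset.card := by
  refine Finset.card_le_card_of_injOn (fun z => Sym2.map Subtype.val z) ?_ ?_
  · intro z hz
    induction z using Sym2.ind with
    | _ x y =>
      simp only [SimpleGraph.coe_edgeFinset, SimpleGraph.mem_edgeSet, Sym2.map_mk, Prod.map] at hz ⊢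
      rw [hH'] at hz
      rw [hHadj]
      exact ⟨fun h => hz.1 (Subtype.ext h), fun h => hz.2 (by simpa using h)⟩
  · intro z _ z' _ h
    exact Sym2.map.injective Subtype.val_injective h

open Classical in
/-- Each component of the complement has many missing edges. -/
lemma comp_bad {V : Type} [Fintype V] (G H : SimpleGraph V)
    (hHadj : ∀ u v, H.Adj u v ↔ u ≠ v ∧ ¬ G.Adj u v)
    (hcrit : ∀ v, Y (Ind G) ((univ : Finset V).erase v) < Y (Ind G) (univ : Finset V)) (a : V)
    (hbad : 64 * (8 * H.edgeFinset.card + (comp H a).card) ^ 2 ≤ (comp H a).card ^ 3) :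
    MinorIn G (comp H a : Set V) (Y (Ind G) (comp H a)) := by
  apply minorIn_of_induce
  have hcard : Fintype.card ((comp H a : Finset V) : Set V) = (comp H a).card := by
    simp
  have hpos : 0 < (comp H a).card := by
    apply Finset.card_pos.2
    exact ⟨a, by simp only [comp, mem_filter, mem_univ, true_and]; exact SimpleGraph.Reachable.refl a⟩
  have hg := comp_gallai G H hHadj hcrit a
  have hH' : ∀ u v, (G.induce ((comp H a : Finset V) : Set V))ᶜ.Adj u v ↔
      u ≠ v ∧ ¬ (G.induce ((comp H a : Finset V) : Set V)).Adj u v := fun u v => by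
    rw [SimpleGraph.compl_adj]
  refine main2 (G.induce ((comp H a : Finset V) : Set V)) (G.induce ((comp H a : Finset V) : Set V))ᶜ
    hH' H.edgeFinset.card _ (by rw [hcard]; exact hpos)
    ?_ (by rw [hcard]; exact hbad) ?_
  · convert induce_edges G H hHadj (comp H a) (G.induce ((comp H a : Finset V) : Set V))ᶜ hH'
  · rw [hcard]
    set c := (comp H a).card
    set M := 8 * H.edgeFinset.card + c with hM
    have h1 : 8 * M ≤ c ^ 2 := by
      have h2 : (8 * M) ^ 2 ≤ (c ^ 2) ^ 2 := by
        calc (8 * M) ^ 2 = 64 * M ^ 2 := by ring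
          _ ≤ c ^ 3 := hbad
          _ ≤ c ^ 4 := Nat.pow_le_pow_right hpos (by norm_num)
          _ = (c ^ 2) ^ 2 := by ring
      exact (Nat.pow_le_pow_iff_left (by norm_num)).1 h2
    calc 4 * M * (2 * Y (Ind G) (comp H a)) ≤ 4 * M * (c + 1) := Nat.mul_le_mul_left _ hg
      _ = 4 * M * c + 4 * M := by ring
      _ ≤ 4 * M * c + c ^ 2 := by omega

end TH481.DM
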