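import Pool.Agent.TH481.DenseMinor8

/-! Final forms. -/

namespace TH481.DM

open Finset Pool.Agent.W212.EFF

open Classical in
lemma ncard_edges {V : Type} [Fintype V] (H : SimpleGraph V) :
    (H.edgeSet).ncard = H.edgeFinset.card := by
  rw [← SimpleGraph.coe_edgeFinset, Set.ncard_coe_finset]

lemma num_bound (m n : ℕ) (hn : 256 ≤ n) (hm : 16384 * m ^ 2 ≤ n ^ 3) :
    64 * (8 * m + n) ^ 2 ≤ n ^ 3 := by
  have h1 : (8 * m + n) ^ 2 ≤ 2 * (64 * m ^ 2 + n ^ 2) := by
    have : 2 * (8 * m) * n ≤ (8 * m) ^ 2 + n ^ 2 := by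
      rcases Nat.le_total (8 * m) n with h | h
      · obtain ⟨d, hd⟩ := Nat.exists_eq_add_of_le h
        rw [hd]; nlinarith [Nat.zero_le (d ^ 2)]
      · obtain ⟨d, hd⟩ := Nat.exists_eq_add_of_le h
        rw [hd]; nlinarith [Nat.zero_le (d ^ 2)]
    nlinarith
  have h2 : 256 * n ^ 2 ≤ n ^ 3 := by
    calc 256 * n ^ 2 ≤ n * n ^ 2 := Nat.mul_le_mul_right _ hn
      _ = n ^ 3 := by ring
  nlinarith

theorem final1 {V : Type} [Fintype V] (G : SimpleGraph V) (hn : 256 ≤ Fintype.card V)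
    (hm : 16384 * (Gᶜ.edgeSet).ncard ^ 2 ≤ Fintype.card V ^ 3) (t : ℕ)
    (ht : (t : ℝ) ≤ (Fintype.card V : ℝ) / 2 +
      (Fintype.card V : ℝ) ^ 2 / (8 * (8 * (Gᶜ.edgeSet).ncard + Fintype.card V))) :
    HasCliqueMinor G t := by
  classical
  have hnum := num_bound _ _ hn hm
  refine main2 G Gᶜ (fun u v => by rw [SimpleGraph.compl_adj]) (Gᶜ.edgeSet).ncard t (by omega)
    (by rw [ncard_edges Gᶜ]) hnum ?_
  set n := Fintype.card V
  set m := (Gᶜ.edgeSet).ncard
  have hnR : (256 : ℝ) ≤ n := by exact_mod_cast hn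
  have hpos : (0 : ℝ) < 8 * (8 * (m : ℝ) + n) := by positivity
  have h1 : 8 * (8 * (m : ℝ) + n) * t ≤ 4 * (8 * (m : ℝ) + n) * n + n ^ 2 := by
    calc 8 * (8 * (m : ℝ) + n) * t ≤ 8 * (8 * (m : ℝ) + n) *
          ((n : ℝ) / 2 + (n : ℝ) ^ 2 / (8 * (8 * (m : ℝ) + n))) :=
            mul_le_mul_of_nonneg_left ht hpos.le
      _ = 4 * (8 * (m : ℝ) + n) * n + n ^ 2 := by
          field_simp
          ring
  have h2 : 8 * (8 * m + n) * t ≤ 4 * (8 * m + n) * n + n ^ 2 := by exact_mod_cast h1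
  calc 4 * (8 * m + n) * (2 * t) = 8 * (8 * m + n) * t := by ring
    _ ≤ _ := h2

theorem final2 {V : Type} [Fintype V] (G : SimpleGraph V) (hn : 256 ≤ Fintype.card V)
    (hm : 16384 * (Gᶜ.edgeSet).ncard ^ 2 ≤ Fintype.card V ^ 3) (q : ℕ)
    (hq : (q : ℝ) ≤ (Fintype.card V : ℝ) / 2 +
      (Fintype.card V : ℝ) ^ 2 / (8 * (8 * (Gᶜ.edgeSet).ncard + Fintype.card V)))
    (hcol : G.Colorable q) (k : ℕ) (hk : ¬ G.Colorable k) : HasCliqueMinor G (k + 1) := by
  have hkq : k < q := by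
    by_contra hcon
    exact hk (hcol.mono (not_lt.1 hcon))
  refine final1 G hn hm (k + 1) (le_trans ?_ hq)
  exact_mod_cast hkq

open Classical in
lemma colorable_of_matching {V : Type} [Fintype V] (G : SimpleGraph V) (M : Gᶜ.Subgraph)
    (hM : M.IsMatching) (q : ℕ) (hq : 2 * Fintype.card V ≤ 2 * q + M.verts.ncard) :
    G.Colorable q := by
  set T : Finset V := univ.filter (fun v => v ∈ M.verts) with hT
  have hTc : T.card = M.verts.ncard := by
    rw [← Set.ncard_coe_finset]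
    congr 1
    ext v; simp [hT]
  have hPM : PM (Ind G) T := by
    have hch : ∀ v, ∃ w, v ∈ M.verts → M.Adj v w := by
      intro v
      by_cases hv : v ∈ M.verts
      · obtain ⟨w, hw, _⟩ := hM hv
        exact ⟨w, fun _ => hw⟩
      · exact ⟨v, fun h => absurd h hv⟩
    choose g hg using hch
    refine ⟨g, ?_⟩
    intro x hx
    simp only [hT, mem_filter, mem_univ, true_and] at hx ⊢
    have h1 := hg x hx
    have h2 : g x ∈ M.verts := h1.snd_mem
    have h3 := hg (g x) h2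
    refine ⟨h2, ?_, ?_⟩
    · exact (hM h2).unique h3 h1.symm
    · have h4 := h1.adj_sub
      rw [SimpleGraph.compl_adj] at h4
      exact ⟨h4.1, (ind_pair G x (g x)).2 h4.2⟩
  have h1 := pm_Y (ind_cpx G) T.card T (le_refl _) hPM
  have h2 : Y (Ind G) (univ : Finset V) ≤ Y (Ind G) T + Y (Ind G) Tᶜ := by
    have := Y_union_le (ind_cpx G) T Tᶜ
    rwa [Finset.union_compl] at this
  have h3 := Y_le_card (ind_cpx G) Tᶜ
  rw [card_compl] at h3
  have hle : T.card ≤ Fintype.card V := card_le_univ _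
  rw [colorable_iff, ← cov_iff]
  exact (Y_spec (ind_cpx G) univ).le (ind_cpx G) (by omega)

theorem final3 {V : Type} [Fintype V] (G : SimpleGraph V) (hn : 256 ≤ Fintype.card V)
    (hm : 16384 * (Gᶜ.edgeSet).ncard ^ 2 ≤ Fintype.card V ^ 3) (M : Gᶜ.Subgraph)
    (hM : M.IsMatching)
    (hv : (Fintype.card V : ℝ) - M.verts.ncard ≤
      (Fintype.card V : ℝ) ^ 2 / (4 * (8 * (Gᶜ.edgeSet).ncard + Fintype.card V)))
    (k : ℕ) (hk : ¬ G.Colorable k) : HasCliqueMinor G (k + 1) := by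
  classical
  have heven : Even M.verts.ncard := by
    have := hM.even_card
    rwa [← Set.ncard_eq_toFinset_card'] at this
  obtain ⟨p, hp⟩ := heven
  have hle : M.verts.ncard ≤ Fintype.card V := by
    rw [← Nat.card_eq_fintype_card, ← Set.ncard_univ]
    exact Set.ncard_le_ncard (Set.subset_univ _) Set.finite_univ
  refine final2 G hn hm (Fintype.card V - p) ?_ (colorable_of_matching G M hM _ (by omega)) k hk
  have hpR : ((Fintype.card V - p : ℕ) : ℝ) = Fintype.card V - p := by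
    rw [Nat.cast_sub (by omega)]
  rw [hpR]
  have h1 : (M.verts.ncard : ℝ) = p + p := by rw [hp]; push_cast; ring
  rw [h1] at hv
  have h2 : (Fintype.card V : ℝ) ^ 2 / (8 * (8 * (Gᶜ.edgeSet).ncard + Fintype.card V)) =
      (Fintype.card V : ℝ) ^ 2 / (4 * (8 * (Gᶜ.edgeSet).ncard + Fintype.card V)) / 2 := by
    rw [div_div]; congr 1; ring
  rw [h2]
  linarith

theorem final4 {V : Type} [Fintype V] (G : SimpleGraph V) (hconn : Gᶜ.Connected) (k : ℕ)
    (hcol : ∀ v, (G.induce {v}ᶜ).Colorable k) (h1 : ¬ G.Colorable k)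
    (hm : 6400 * (Gᶜ.edgeSet).ncard ^ 2 ≤ Fintype.card V ^ 3) : HasCliqueMinor G (k + 1) := by
  classical
  rcases Nat.lt_or_ge (Fintype.card V) 2 with h2 | h2
  · have hk := lt_Y_univ G k h1
    have h3 := Y_le_card (ind_cpx G) (univ : Finset V)
    rw [card_univ] at h3
    have hk0 : k = 0 := by omega
    subst hk0
    obtain ⟨a⟩ := hconn.nonempty
    exact minor_of_minorIn G {a} 1 1 (minorIn_singleton G a 1 (le_refl _)) (le_refl _)
  · exact crit_conn G Gᶜ (fun u v => by rw [SimpleGraph.compl_adj]) hconn k hcol h1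
      (by rw [← ncard_edges Gᶜ]; exact hm) h2

end TH481.DM
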